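import Pool.Agent.Lib.MP_1ae3da_al.V.MulA

/-! The characteristic does not divide the order of the multiplier: conclusion. -/

namespace Pool.Agent.Lib.MP_1ae3da_al.WG

open Matrix CT

section core
variable {K X : Type} [Field K] [Group X] {m : ℕ}

/-- upward closed sets of positive pairs -/
def MulUp (s : Finset (Fin m × Fin m)) : Prop :=
  ∀ i j, (i, j) ∈ s → i < j ∧ (∀ k, k < i → (k, j) ∈ s) ∧ ∀ k, j < k → (i, k) ∈ s

/-- the subgroup generated by the lifts indexed by `s` -/
def mulY (y : Fin m → Fin m → K → X) (s : Finset (Fin m × Fin m)) : Subgroup X :=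
  Subgroup.closure {x | ∃ i j c, (i, j) ∈ s ∧ y i j c = x}

lemma mul_rt_apply (a b : Fin m) (c : K) (u : Matrix (Fin m) (Fin m) K) (i j : Fin m) :
    (rt a b c * u) i j = u i j + if i = a then c * u b j else 0 := by
  rw [rt, tv, add_mul, one_mul, vecMulVec_mul, Matrix.add_apply, vecMulVec_apply,
    single_one_vecMul, Pi.single_apply]
  split_ifs <;> simp [row]

lemma mul_core (π : X →* SpecialLinearGroup (Fin m) K) (y : Fin m → Fin m → K → X)
    (h0 : ∀ i j, i < j → ∀ c, (π (y i j c)).1 = rt i j c)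
    (h1 : ∀ i j, i ≠ j → ∀ a b, y i j (a + b) = y i j a * y i j b)
    (h2 : ∀ i j k l, i < j → k < l → j ≠ k → i ≠ l → ∀ a b,
      y i j a * y k l b = y k l b * y i j a)
    (h3 : ∀ i j k, i < j → j < k → ∀ a b,
      y i j a * y j k b = y i k (a * b) * (y j k b * y i j a)) (s : Finset (Fin m × Fin m)) :
    MulUp s → (∀ x ∈ mulY y s, ∀ i j, (i, j) ∉ s → (π x).1 i j = (1 : Matrix _ _ K) i j) ∧
      (∀ x ∈ mulY y s, π x = 1 → x = 1) ∧
      ∀ u : SpecialLinearGroup (Fin m) K,
        (∀ i j, (i, j) ∉ s → u.1 i j = (1 : Matrix _ _ K) i j) → ∃ x ∈ mulY y s, π x = u := by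
  induction s using Finset.induction_on_min_value (fun a : Fin m × Fin m => (a.2 : ℤ) - a.1) with
  | empty =>
    intro _
    have : mulY y ∅ = ⊥ := by simp [mulY]
    rw [this]
    refine ⟨fun x hx i j _ => ?_, fun x hx _ => hx, fun u hu => ⟨1, Subgroup.one_mem _, ?_⟩⟩
    · rw [Subgroup.mem_bot.1 hx, map_one]
      rfl
    · rw [map_one]
      exact Subtype.ext (Matrix.ext fun i j => (hu i j (by simp)).symm)
  | insert p s hp hmin ih =>
    intro hU
    obtain ⟨a, b⟩ := p
    have hab : a < b := (hU a b (Finset.mem_insert_self _ _)).1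
    have hUs : MulUp s := by
      intro i j hij
      obtain ⟨e1, e2, e3⟩ := hU i j (Finset.mem_insert_of_mem hij)
      have hm := hmin _ hij
      refine ⟨e1, fun k hk => ?_, fun k hk => ?_⟩
      · refine (Finset.mem_insert.1 (e2 k hk)).resolve_left fun e => ?_
        obtain ⟨rfl, rfl⟩ := Prod.mk.inj e
        have := Fin.lt_def.1 hk
        simp only at hm
        omega
      · refine (Finset.mem_insert.1 (e3 k hk)).resolve_left fun e => ?_
        obtain ⟨rfl, rfl⟩ := Prod.mk.inj e
        have := Fin.lt_def.1 hk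
        simp only at hm
        omega
    obtain ⟨ia, ib, ic⟩ := ih hUs
    have gen : ∀ i j c, (i, j) ∈ s → y i j c ∈ mulY y s := fun i j c h =>
      Subgroup.subset_closure ⟨i, j, c, h, rfl⟩
    have y0 : y a b 0 = 1 := by
      have := h1 a b hab.ne 0 0
      rw [add_zero] at this
      exact left_eq_mul.1 this
    have yi : ∀ c, (y a b c)⁻¹ = y a b (-c) := fun c =>
      inv_eq_of_mul_eq_one_right (by rw [← h1 a b hab.ne, add_neg_cancel, y0])
    have nrm : ∀ c, ∀ x ∈ mulY y s, y a b c * x * (y a b c)⁻¹ ∈ mulY y s := by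
      intro c x hx
      have : mulY y s ≤ (mulY y s).comap (MulAut.conj (y a b c)).toMonoidHom := by
        refine (Subgroup.closure_le _).2 ?_
        rintro _ ⟨k, l, d, hkl, rfl⟩
        obtain ⟨e1, e2, e3⟩ := hUs k l hkl
        change y a b c * y k l d * (y a b c)⁻¹ ∈ mulY y s
        by_cases hb : b = k
        · subst hb
          rw [h3 a b l hab e1, mul_assoc, mul_inv_cancel_right]
          exact mul_mem (gen _ _ _ (e2 a hab)) (gen _ _ _ hkl)
        by_cases ha : a = l
        · subst ha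
          have : y a b c * y k a d * (y a b c)⁻¹ = (y k b (d * c))⁻¹ * y k a d := by
            rw [mul_inv_eq_iff_eq_mul, mul_assoc, h3 k a b e1 hab, inv_mul_cancel_left]
          rw [this]
          exact mul_mem (inv_mem (gen _ _ _ (e3 b hab))) (gen _ _ _ hkl)
        · rw [h2 a b k l hab e1 hb ha, mul_inv_cancel_right]
          exact gen _ _ _ hkl
      exact this hx
    have form : ∀ x ∈ mulY y (insert (a, b) s), ∃ c, ∃ g ∈ mulY y s, x = y a b c * g := by
      intro x hx
      induction hx using Subgroup.closure_induction with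
      | mem x hx =>
        obtain ⟨i, j, c, hij, rfl⟩ := hx
        rcases Finset.mem_insert.1 hij with e | e
        · obtain ⟨rfl, rfl⟩ := Prod.mk.inj e
          exact ⟨c, 1, one_mem _, (mul_one _).symm⟩
        · exact ⟨0, _, gen i j c e, by rw [y0, one_mul]⟩
      | one => exact ⟨0, 1, one_mem _, by rw [y0, one_mul]⟩
      | mul x x' _ _ i1 i2 =>
        obtain ⟨c, g, hg, rfl⟩ := i1
        obtain ⟨c', g', hg', rfl⟩ := i2
        refine ⟨c + c', _, mul_mem (nrm (-c') g hg) hg', ?_⟩
        rw [h1 a b hab.ne, ← yi]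
        group
      | inv x _ i1 =>
        obtain ⟨c, g, hg, rfl⟩ := i1
        refine ⟨-c, _, nrm c _ (inv_mem hg), ?_⟩
        rw [← yi]
        group
    have ent : ∀ c (u : SpecialLinearGroup (Fin m) K) i j,
        (π (y a b c) * u).1 i j = u.1 i j + if i = a then c * u.1 b j else 0 := fun c u i j => by
      change ((π (y a b c)).1 * u.1) i j = _
      rw [h0 a b hab, mul_rt_apply]
    have hbb : (b, b) ∉ insert (a, b) s := fun h => lt_irrefl _ (hU b b h).1
    refine ⟨fun x hx i j hij => ?_, fun x hx h => ?_, fun u hu => ?_⟩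
    · obtain ⟨c, g, hg, rfl⟩ := form x hx
      rw [Finset.mem_insert, not_or] at hij
      rw [map_mul, ent, ia g hg i j hij.2]
      split_ifs with e
      · subst e
        rw [ia g hg b j fun h => hij.2 ((hUs b j h).2.1 i hab),
          one_apply_ne (i := b) (fun e => hij.1 (by rw [e])), mul_zero, add_zero]
      · rw [add_zero]
    · obtain ⟨c, g, hg, rfl⟩ := form x hx
      have e := ent c (π g) a b
      rw [← map_mul, h, ia g hg a b hp, ia g hg b b fun h => hbb (Finset.mem_insert_of_mem h),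
        if_pos rfl, one_apply_eq, mul_one] at e
      rw [left_eq_add.1 e, y0, one_mul] at h ⊢
      exact ib g hg h
    · obtain ⟨x, hx, e⟩ := ic (π (y a b (-u.1 a b)) * u) fun i j hij => by
        rw [ent]
        by_cases e : (i, j) = (a, b)
        · obtain ⟨rfl, rfl⟩ := Prod.mk.inj e
          rw [if_pos rfl, hu j j hbb, one_apply_eq, mul_one, add_neg_cancel, one_apply_ne hab.ne]
        · have hn : (i, j) ∉ insert (a, b) s := by simp only [Finset.mem_insert, e, hij]; simp
          rw [hu i j hn]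
          split_ifs with e'
          · subst e'
            rw [hu b j fun h => hn ((hU b j h).2.1 i hab),
              one_apply_ne (i := b) (fun e' => e (by rw [e'])), mul_zero, add_zero]
          · rw [add_zero]
      refine ⟨y a b (u.1 a b) * x, mul_mem
        (Subgroup.subset_closure ⟨a, b, _, Finset.mem_insert_self _ _, rfl⟩)
        (Subgroup.closure_mono ?_ hx), ?_⟩
      · rintro _ ⟨i, j, c, hij, rfl⟩
        exact ⟨i, j, c, Finset.mem_insert_of_mem hij, rfl⟩
      · rw [map_mul, e, ← yi, map_inv, mul_inv_cancel_left]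

end core

variable {K X S : Type} [Field K] [Finite K] [Group X] [Finite X] [Group S] {m : ℕ}

omit [Finite K] [Finite X] in
/-- a subgroup that meets the kernel trivially and covers the unitriangular group -/
lemma mul_split (hm : 3 ≤ m) (π : X →* S) (hs : Function.Surjective π)
    (hc : π.ker ≤ Subgroup.center X) (f : SpecialLinearGroup (Fin m) K →* S)
    (hk : f.ker ≤ Subgroup.center _) {t : K} (t0 : t ≠ 0) (ht : t ^ m ≠ 1) :
    ∃ Y : Subgroup X, (∀ x ∈ Y, π x = 1 → x = 1) ∧ (SLI.US m K).map f ≤ Y.map π := by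
  let P : Subgroup (X × SpecialLinearGroup (Fin m) K) :=
    (π.comp (MonoidHom.fst _ _)).eqLocus (f.comp (MonoidHom.snd _ _))
  have hP : ∀ x : P, π x.1.1 = f x.1.2 := fun x => x.2
  let ρ : P →* SpecialLinearGroup (Fin m) K := (MonoidHom.snd _ _).comp P.subtype
  have hρ : ∀ x : P, ρ x = x.1.2 := fun _ => rfl
  have sρ : Function.Surjective ρ := fun u => by
    obtain ⟨x, hx⟩ := hs (f u)
    exact ⟨⟨(x, u), hx⟩, rfl⟩
  have cρ : ρ.ker ≤ Subgroup.center P := fun x hx => by
    have h1 : x.1.2 = 1 := hx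
    have h2 : x.1.1 ∈ π.ker := by rw [MonoidHom.mem_ker, hP, h1, map_one]
    refine Subgroup.mem_center_iff.2 fun g => Subtype.ext (Prod.ext ?_ ?_)
    · exact Subgroup.mem_center_iff.1 (hc h2) g.1.1
    · change g.1.2 * x.1.2 = x.1.2 * g.1.2
      rw [h1, mul_one, one_mul]
  obtain ⟨y, h0, h1, h2, h3⟩ := mul_lift hm ρ sρ cρ (MonoidHom.id _) t0 ht
  have h0' : ∀ i j, i < j → ∀ c, (ρ (y i j c)).1 = rt i j c := fun i j hij c => by
    have e : (SpecialLinearGroup.transvection hij.ne c).1 = rt i j c := by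
      ext k l
      have := mul_rt_apply i j c 1 k l
      rw [mul_one] at this
      rw [this]
      change (1 + single i j c : Matrix (Fin m) (Fin m) K) k l = _
      rw [Matrix.add_apply, single_apply, one_apply (i := j)]
      by_cases e1 : k = i
      · by_cases e2 : j = l <;> simp [e1, e2]
      · simp [e1, Ne.symm e1]
    rw [h0 i j hij.ne c _ e, MonoidHom.id_apply, e]
  obtain ⟨ia, ib, ic⟩ := mul_core ρ y h0' h1 h2 h3 (Finset.univ.filter fun p => p.1 < p.2)
    fun i j hij => by
      have : i < j := by simpa using hij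
      exact ⟨this, fun k hk => by simpa using hk.trans this, fun k hk => by
        simpa using this.trans hk⟩
  refine ⟨(mulY y (Finset.univ.filter fun p => p.1 < p.2)).map
    ((MonoidHom.fst _ _).comp P.subtype), ?_, ?_⟩
  · rintro _ ⟨x, hx, rfl⟩ h
    have h1 : ρ x ∈ f.ker := (hP x).symm.trans h
    obtain ⟨r, -, hr⟩ := Matrix.SpecialLinearGroup.mem_center_iff.1 (hk h1)
    have h2 := ia x hx ⟨0, by omega⟩ ⟨0, by omega⟩ (by simp)
    rw [← hr] at h2
    have h3 : r = 1 := by simpa using h2
    rw [ib x hx (Subtype.ext (by rw [← hr, h3, map_one]; rfl)), map_one]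
  · rintro _ ⟨u, hu, rfl⟩
    obtain ⟨e1, e2⟩ := SLI.mem_US'.1 hu
    obtain ⟨x, hx, rfl⟩ := ic u fun i j hij => by
      have : j ≤ i := by simpa using hij
      rcases this.eq_or_lt with rfl | h
      · rw [e2, one_apply_eq]
      · rw [e1 i j h, one_apply_ne h.ne']
    exact ⟨x.1.1, ⟨x, hx, rfl⟩, hP x⟩

/-- the characteristic does not divide the order of a central kernel of a perfect group -/
theorem mul_chr (hm : 3 ≤ m) (hX : commutator X = ⊤) (π : X →* S) (hs : Function.Surjective π)
    (hc : π.ker ≤ Subgroup.center X) (f : SpecialLinearGroup (Fin m) K →* S)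
    (hf : Function.Surjective f) (hk : f.ker ≤ Subgroup.center _) {t : K} (t0 : t ≠ 0)
    (ht : t ^ m ≠ 1) {r : ℕ} [Fact r.Prime] [CharP K r] : ¬ r ∣ Nat.card π.ker := by
  intro hd
  have := Fintype.ofFinite K
  obtain ⟨Y, hY, hle⟩ := mul_split hm π hs hc f hk t0 ht
  obtain ⟨z, hz⟩ := exists_prime_orderOf_dvd_card' r hd
  have h1 := mult_le π hc Y (mult_tr hX ((Y.map π).comap π) (hc z.2))
  have h2 : (z : X) ^ ((Y.map π).comap π).index = 1 :=
    hY _ (Subgroup.commutator_le_self Y h1) (π.ker.pow_mem z.2 _)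
  have h3 := orderOf_dvd_of_pow_eq_one h2
  rw [Subgroup.orderOf_coe, hz, Subgroup.index_comap_of_surjective _ hs] at h3
  exact SLI.index_US (F := K) (by omega : 0 < m) r
    (h3.trans ((Subgroup.index_dvd_of_le hle).trans (Subgroup.index_map_dvd _ hf)))

end Pool.Agent.Lib.MP_1ae3da_al.WG
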