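import Pool.Agent.Lib.MP_1ae3da_al.V.Bas

/-! The special linear group is generated by root elements; its quotient by the centre is simple. -/

namespace Pool.Agent.Lib.MP_1ae3da_al.WG

open Matrix

variable {K : Type} [Field K]

open Matrix.SpecialLinearGroup in
theorem sim_ind {ι : Type} [Fintype ι] [DecidableEq ι] (N : Subgroup (SpecialLinearGroup ι K))
    (ht : ∀ (i j : ι) (h : i ≠ j) (c : K), transvection h c ∈ N) : N = ⊤ := by
  obtain h | h := subsingleton_or_nontrivial ι
  · exact Subsingleton.elim _ _
  refine eq_top_iff.2 fun M _ => diagonal_transvection_induction' (· ∈ N) M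
    (fun i j h c hc => ?_) ht fun _ _ => mul_mem
  have e : diag2n h c hc = transvection h c * transvection h.symm (-c⁻¹) * transvection h c *
      transvection h (-1) * transvection h.symm 1 * transvection h (-1) := by
    have e1 : (diag2n h c hc).1 = 1 + single i i (c - 1) + single j j (c⁻¹ - 1) := by
      ext k l
      simp only [diag2n_coe, diagonal_apply, Matrix.add_apply, one_apply, single_apply]
      grind
    apply Subtype.ext
    simp only [e1, coe_mul, transvection_coe, mul_add, add_mul, one_mul, mul_one,
      single_mul_single_same, single_mul_single_of_ne _ _ _ _ h,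
      single_mul_single_of_ne _ _ _ _ h.symm, zero_mul, mul_zero, add_zero]
    ext k l
    simp only [Matrix.add_apply, single_apply]
    split_ifs <;> first | grind | (field_simp; ring)
  rw [e]
  exact mul_mem (mul_mem (mul_mem (mul_mem (mul_mem (ht ..) (ht ..)) (ht ..)) (ht ..)) (ht ..))
    (ht ..)

theorem sim_rt {ι : Type} [Fintype ι] [DecidableEq ι] {i j : ι} (h : i ≠ j) (c : K) :
    (SpecialLinearGroup.transvection h c).1 = rt i j c := by
  rw [SpecialLinearGroup.transvection_coe, rt, tv]
  ext k l
  simp only [Matrix.add_apply, vecMulVec_apply, single_apply, Pi.single_apply]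
  grind

theorem sl_gen {ι : Type} [Fintype ι] [DecidableEq ι] :
    Rg (fun _ _ => (Set.univ : Set K)) = (SpecialLinearGroup.toGL (n := ι) (R := K)).range := by
  refine le_antisymm ((Subgroup.closure_le _).2 ?_) ?_
  · rintro g ⟨i, j, h, c, -, e⟩
    exact ⟨SpecialLinearGroup.transvection h c, Units.ext ((sim_rt h c).trans e.symm)⟩
  · rintro _ ⟨M, rfl⟩
    exact (sim_ind ((Rg fun _ _ => (Set.univ : Set K)).comap SpecialLinearGroup.toGL)
      fun i j h c => Subgroup.subset_closure ⟨i, j, h, c, trivial, sim_rt h c⟩).ge
      (Subgroup.mem_top M)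

theorem sl_perf {m : ℕ} (hm : 3 ≤ m) : commutator (SpecialLinearGroup (Fin m) K) = ⊤ := by
  refine sim_ind _ fun i j h c => ?_
  obtain ⟨k, hi, hj⟩ : ∃ k, k ≠ i ∧ k ≠ j := by
    by_contra! h0
    have : (Finset.univ : Finset (Fin m)) ⊆ {i, j} := fun k _ => by
      by_cases e : k = i
      · simp [e]
      · simp [h0 k e]
    have := (Finset.card_le_card this).trans Finset.card_le_two
    rw [Finset.card_univ, Fintype.card_fin] at this
    omega
  have e : SpecialLinearGroup.transvection h c =
      SpecialLinearGroup.transvection hi.symm c * SpecialLinearGroup.transvection hj 1 *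
        (SpecialLinearGroup.transvection hi.symm c)⁻¹ *
          (SpecialLinearGroup.transvection hj 1)⁻¹ := by
    rw [eq_mul_inv_iff_mul_eq, eq_mul_inv_iff_mul_eq]
    apply Subtype.ext
    change (1 + single i j c) * (1 + single k j 1) * (1 + single i k c) =
      (1 + single i k c) * (1 + single k j (1 : K))
    simp only [mul_add, add_mul, single_mul_single_of_ne _ _ _ _ hi,
      one_mul, mul_one, single_mul_single_same, single_mul_single_of_ne _ _ _ _ h.symm,
      single_mul_single_of_ne _ _ _ _ hj.symm, add_zero]
    abel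
  rw [e]
  exact Subgroup.commutator_mem_commutator (Subgroup.mem_top _) (Subgroup.mem_top _)

/-- hint: a normal subgroup of `SL` with a nonscalar `g`: `g v ∉ K v`, `h = [g, tv v φ] ≠ 1`,
`ψ ≠ 0` vanishing on `v`, `g v`; `[h, tv w ψ] = tv (h w - w) ψ` for `ψ w = 0`, or `h` fixes
`ker ψ` and is itself a transvection; transvections are conjugate. Or Iwasawa as in Mathlib
`Projectivization/PSL/PSL2`. -/
theorem psl_simple {m : ℕ} (hm : 3 ≤ m) :
    IsSimpleGroup (Matrix.ProjectiveSpecialLinearGroup (Fin m) K) := by
  have : Nontrivial (Fin m) := Fin.nontrivial_iff_two_le.2 (by omega)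
  have : Group.IsPerfect (SpecialLinearGroup (Fin m) K) := ⟨sl_perf hm⟩
  have h : Group.IsPerfect (Matrix.ProjectiveSpecialLinearGroup (Fin m) K) := inferInstance
  refine MulAction.IwasawaStructure.isSimpleGroup (α := Projectivization K (Fin m → K))
    h.commutator_eq_top ⟨PSL.iwasawaT, fun p => ?_, fun g p => ?_, ?_⟩ inferInstance
  · have : IsMulCommutative (SpecialLinearGroup.lineStab (F := K) (ι := Fin m) p.submodule) := by
      rw [← Projectivization.mk_rep p, Projectivization.submodule_mk]
      exact SpecialLinearGroup.lineStab_isMulCommutative_of_span p.rep p.rep_nonzero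
    exact Subgroup.map_isMulCommutative _ _
  · obtain ⟨g, rfl⟩ := QuotientGroup.mk_surjective g
    rw [Matrix.ProjectiveSpecialLinearGroup.smul_proj_mk]
    change Subgroup.map _ _ = _
    rw [PSL.smul_submodule, SpecialLinearGroup.lineStab_smul, PSL.iwasawaT_map_conj]
  · have e : (⨆ p : Projectivization K (Fin m → K),
        SpecialLinearGroup.lineStab (F := K) (ι := Fin m) p.submodule) = ⊤ :=
      sim_ind _ fun i j h c => Subgroup.mem_iSup_of_mem
        (Projectivization.mk K (Pi.single i 1) (Pi.single_ne_zero_iff.2 one_ne_zero))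
        (SL2Gen.transvection_mem_lineStab h c)
    refine (Subgroup.map_iSup _ _).symm.trans ?_
    rw [e]
    exact Subgroup.map_top_of_surjective _ (QuotientGroup.mk'_surjective _)

end Pool.Agent.Lib.MP_1ae3da_al.WG
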