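import Pool.Agent.Lib.MP_1ae3da_al.V.LfB
import Pool.Agent.Lib.MP_1ae3da_al.V.Mul
import Pool.Agent.Lib.MP_1ae3da_al.V.Sim
import Pool.Agent.Lib.MP_1ae3da_al.V.Ch2
import Pool.Agent.Lib.MP_1ae3da_al.Z.Xm
import Pool.Agent.Lib.MP_1ae3da_al.Z.Cl3
import Pool.Agent.Lib.MP_1ae3da_al.S.Lift

/-! The linked bijection for the twisted group algebras of the projective special linear group. -/

namespace Pool.Agent.Lib.MP_1ae3da_al.WG

open Matrix CT

/-- the quotient of a central cover by the Sylow `p`-subgroup of its kernel -/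
theorem lf_cover (p : ℕ) [Fact p.Prime] {X S : Type} [Group X] [Finite X] [Group S] (π : X →* S)
    (hX : commutator X = ⊤) (hs : Function.Surjective π) (hc : π.ker ≤ Subgroup.center X) :
    ∃ (Y : Type) (_ : Group Y) (_ : Finite Y) (f : Y →* S), Function.Surjective f ∧
      commutator Y = ⊤ ∧ f.ker ≤ Subgroup.center Y ∧ ¬ p ∣ Nat.card f.ker ∧
      ∃ a, Nat.card π.ker = p ^ a * Nat.card f.ker := by
  let P : Sylow p π.ker := default
  let N : Subgroup X := (P : Subgroup π.ker).map π.ker.subtype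
  have hN : N ≤ π.ker := Subgroup.map_subtype_le _
  have : N.Normal := ⟨fun n hn g => by
    rw [Subgroup.mem_center_iff.mp (hc (hN hn)) g, mul_inv_cancel_right]; exact hn⟩
  let f : X ⧸ N →* S := QuotientGroup.lift N π hN
  have hf : ∀ x : X, f (x : X ⧸ N) = π x := fun _ => rfl
  have hk : f.ker = π.ker.map (QuotientGroup.mk' N) := by
    ext y
    obtain ⟨x, rfl⟩ := QuotientGroup.mk_surjective y
    refine ⟨fun h => ⟨x, h, rfl⟩, ?_⟩
    rintro ⟨z, hz, e⟩
    rw [← e]; exact hz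
  have hi : Nat.card f.ker = (P : Subgroup π.ker).index := by
    rw [hk, ← Subgroup.relIndex_ker, QuotientGroup.ker_mk', Subgroup.relIndex,
      Subgroup.subgroupOf, Subgroup.comap_map_eq_self_of_injective π.ker.subtype_injective]
  refine ⟨X ⧸ N, inferInstance, inferInstance, f, fun s => ?_, ?_, ?_, ?_, ?_⟩
  · obtain ⟨x, rfl⟩ := hs s
    exact ⟨x, hf x⟩
  · have e := map_commutator_eq X (QuotientGroup.mk' N)
    rw [hX, Subgroup.map_top_of_surjective _ (QuotientGroup.mk'_surjective N),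
      MonoidHom.range_eq_top.mpr (QuotientGroup.mk'_surjective N), ← commutator_def] at e
    exact e.symm
  · rw [hk]
    rintro _ ⟨z, hz, rfl⟩
    rw [Subgroup.mem_center_iff]
    intro y
    obtain ⟨y, rfl⟩ := QuotientGroup.mk'_surjective N y
    rw [← map_mul, ← map_mul, Subgroup.mem_center_iff.mp (hc hz) y]
  · rw [hi]; exact P.not_dvd_index
  · obtain ⟨a, ha⟩ := IsPGroup.iff_card.mp P.isPGroup'
    exact ⟨a, by rw [hi, ← ha, Subgroup.card_mul_index]⟩

theorem lf_center {S : Type} [Group S] [IsSimpleGroup S] (hS : commutator S = ⊤) :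
    Subgroup.center S = ⊥ := by
  refine (IsSimpleGroup.eq_bot_or_eq_top_of_normal _ inferInstance).resolve_right fun h => ?_
  have e : commutator S = ⊥ := by
    rw [eq_bot_iff, commutator_def, Subgroup.commutator_le]
    intro x _ y _
    rw [Subgroup.mem_bot, commutatorElement_eq_one_iff_mul_comm]
    exact Subgroup.mem_center_iff.mp (h ▸ Subgroup.mem_top y) x
  exact bot_ne_top (e.symm.trans hS)

theorem lf_scal {p m : ℕ} [Fact p.Prime] {K : Type} [Field K] [Finite K] (hm : 0 < m)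
    (hv : padicValNat p m.factorial < padicValNat p (Nat.card K - 1)) :
    ∃ t : K, t ≠ 0 ∧ t ^ m ≠ 1 := by
  obtain ⟨z, hz⟩ := IsCyclic.exists_ofOrder_eq_natCard (α := Kˣ)
  refine ⟨z, z.ne_zero, fun h => ?_⟩
  have h1 : z ^ m = 1 := Units.ext (by simpa using h)
  have h2 := (orderOf_dvd_of_pow_eq_one h1).trans (Nat.dvd_factorial hm le_rfl)
  rw [hz, Nat.card_units] at h2
  have h3 := (padicValNat_dvd_iff_le m.factorial_ne_zero).mp
    ((pow_padicValNat_dvd (p := p) (n := Nat.card K - 1)).trans h2)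
  omega

/-- the leaf for the projective special linear group. -/
theorem psl_leaf {p : ℕ} {F k A : Type} [Field F] [Field k] [Ring A] [Algebra F A]
    {O R : Subring F} {r : F → k} {GG : Subgroup (RingAut F)} (h : PM p O R r GG) (K : Type)
    [Field K] [Finite K] {m : ℕ} (hm : 3 ≤ m) (hK : Ok2 p m K) (S : Type) [Group S] [Finite S]
    (e : S ≃* Matrix.ProjectiveSpecialLinearGroup (Fin m) K) (Q : Sylow p S) :
    ∃ D : Subgroup S, D ≤ Q ∧ D ≠ ⊥ ∧
      (∀ γ : MulAut S, (∀ x, γ x ∈ Q ↔ x ∈ Q) → ∀ x, γ x ∈ D ↔ x ∈ D) ∧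
      ∀ u : S → A, TG F u → ML F p GG (Hm F u ⊤) (Hm F u (Subgroup.normalizer (D : Set S))) := by
  have := h.charF
  have := h.algF
  have hp : Fact p.Prime := ⟨h.prime⟩
  have hl : Fact (ringChar K).Prime := ⟨CharP.char_is_prime K _⟩
  have := Fintype.ofFinite K
  have h2 : p ≠ 2 := fun e2 => hK.1 0 (by rw [e2, pow_zero])
  let g : SpecialLinearGroup (Fin m) K →* S :=
    e.symm.toMonoidHom.comp (QuotientGroup.mk' (Subgroup.center _))
  have hg : Function.Surjective g := e.symm.surjective.comp (QuotientGroup.mk'_surjective _)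
  have hgk : g.ker ≤ Subgroup.center _ := fun x hx =>
    (QuotientGroup.eq_one_iff x).mp (e.symm.injective (hx.trans (map_one _).symm))
  obtain ⟨U, D, ⟨hpr, hDQ, hab, hst, hDU, hB, hc, hne⟩, -⟩ :=
    SLI.sl_quot2 K (m := m) (by omega) (ringChar K) p h2
      (by rw [← Nat.card_eq_fintype_card]; exact hK.2.1) S g hg hgk Q
  refine ⟨D, hDQ, fun e0 => hne ?_, hst, fun u hu => ?_⟩
  · subst e0
    exact Subgroup.normalizer_eq_top _
  have hS : commutator S = ⊤ := by
    have e1 := map_commutator_eq _ g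
    rw [sl_perf hm, Subgroup.map_top_of_surjective _ hg, MonoidHom.range_eq_top.mpr hg,
      ← commutator_def] at e1
    exact e1.symm
  have := psl_simple (K := K) hm
  have : IsSimpleGroup S := e.isSimpleGroup
  obtain ⟨X, _, _, π, hπ⟩ := exists_uce S hS
  obtain ⟨Y, _, _, f, hf, hY, hfc, h0, a, ha⟩ := lf_cover p π hπ.perf hπ.surj hπ.cent
  obtain ⟨t, t0, ht⟩ := lf_scal (by omega : 0 < m) hK.2.1
  have h1 := mul_chr hm hπ.perf π hπ.surj hπ.cent g hg hgk t0 ht (r := ringChar K)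
  have hk : f.ker = Subgroup.center Y := le_antisymm hfc fun z hz => by
    rw [MonoidHom.mem_ker, ← Subgroup.mem_bot, ← lf_center hS, Subgroup.mem_center_iff]
    intro s
    obtain ⟨y, rfl⟩ := hf s
    rw [← map_mul, ← map_mul, Subgroup.mem_center_iff.mp hz y]
  obtain ⟨R', U', D', k1, k2, k3, k4, k5, k6, k7⟩ := hyp_lift2 f hf hk h0
    (fun q => h1 (ha ▸ q.mul_left _)) Q U D hDQ hab hst hDU hB hc
  have hQ : (Q : Subgroup S) ≤ Subgroup.normalizer (D : Set S) := fun s hs =>
    Subgroup.mem_normalizer_iff.2 fun y => (hst (MulAut.conj s) (fun z =>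
      (Subgroup.mem_normalizer_iff.1 (Subgroup.le_normalizer hs) z).symm) y).symm
  refine lift_ml h.prime hπ hu f hf hY hfc h0 (fun l l1 l2 n hn => ?_) _
    (fun q => Q.not_dvd_index (q.trans (Subgroup.index_dvd_of_le hQ))) ?_
  · rw [ha] at hn
    exact (Nat.Coprime.pow n a ((Nat.coprime_primes l1 h.prime).2 l2)).dvd_of_dvd_mul_left hn
  · rw [← k7]
    exact Z.ml_core2 h h2 hl.out hpr hY lf_tg lf_mul R' U' D' k1 k2 k3 k4 k5 k6

end Pool.Agent.Lib.MP_1ae3da_al.WG
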