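import Pool.Agent.Lib.MP_1ae3da_al.V.Sub
import Pool.Agent.Lib.MP_1ae3da_al.V.Sim
import Pool.Agent.Lib.MP_1ae3da_al.C2.Bo2

/-! The class of finite groups built by extensions from groups with cyclic Sylow `p`-subgroups,
alternating groups, groups `PSL2(K)` and groups `PSLm(K)` with `Ok2 p m K`. -/

namespace Pool.Agent.Lib.MP_1ae3da_al.WG

open Function CT

/-- the four kinds of factors -/
def Bas4 (p : ℕ) (G : Type) [Group G] : Prop :=
  Bas p G ∨ ∃ (K : Type) (_ : Field K) (_ : Finite K) (m : ℕ), 3 ≤ m ∧ Ok2 p m K ∧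
    Nonempty (G ≃* Matrix.ProjectiveSpecialLinearGroup (Fin m) K)

/-- the closure under extensions -/
inductive Ser4 (p : ℕ) : (G : Type) → [Group G] → Prop
  | bas (G : Type) [Group G] (h : Bas4 p G) : Ser4 p G
  | ext (G : Type) [Group G] (N : Subgroup G) [N.Normal] (h1 : Ser4 p N) (h2 : Ser4 p (G ⧸ N)) :
      Ser4 p G

variable {p : ℕ} [Fact p.Prime]

theorem Bas4.finite {G : Type} [Group G] (h : Bas4 p G) : Finite G := by
  rcases h with h | ⟨K, _, _, m, -, -, ⟨e⟩⟩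
  · exact h.finite
  · exact Finite.of_equiv _ e.toEquiv.symm

theorem Bas4.congr {G H : Type} [Group G] [Group H] (h : Bas4 p G) (f : G ≃* H) : Bas4 p H := by
  rcases h with h | ⟨K, _, _, m, h1, h2, ⟨e⟩⟩
  · exact .inl (h.congr f)
  · exact .inr ⟨K, _, inferInstance, m, h1, h2, ⟨f.symm.trans e⟩⟩

theorem Bas4.simple {G : Type} [Group G] (h : Bas4 p G) : Bas p G ∨ IsSimpleGroup G := by
  rcases h with h | ⟨K, _, _, m, h1, -, ⟨e⟩⟩
  · exact .inl h
  · have := psl_simple (K := K) h1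
    exact .inr e.isSimpleGroup

theorem Bas4.quot (h2 : p ≠ 2) {G Q : Type} [Group G] [Group Q] (h : Bas4 p G)
    (f : G →* Q) (hf : Surjective f) : Bas4 p Q := by
  rcases h.simple with h1 | h1
  · exact .inl (h1.quot h2 f hf)
  rcases (inferInstance : f.ker.Normal).eq_bot_or_eq_top with hk | hk
  · exact h.congr (MulEquiv.ofBijective f ⟨(MonoidHom.ker_eq_bot_iff f).1 hk, hf⟩)
  · have : Subsingleton Q := ⟨fun a b => by
      obtain ⟨x, rfl⟩ := hf a
      obtain ⟨y, rfl⟩ := hf b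
      have hx : x ∈ f.ker := hk ▸ Subgroup.mem_top x
      have hy : y ∈ f.ker := hk ▸ Subgroup.mem_top y
      rw [MonoidHom.mem_ker.1 hx, MonoidHom.mem_ker.1 hy]⟩
    exact .inl (Bas.triv h2)

theorem Bas4.nrm (h2 : p ≠ 2) {G H : Type} [Group G] [Group H] (h : Bas4 p G)
    (f : H →* G) (hf : Injective f) (hN : f.range.Normal) : Bas4 p H := by
  rcases h.simple with h1 | h1
  · exact .inl (h1.nrm h2 f hf hN)
  rcases hN.eq_bot_or_eq_top with hk | hk
  · have : Subsingleton H := ⟨fun a b => hf (by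
      have ha : f a ∈ f.range := ⟨a, rfl⟩
      have hb : f b ∈ f.range := ⟨b, rfl⟩
      rw [hk, Subgroup.mem_bot] at ha hb
      rw [ha, hb])⟩
    exact .inl (Bas.triv h2)
  · exact h.congr (MulEquiv.ofBijective f ⟨hf, MonoidHom.range_eq_top.1 hk⟩).symm

theorem Ser4.finite {G : Type} [Group G] (h : Ser4 p G) : Finite G := by
  induction h with
  | bas G h => exact h.finite
  | ext G N h1 h2 i1 i2 =>
    exact Finite.of_equiv _ (Subgroup.groupEquivQuotientProdSubgroup (s := N)).symm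

theorem Ser4.quot (hp2 : p ≠ 2) {G : Type} [Group G] (h : Ser4 p G) :
    ∀ {Q : Type} [Group Q] (f : G →* Q), Surjective f → Ser4 p Q := by
  induction h with
  | bas G h => exact fun {Q} _ f hf => .bas Q (h.quot hp2 f hf)
  | ext G N h1 h2 i1 i2 =>
    intro Q _ f hf
    have : (N.map f).Normal := Subgroup.Normal.map inferInstance _ hf
    refine .ext Q (N.map f) (i1 (f.subgroupMap N) (f.subgroupMap_surjective N))
      (i2 (QuotientGroup.map N (N.map f) f (Subgroup.le_comap_map f N)) ?_)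
    intro q
    obtain ⟨q, rfl⟩ := QuotientGroup.mk_surjective q
    obtain ⟨x, rfl⟩ := hf q
    exact ⟨QuotientGroup.mk x, rfl⟩

theorem Ser4.congr (hp2 : p ≠ 2) {G H : Type} [Group G] [Group H] (h : Ser4 p G)
    (e : G ≃* H) : Ser4 p H := h.quot hp2 e.toMonoidHom e.surjective

theorem Ser4.nrm (hp2 : p ≠ 2) {G : Type} [Group G] (h : Ser4 p G) :
    ∀ {H : Type} [Group H] (f : H →* G), Injective f → f.range.Normal → Ser4 p H := by
  induction h with
  | bas G h => exact fun {H} _ f hf hN => .bas H (h.nrm hp2 f hf hN)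
  | ext G N h1 h2 i1 i2 =>
    intro H _ f hf hN
    refine .ext H ((QuotientGroup.mk' N).comp f).ker (i1 (McK.kerTo N f) (McK.kerTo_inj N hf) ?_)
      (Ser4.congr hp2 (i2 (Subgroup.subtype _) (Subgroup.subtype_injective _) ?_)
        (QuotientGroup.quotientKerEquivRange _).symm)
    · refine ⟨?_⟩
      rintro _ ⟨x, rfl⟩ g
      obtain ⟨y, hy⟩ := hN.conj_mem (f x) ⟨x, rfl⟩ g
      have hm : f y ∈ N := by
        rw [hy]; exact N.mul_mem (N.mul_mem g.2 (McK.kerTo N f x).2) (N.inv_mem g.2)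
      exact ⟨⟨y, MonoidHom.mem_ker.2 ((QuotientGroup.eq_one_iff _).2 hm)⟩, Subtype.ext hy⟩
    · rw [Subgroup.range_subtype, MonoidHom.range_comp]
      exact hN.map _ (QuotientGroup.mk'_surjective N)

theorem ser4_cl (hp2 : p ≠ 2) : Cl p (Ser4 p) where
  cls :=
    { small := fun G _ h => .bas G (.inl (.inl (CycS.small h)))
      alt := fun n => .bas _ (.inl (.inr (.inl ⟨n, ⟨MulEquiv.refl _⟩⟩)))
      iso := fun _ _ _ _ e h => h.congr hp2 e
      ext := fun G _ _ N _ h1 h2 => .ext G N h1 h2 }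
  cyc := fun G _ h => .bas G (.inl (.inl h))
  nrm := fun _ _ _ _ h => h.nrm hp2
  quot := fun _ _ _ _ h => h.quot hp2

theorem Ser4.simple {G : Type} [Group G] (h : Ser4 p G) : IsSimpleGroup G → Bas4 p G := by
  induction h with
  | bas G h => exact fun _ => h
  | ext G N h1 h2 i1 i2 =>
    intro hs
    rcases (inferInstance : N.Normal).eq_bot_or_eq_top with hk | hk
    · have e : G ≃* G ⧸ N := MulEquiv.ofBijective (QuotientGroup.mk' N)
        ⟨(MonoidHom.ker_eq_bot_iff _).1 (by rw [QuotientGroup.ker_mk', hk]),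
          QuotientGroup.mk'_surjective N⟩
      exact (i2 e.symm.isSimpleGroup).congr e.symm
    · have e : N ≃* G := MulEquiv.ofBijective N.subtype
        ⟨N.subtype_injective, fun x => ⟨⟨x, hk ▸ Subgroup.mem_top x⟩, rfl⟩⟩
      exact (i1 e.isSimpleGroup).congr e

omit [Fact p.Prime] in
theorem ser4_of {G : Type} [Group G] (h : Ser2 p G) : Ser4 p G := by
  induction h with
  | bas G h => exact .bas G (.inl h)
  | ext G N _ _ i1 i2 => exact .ext G N i1 i2

theorem ser4_clo (hp2 : p ≠ 2) : Clo p (Ser4 p) := by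
  have hC := ser4_cl hp2
  refine ⟨fun G _ h => ?_, hC.nrm, hC.quot⟩
  change Good p (Ser4 p) G
  induction h with
  | bas G h =>
    rcases h with h | ⟨K, _, _, m, h1, h2, ⟨e⟩⟩
    · exact fun H hH => ser4_of (ser2_good hp2 (.bas G h) H hH)
    · refine Good.iso hC.cls e.symm (good_psl hC K h1 h2 fun E _ _ n h3 h4 => ?_)
      have : Group.IsSolvable (Subgroup.center (Matrix.SpecialLinearGroup (Fin n) E)) :=
        Group.isSolvable_of_comm fun x y => Subtype.ext (Subgroup.mem_center_iff.1 y.2 x)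
      exact .ext _ (Subgroup.center _) (hC.cls.solv Fact.out _)
        (.bas _ (.inr ⟨E, _, inferInstance, n, h3, h4, ⟨MulEquiv.refl _⟩⟩))
  | ext G N h1 h3 i1 i2 =>
    have := (Ser4.ext G N h1 h3).finite
    exact Good.ext hC.cls N i1 i2

theorem ser4_fac (hp2 : p ≠ 2) {H : Type} [Group H] [Finite H]
    (h : (∀ Q : Sylow p H, IsCyclic (Q : Subgroup H)) ∨
      (∃ m : ℕ, Nonempty (H ≃* alternatingGroup (Fin m))) ∨
      ∃ (K : Type) (_ : Field K) (_ : Finite K) (m : ℕ), (m = 2 ∨ 3 ≤ m ∧ Ok2 p m K) ∧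
        Nonempty (H ≃* Matrix.ProjectiveSpecialLinearGroup (Fin m) K)) : Ser4 p H := by
  refine .bas _ ?_
  rcases h with h3 | h3 | ⟨K, _, _, m, rfl | ⟨h1, h2⟩, ⟨e⟩⟩
  · exact .inl (.inl ⟨inferInstance, h3⟩)
  · exact .inl (.inr (.inl h3))
  · exact .inl (Bas.psl hp2 K e)
  · exact .inr ⟨K, _, inferInstance, m, h1, h2, ⟨e⟩⟩

theorem ser4_chain (hp2 : p ≠ 2) {G : Type} [Group G] [Finite G] (n : ℕ)
    (s : ℕ → Subgroup G) (h0 : Ser4 p (s 0)) (hn : s n = ⊤)
    (h : ∀ i < n, s i ≤ s (i + 1) ∧ ∃ (H : Type) (_ : Group H) (f : s (i + 1) →* H),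
      Surjective f ∧ f.ker = (s i).subgroupOf (s (i + 1)) ∧
      ((∀ Q : Sylow p H, IsCyclic (Q : Subgroup H)) ∨
        (∃ m : ℕ, Nonempty (H ≃* alternatingGroup (Fin m))) ∨
        ∃ (K : Type) (_ : Field K) (_ : Finite K) (m : ℕ), (m = 2 ∨ 3 ≤ m ∧ Ok2 p m K) ∧
          Nonempty (H ≃* Matrix.ProjectiveSpecialLinearGroup (Fin m) K))) : Ser4 p G := by
  have h1 := cls_up (ser4_cl hp2).cls n s (fun i hi => by
    obtain ⟨h1, H, _, f, hf, hk, h3⟩ := h i hi
    have := Finite.of_surjective f hf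
    exact ⟨h1, H, _, f, hf, hk, ser4_fac hp2 h3⟩) h0
  rw [hn] at h1
  exact h1.congr hp2 Subgroup.topEquiv

end Pool.Agent.Lib.MP_1ae3da_al.WG
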