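import Pool.Agent.Lib.MP_1ae3da_al.V.Main3
import Pool.Agent.Lib.MP_1ae3da_al.V.Ser
import Pool.Agent.Lib.MP_1ae3da_al.V.Lf

/-! The induction closes for the class `Ser4 p`. -/

namespace Pool.Agent.Lib.MP_1ae3da_al.WG

open Function Pool.Agent.Lib.McK CT

variable {p : ℕ} {F : Type} [Field F] {GG : Subgroup (RingAut F)}

theorem ih4 {k A : Type} [Field k] [Ring A] [Algebra F A] {O R : Subring F} {r : F → k}
    (h : PM p O R r GG) (hp2 : p ≠ 2) (j : NSV.Qbar →+* F)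
    (hj : ∀ σ ∈ GG, ∃ s ∈ NSV.H p, ∀ x, σ (j x) = j (s x)) (n : ℕ) :
    IH2 F A p GG (Ser4 p) n := by
  have : Fact p.Prime := ⟨h.prime⟩
  have := h.charF
  have := h.algF
  refine main3_ind (ser4_clo hp2) (fun G _ _ u hu L E _ a b c => b1 h hu L E a b c)
    (fun G I _ _ _ _ u hu S M a b c d e Γ f g i => b2 h.prime hu S M a b c d e Γ f g i) ?_ n
  intro S _ _ h1 h2 h3 h4 Q
  rcases h4.simple h1 with h5 | ⟨K, _, _, m, h5, h6, ⟨e⟩⟩
  · exact InS2.sel rtc_ok (comp2 h hp2 j hj) S h1 h2 h3 (.bas S h5) Q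
  · exact psl_leaf h K h5 h6 S e Q

theorem ChainW.ser [Fact p.Prime] (hp2 : p ≠ 2) {G : Type} [Group G] [Finite G]
    {A B : Subgroup G} (h : ChainW p A B) :
    ∃ (n : ℕ) (s : ℕ → Subgroup G), s 0 = A ∧ s n = B ∧
      ∀ i < n, s i ≤ s (i + 1) ∧ ∃ (H : Type) (_ : Group H) (f : s (i + 1) →* H),
        Surjective f ∧ f.ker = (s i).subgroupOf (s (i + 1)) ∧ Ser4 p H := by
  obtain ⟨n, s, h0, hn, h⟩ := h
  refine ⟨n, s, h0, hn, fun i hi => ?_⟩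
  obtain ⟨h1, H, _, f, hf, hk, h3⟩ := h i hi
  have := Finite.of_surjective f hf
  exact ⟨h1, H, _, f, hf, hk, ser4_fac hp2 h3⟩

end Pool.Agent.Lib.MP_1ae3da_al.WG
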