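import Pool.Agent.Lib.MP_1ae3da_al.V.Df

/-! Elementary computations with transvections and homologies. -/

namespace Pool.Agent.Lib.MP_1ae3da_al.WG

open Matrix

variable {ι K : Type} [Fintype ι] [DecidableEq ι] [Field K] {H : Subgroup (GL ι K)}
  {a b m : Matrix ι ι K} {v w φ ψ : ι → K} {s : K} {i : ι}

theorem In.one : In H 1 := ⟨1, H.one_mem, rfl⟩

theorem In.mul (ha : In H a) (hb : In H b) : In H (a * b) := by
  obtain ⟨g, hg, rfl⟩ := ha
  obtain ⟨g', hg', rfl⟩ := hb
  exact ⟨g * g', H.mul_mem hg hg', rfl⟩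

theorem In.inv (ha : In H a) (h : a * b = 1) : In H b := by
  obtain ⟨g, hg, rfl⟩ := ha
  exact ⟨g⁻¹, H.inv_mem hg, Units.inv_eq_of_mul_eq_one_right h⟩

theorem In.mono {H' : Subgroup (GL ι K)} (h : H ≤ H') (ha : In H a) : In H' a := by
  obtain ⟨g, hg, e⟩ := ha
  exact ⟨g, h hg, e⟩

theorem In.coe {g : GL ι K} : In H (g : Matrix ι ι K) ↔ g ∈ H :=
  ⟨fun ⟨_, hg, e⟩ => Units.ext e ▸ hg, fun h => ⟨g, h, rfl⟩⟩

theorem mr_le : Mr H ≤ H := by
  refine (Subgroup.closure_le _).2 ?_
  rintro g ⟨i, j, -, c, hc, e⟩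
  exact In.coe.1 (e ▸ hc)

theorem In.rt {j : ι} {c : K} (hij : i ≠ j) (h : In H (rt i j c)) : In (Mr H) (rt i j c) := by
  obtain ⟨g, hg, e⟩ := h
  exact ⟨g, Subgroup.subset_closure ⟨i, j, hij, c, ⟨g, hg, e⟩, e⟩, e⟩

theorem tv_mul : tv v φ * tv w ψ = tv v φ + vecMulVec w ψ + (φ ⬝ᵥ w) • vecMulVec v ψ := by
  unfold tv
  rw [mul_add, mul_one, add_mul, one_mul, vecMulVec_mul_vecMulVec, vecMulVec_smul, add_assoc]
  abel

theorem tv_add (h : φ ⬝ᵥ w = 0) : tv v φ * tv w φ = tv (v + w) φ := by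
  rw [tv_mul, h, zero_smul, add_zero, tv, tv, add_vecMulVec, add_assoc]

theorem tv_add' (h : φ ⬝ᵥ v = 0) : tv v φ * tv v ψ = tv v (φ + ψ) := by
  rw [tv_mul, h, zero_smul, add_zero, tv, tv, vecMulVec_add, add_assoc]

theorem tv_smul (c : K) : tv (c • v) φ = tv v (c • φ) := by
  rw [tv, tv, smul_vecMulVec, vecMulVec_smul]

theorem tv_mulVec : tv v φ *ᵥ w = w + (φ ⬝ᵥ w) • v := by
  rw [tv, add_mulVec, one_mulVec, vecMulVec_mulVec, op_smul_eq_smul]

theorem vecMul_tv : ψ ᵥ* tv v φ = ψ + (ψ ⬝ᵥ v) • φ := by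
  rw [tv, vecMul_add, vecMul_one, vecMul_vecMulVec]

theorem tv_conj (h : a * b = 1) : a * tv v φ * b = tv (a *ᵥ v) (φ ᵥ* b) := by
  rw [tv, tv, mul_add, mul_one, add_mul, h, mul_vecMulVec, vecMulVec_mul]

theorem hm_inv (hs : s ≠ 0) : hm s i * hm s⁻¹ i = 1 := by
  rw [hm, hm, rt, rt, tv_mul, tv, ← smul_vecMulVec, add_assoc, add_assoc, ← add_vecMulVec,
    ← add_vecMulVec, single_dotProduct, one_mul, Pi.single_eq_same, ← Pi.single_smul,
    ← Pi.single_add, ← Pi.single_add, smul_eq_mul,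
    show s - 1 + (s⁻¹ - 1 + (s⁻¹ - 1) * (s - 1)) = 0 by field_simp; ring, Pi.single_zero,
    zero_vecMulVec, add_zero]

theorem hm_mulVec : hm s i *ᵥ v = v + Pi.single i ((s - 1) * v i) := by
  rw [hm, rt, tv_mulVec, single_dotProduct, one_mul, ← Pi.single_smul, smul_eq_mul, mul_comm]

theorem vecMul_hm : φ ᵥ* hm s i = φ + Pi.single i ((s - 1) * φ i) := by
  rw [hm, rt, vecMul_tv, dotProduct_single, ← Pi.single_smul, smul_eq_mul, mul_one, mul_comm]

theorem hm_diag : hm s i = diagonal (Function.update 1 i s) := by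
  ext a b
  by_cases h1 : a = i
  · subst h1
    by_cases h2 : a = b
    · subst h2
      simp [hm, rt, tv, vecMulVec_apply]
    · simp [hm, rt, tv, vecMulVec_apply, h2, Ne.symm h2]
  · simp [hm, rt, tv, vecMulVec_apply, h1, one_apply, diagonal_apply]

theorem hm_comm {k : ι} (h1 : v k = 0) (h2 : φ k = 0) : tv v φ * hm s k = hm s k * tv v φ := by
  rw [hm, rt, tv_mul, tv_mul, dotProduct_single, single_dotProduct, h1, h2, zero_mul, mul_zero,
    zero_smul, zero_smul, tv, tv]
  abel

/-- hint: the multipliers of a finite additive group form a subfield. -/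
theorem add_stab [Finite K] (A : AddSubgroup K) (hA : ∀ c ∈ A, s * c ∈ A) {x : K}
    (hx : x ∈ Subfield.closure {s}) : ∀ c ∈ A, x * c ∈ A := by
  let R : Subring K :=
    { carrier := {x | ∀ c ∈ A, x * c ∈ A}
      mul_mem' := fun ha hb c hc => by rw [mul_assoc]; exact ha _ (hb c hc)
      one_mem' := fun c hc => by rwa [one_mul]
      add_mem' := fun ha hb c hc => by rw [add_mul]; exact A.add_mem (ha c hc) (hb c hc)
      zero_mem' := fun c _ => by rw [zero_mul]; exact A.zero_mem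
      neg_mem' := fun ha c hc => by rw [neg_mul]; exact A.neg_mem (ha c hc) }
  let E : Subfield K :=
    { R with
      inv_mem' := fun y hy => by
        rcases eq_or_ne y 0 with rfl | h0
        · rw [_root_.inv_zero]; exact R.zero_mem
        · let _ := Fintype.ofFinite K
          have h1 := FiniteField.pow_card_sub_one_eq_one y h0
          have h2 : Fintype.card K - 1 = Fintype.card K - 2 + 1 := by
            have := Fintype.one_lt_card (α := K)
            omega
          rw [h2, pow_succ] at h1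
          rw [← eq_inv_of_mul_eq_one_left h1]
          exact R.pow_mem hy _ }
  exact (Subfield.closure_le (t := E)).2 (Set.singleton_subset_iff.2 hA) hx

theorem bas_zero : tv (0 : ι → K) φ = 1 := by rw [tv, zero_vecMulVec, add_zero]

theorem bas_zero' : tv v (0 : ι → K) = 1 := by rw [tv, vecMulVec_zero, add_zero]

theorem bas_neg (h : φ ⬝ᵥ v = 0) : tv v φ * tv (-v) φ = 1 := by
  rw [tv_add (by rw [dotProduct_neg, h, neg_zero]), add_neg_cancel, bas_zero]

theorem bas_neg' (h : φ ⬝ᵥ v = 0) : tv v φ * tv v (-φ) = 1 := by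
  rw [tv_add' h, add_neg_cancel, bas_zero']

theorem bas_rt {j : ι} (c d : K) : tv (Pi.single i c) (Pi.single j d) = rt i j (c * d) := by
  have e1 : (Pi.single j d : ι → K) = d • Pi.single j 1 := by
    rw [← Pi.single_smul, smul_eq_mul, mul_one]
  rw [e1, ← tv_smul, ← Pi.single_smul, smul_eq_mul, mul_comm, rt]

theorem bas_mem : (s - 1)⁻¹ ∈ Subfield.closure {s} :=
  inv_mem (sub_mem (Subfield.subset_closure rfl) (one_mem _))

theorem In.scale [Finite K] (hs : s ≠ 0) (hi : In H (hm s i)) (hφ : φ i = 0) {c x : K}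
    (h : In H (tv (Pi.single i c) φ)) (hx : x ∈ Subfield.closure {s}) :
    In H (tv (Pi.single i (x * c)) φ) := by
  have z : ∀ d : K, φ ⬝ᵥ Pi.single i d = 0 := fun d => by rw [dotProduct_single, hφ, zero_mul]
  let A : AddSubgroup K :=
    { carrier := {c | In H (tv (Pi.single i c) φ)}
      add_mem' := fun ha hb => by
        have := In.mul ha hb
        rwa [tv_add (z _), ← Pi.single_add] at this
      zero_mem' := by
        show In H (tv (Pi.single i 0) φ)
        rw [Pi.single_zero, bas_zero]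
        exact In.one
      neg_mem' := fun ha => In.inv ha (by
        rw [tv_add (z _), ← Pi.single_add, add_neg_cancel, Pi.single_zero, bas_zero]) }
  refine add_stab (s := s) A (fun d hd => ?_) hx c h
  have := (hi.mul hd).mul (hi.inv (hm_inv hs))
  rwa [tv_conj (hm_inv hs), hm_mulVec, vecMul_hm, hφ, mul_zero, Pi.single_zero, add_zero,
    Pi.single_eq_same, ← Pi.single_add, show d + (s - 1) * d = s * d by ring] at this

/-- hint: `hm s i * tv v φ * hm s⁻¹ i * tv (-v) φ`, then `In.scale`. -/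
theorem In.split [Finite K] (hs : s ≠ 0) (hs1 : s ≠ 1) (hi : In H (hm s i)) (h0 : φ ⬝ᵥ v = 0)
    (hφ : φ i = 0) (h : In H (tv v φ)) : In H (tv (Pi.single i (v i)) φ) := by
  have h1 := ((hi.mul h).mul (hi.inv (hm_inv hs))).mul (h.inv (bas_neg h0))
  rw [tv_conj (hm_inv hs), hm_mulVec, vecMul_hm, hφ, mul_zero, Pi.single_zero, add_zero,
    tv_add (by rw [dotProduct_neg, h0, neg_zero]), add_neg_cancel_comm] at h1
  have h2 := In.scale hs hi hφ h1 bas_mem
  rwa [inv_mul_cancel_left₀ (sub_ne_zero.2 hs1)] at h2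

/-- hint: induction on the support of `φ`; conjugation by `hm s j` splits off `φ j`. -/
theorem In.col [Finite K] (hs : s ≠ 0) (hs1 : s ≠ 1) (hH : ∀ j, In H (hm s j)) (hφ : φ i = 0)
    {c : K} (h : In H (tv (Pi.single i c) φ)) : In (Mr H) (tv (Pi.single i c) φ) := by
  suffices k : ∀ (S : Finset ι) (φ : ι → K), (∀ j, j ∉ S → φ j = 0) → φ i = 0 →
      In H (tv (Pi.single i c) φ) → In (Mr H) (tv (Pi.single i c) φ) from
    k Finset.univ φ (fun j hj => absurd (Finset.mem_univ j) hj) hφ h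
  have z : ∀ ψ : ι → K, ψ i = 0 → ψ ⬝ᵥ Pi.single i c = 0 := fun ψ e => by
    rw [dotProduct_single, e, zero_mul]
  intro S
  induction S using Finset.induction_on with
  | empty =>
    intro φ h0 _ _
    rw [show φ = 0 from funext fun j => h0 j (Finset.notMem_empty j), bas_zero']
    exact In.one
  | insert j S _ ih =>
    intro φ h0 hφ h
    by_cases hj : i = j
    · refine ih φ (fun k hk => ?_) hφ h
      by_cases e : k = i
      · rw [e, hφ]
      · exact h0 k (by rw [Finset.mem_insert, ← hj]; exact fun o => o.elim e hk)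
    have inv : hm s⁻¹ j * hm s j = 1 := by simpa using hm_inv (i := j) (inv_ne_zero hs)
    have sj : ∀ d : K, (Pi.single j d : ι → K) i = 0 := fun d => by simp [hj]
    have h1 := ((((hH j).inv (hm_inv hs)).mul h).mul (hH j)).mul (h.inv (bas_neg' (z φ hφ)))
    rw [tv_conj inv, hm_mulVec, vecMul_hm, Pi.single_eq_of_ne' hj, mul_zero, Pi.single_zero,
      add_zero, tv_add' (z _ (by rw [Pi.add_apply, hφ, sj, add_zero])), add_neg_cancel_comm,
      bas_rt] at h1
    have h2 : In H (WG.rt i j _) := In.scale hs (hH i) (sj 1) h1 bas_mem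
    rw [show (s - 1)⁻¹ * (c * ((s - 1) * φ j)) = c * φ j by
      have := sub_ne_zero.2 hs1
      field_simp] at h2
    have h3 := In.rt hj h2
    rw [← bas_rt] at h2 h3
    have h4 := h.mul (h2.inv (bas_neg' (z _ (sj _))))
    rw [tv_add' (z φ hφ)] at h4
    have e0 : (φ + -Pi.single j (φ j) : ι → K) i = 0 := by
      rw [Pi.add_apply, Pi.neg_apply, hφ, sj, neg_zero, add_zero]
    have h5 := (ih _ (fun k hk => ?_) e0 h4).mul h3
    · rwa [tv_add' (z _ e0), neg_add_cancel_right] at h5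
    · by_cases e : k = j
      · rw [e, Pi.add_apply, Pi.neg_apply, Pi.single_eq_same, add_neg_cancel]
      · rw [Pi.add_apply, Pi.neg_apply, Pi.single_eq_of_ne e, neg_zero, add_zero]
        exact h0 k (by rw [Finset.mem_insert]; exact fun o => o.elim e hk)

end Pool.Agent.Lib.MP_1ae3da_al.WG
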