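import Pool.Agent.Lib.MP_1ae3da_al.V.Df

/-! Block triangular matrices for a preorder on the indices. -/

namespace Pool.Agent.Lib.MP_1ae3da_al.WG

open Matrix

variable {ι K : Type} [Fintype ι] [DecidableEq ι] [Field K]

omit [Fintype ι] in
theorem blk1_apply (i j a b : ι) (c : K) :
    rt i j c a b = (if a = b then 1 else 0) + if a = i ∧ b = j then c else 0 := by
  simp only [rt, tv, Matrix.add_apply, Matrix.one_apply, vecMulVec_apply, Pi.single_apply]
  by_cases h1 : a = i <;> by_cases h2 : b = j <;> simp [h1, h2]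

theorem blk1_det {i j : ι} (h : i ≠ j) (c : K) : (rt i j c).det = 1 := by
  have : rt i j c = transvection i j c := by
    ext a b
    rw [blk1_apply]
    simp only [transvection, Matrix.add_apply, Matrix.one_apply, Matrix.single_apply, eq_comm]
  rw [this, det_transvection_of_ne _ _ h]

theorem blk1_unit {i j : ι} (h : i ≠ j) (c : K) : ∃ g : GL ι K, (g : Matrix ι ι K) = rt i j c :=
  ⟨GeneralLinearGroup.mkOfDetNeZero (rt i j c) (by rw [blk1_det h]; exact one_ne_zero), rfl⟩

theorem blk1_sl (A : ι → ι → Set K) {g : GL ι K} (hg : g ∈ Rg A) : (g : Matrix ι ι K).det = 1 := by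
  have : Rg A ≤ (GeneralLinearGroup.det : GL ι K →* Kˣ).ker := by
    refine (Subgroup.closure_le _).2 ?_
    rintro g ⟨i, j, hij, c, -, hg⟩
    refine Units.ext ?_
    rw [GeneralLinearGroup.val_det_apply, hg, blk1_det hij, Units.val_one]
  have h := congrArg Units.val (MonoidHom.mem_ker.1 (this hg))
  rwa [GeneralLinearGroup.val_det_apply, Units.val_one] at h

/-- a preorder -/
structure BlkP (R : ι → ι → Prop) : Prop where
  refl : ∀ i, R i i
  trans : ∀ i j k, R i j → R j k → R i k

variable {R : ι → ι → Prop}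

omit [DecidableEq ι] in
theorem blk1_ex {a b : Matrix ι ι K} {i k : ι} (h : (a * b) i k ≠ 0) :
    ∃ j, a i j ≠ 0 ∧ b j k ≠ 0 := by
  rw [Matrix.mul_apply] at h
  obtain ⟨j, -, hj⟩ := Finset.exists_ne_zero_of_sum_ne_zero h
  exact ⟨j, mul_ne_zero_iff.1 hj⟩

/-- the monoid of the invertible matrices supported on `R` -/
def blkMon (K : Type) [Field K] (hR : BlkP R) : Submonoid (GL ι K) where
  carrier := {g | ∀ i j, (g : Matrix ι ι K) i j ≠ 0 → R i j}
  one_mem' := by
    intro i j h
    by_cases hij : i = j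
    · exact hij ▸ hR.refl i
    · exact absurd (one_apply_ne hij) h
  mul_mem' := by
    intro a b ha hb i k h
    obtain ⟨j, h1, h2⟩ := blk1_ex h
    exact hR.trans i j k (ha i j h1) (hb j k h2)

/-- the group of the invertible matrices supported on `R` -/
def blkTri (K : Type) [Field K] [Finite K] (hR : BlkP R) : Subgroup (GL ι K) where
  toSubmonoid := blkMon K hR
  inv_mem' := by
    intro g hg
    have h1 : g⁻¹ ∈ Submonoid.powers g :=
      mem_powers_iff_mem_zpowers.2 (Subgroup.inv_mem _ (Subgroup.mem_zpowers g))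
    exact (Submonoid.powers_le.2 hg : Submonoid.powers g ≤ blkMon K hR) h1

/-- the class of `i` -/
abbrev blkCl (R : ι → ι → Prop) (i : ι) : Type := {j // R i j ∧ R j i}

variable [Finite K] [DecidableRel R]

/-- restriction to a class -/
def blkRes0 (K : Type) [Field K] [Finite K] (hR : BlkP R) (i : ι) :
    blkTri K hR →* Matrix (blkCl R i) (blkCl R i) K where
  toFun g := ((g : GL ι K) : Matrix ι ι K).submatrix Subtype.val Subtype.val
  map_one' := by
    ext a b
    simp only [OneMemClass.coe_one, Units.val_one, submatrix_apply, Matrix.one_apply, Subtype.ext_iff]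
  map_mul' g h := by
    ext a b
    simp only [Subgroup.coe_mul, Units.val_mul, submatrix_apply, Matrix.mul_apply]
    rw [← Finset.sum_subtype (Finset.univ.filter fun j => R i j ∧ R j i) (by simp)
      fun j => ((g : GL ι K) : Matrix ι ι K) a j * ((h : GL ι K) : Matrix ι ι K) j b]
    refine (Finset.sum_filter_of_ne fun j _ hj => ?_).symm
    obtain ⟨h1, h2⟩ := mul_ne_zero_iff.1 hj
    exact ⟨hR.trans _ _ _ a.2.1 (g.2 _ _ h1), hR.trans _ _ _ (h.2 _ _ h2) b.2.2⟩

/-- restriction to a class -/
def blkRes (K : Type) [Field K] [Finite K] (hR : BlkP R) (i : ι) :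
    blkTri K hR →* GL (blkCl R i) K := (blkRes0 K hR i).toHomUnits

theorem blk1_res (hR : BlkP R) (i : ι) (g : blkTri K hR) (a b : blkCl R i) :
    (blkRes K hR i g : Matrix (blkCl R i) (blkCl R i) K) a b =
      ((g : GL ι K) : Matrix ι ι K) a b := rfl

theorem blk1_range (hR : BlkP R) (A : ι → ι → Set K) (hle : Rg A ≤ blkTri K hR) (i : ι) :
    ((blkRes K hR i).comp (Subgroup.inclusion hle)).range =
      Rg fun a b : blkCl R i => A a b := by
  apply le_antisymm
  · rintro _ ⟨⟨g, hg⟩, rfl⟩
    induction hg using Subgroup.closure_induction with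
    | mem g hg =>
      obtain ⟨j, k, hjk, c, hc, hg⟩ := hg
      by_cases h : (R i j ∧ R j i) ∧ R i k ∧ R k i
      · refine Subgroup.subset_closure ⟨⟨j, h.1⟩, ⟨k, h.2⟩, fun e => hjk (congrArg Subtype.val e),
          c, hc, ?_⟩
        ext a b
        rw [MonoidHom.comp_apply, blk1_res, blk1_apply]
        change (g : Matrix ι ι K) a b = _
        rw [hg, blk1_apply]
        simp only [Subtype.ext_iff]
      · convert Subgroup.one_mem _
        refine Units.ext ?_
        ext a b
        rw [MonoidHom.comp_apply, blk1_res]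
        change (g : Matrix ι ι K) a b = _
        have h' : ¬ ((a : ι) = j ∧ (b : ι) = k) := fun e => h ⟨e.1 ▸ a.2, e.2 ▸ b.2⟩
        rw [hg, blk1_apply, if_neg h', add_zero]
        simp only [Units.val_one, Matrix.one_apply, Subtype.ext_iff]
    | one => exact (map_one ((blkRes K hR i).comp (Subgroup.inclusion hle))) ▸ Subgroup.one_mem _
    | mul x y hx hy h1 h2 =>
      exact (map_mul ((blkRes K hR i).comp (Subgroup.inclusion hle)) ⟨x, hx⟩ ⟨y, hy⟩) ▸
        Subgroup.mul_mem _ h1 h2
    | inv x hx h1 =>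
      exact (map_inv ((blkRes K hR i).comp (Subgroup.inclusion hle)) ⟨x, hx⟩) ▸
        Subgroup.inv_mem _ h1
  · refine (Subgroup.closure_le _).2 ?_
    rintro g ⟨j, k, hjk, c, hc, hg⟩
    have hjk' : (j : ι) ≠ k := fun e => hjk (Subtype.ext e)
    obtain ⟨u, hu⟩ := blk1_unit hjk' c
    refine ⟨⟨u, Subgroup.subset_closure ⟨j, k, hjk', c, hc, hu⟩⟩, Units.ext ?_⟩
    ext a b
    rw [MonoidHom.comp_apply, blk1_res, hg, blk1_apply]
    change (u : Matrix ι ι K) a b = _
    rw [hu, blk1_apply]
    simp only [Subtype.ext_iff]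

omit [Finite K] in
theorem blk1_nil (hR : BlkP R) {N : Matrix ι ι K} (hN : ∀ i j, N i j ≠ 0 → R i j ∧ ¬ R j i) :
    N ^ (Fintype.card ι + 1) = 0 := by
  have key : ∀ m i j, (N ^ m) i j ≠ 0 →
      (Finset.univ.filter fun k => R j k).card + m ≤ (Finset.univ.filter fun k => R i k).card := by
    intro m
    induction m with
    | zero =>
      intro i j h
      by_cases hij : i = j
      · rw [hij, Nat.add_zero]
      · rw [pow_zero] at h
        exact absurd (one_apply_ne hij) h
    | succ m ih =>
      intro i j h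
      rw [pow_succ] at h
      obtain ⟨l, h1, h2⟩ := blk1_ex h
      have h3 := ih i l h1
      obtain ⟨h4, h5⟩ := hN l j h2
      have h6 : (Finset.univ.filter fun k => R j k) ⊂ Finset.univ.filter fun k => R l k := by
        refine ⟨fun k hk => ?_, fun hs => h5 ?_⟩
        · simp only [Finset.mem_filter, Finset.mem_univ, true_and] at hk ⊢
          exact hR.trans _ _ _ h4 hk
        · have := hs (Finset.mem_filter.2 ⟨Finset.mem_univ l, hR.refl l⟩)
          exact (Finset.mem_filter.1 this).2
      have := Finset.card_lt_card h6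
      omega
  ext i j
  by_contra h
  have h1 := key _ i j h
  have h2 : (Finset.univ.filter fun k => R i k).card ≤ Fintype.card ι := Finset.card_le_univ _
  omega

theorem blk1_ker (hR : BlkP R) {p : ℕ} (hp : p.Prime) (hK : ¬ CharP K p) (g : blkTri K hR)
    (h : ∀ i, blkRes K hR i g = 1) : orderOf (g : GL ι K) ≠ p := by
  intro ho
  obtain ⟨r, hr⟩ := CharP.exists K
  have : Fact r.Prime := ⟨CharP.char_is_prime K r⟩
  have hN : ∀ i j, (((g : GL ι K) : Matrix ι ι K) - 1) i j ≠ 0 → R i j ∧ ¬ R j i := by
    intro i j hij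
    have h1 : ¬ (R i j ∧ R j i) := by
      intro h2
      have h3 := blk1_res hR i g ⟨i, hR.refl i, hR.refl i⟩ ⟨j, h2⟩
      rw [h i] at h3
      refine hij ?_
      rw [Matrix.sub_apply, ← h3]
      simp only [Units.val_one, Matrix.one_apply, Subtype.ext_iff, sub_self]
    have h2 : R i j := by
      by_cases e : i = j
      · exact e ▸ hR.refl i
      · rw [Matrix.sub_apply, one_apply_ne e, sub_zero] at hij
        exact g.2 i j hij
    exact ⟨h2, fun h3 => h1 ⟨h2, h3⟩⟩
  have h1 := blk1_nil hR hN
  have h2 : (g : GL ι K) ^ r ^ (Fintype.card ι + 1) = 1 := by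
    refine Units.ext ?_
    cases isEmpty_or_nonempty ι with
    | inl _ => exact Subsingleton.elim _ _
    | inr _ =>
      have h3 := add_pow_char_pow_of_commute r (Fintype.card ι + 1)
        (Commute.one_left (((g : GL ι K) : Matrix ι ι K) - 1))
      rw [add_sub_cancel, one_pow, pow_eq_zero_of_le
        (Nat.lt_pow_self (Fact.out : r.Prime).one_lt).le h1, add_zero] at h3
      rw [Units.val_pow_eq_pow_val, h3, Units.val_one]
  have h3 := orderOf_dvd_of_pow_eq_one h2
  rw [ho] at h3
  exact hK (by rwa [(Nat.prime_dvd_prime_iff_eq hp Fact.out).1 (hp.dvd_of_dvd_pow h3)])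

end Pool.Agent.Lib.MP_1ae3da_al.WG
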