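import Pool.Agent.Lib.MP_1ae3da_al.V.Fld
import Pool.Agent.Lib.MP_1ae3da_al.V.Blk1
import Pool.Agent.Lib.MP_1ae3da_al.C2.Ser

/-! The group generated by a closed system of root subgroups. -/

namespace Pool.Agent.Lib.MP_1ae3da_al.WG

open Matrix CT

/-- the closure properties used below -/
structure Cl (p : ℕ) (C : ∀ (G : Type) [Group G], Prop) : Prop where
  cls : Cls p C
  cyc : ∀ (G : Type) [Group G], CycS p G → C G
  nrm : ∀ (G H : Type) [Group G] [Group H], C G → ∀ f : H →* G, Function.Injective f →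
    f.range.Normal → C H
  quot : ∀ (G Q : Type) [Group G] [Group Q], C G → ∀ f : G →* Q, Function.Surjective f → C Q

variable {p : ℕ} {C : ∀ (G : Type) [Group G], Prop}

theorem blk_step (hC : Cl p C) {G T : Type} [Group G] [Finite G] [Group T] (f : G →* T)
    (h1 : C f.range) (N : Subgroup G) [N.Normal] (h2 : C (f.ker ⊓ N : Subgroup G)) : C N := by
  refine hC.cls.hom (f.rangeRestrict.comp N.subtype) ?_ ?_
  · have e : (f.rangeRestrict.comp N.subtype).ker = (f.ker ⊓ N).subgroupOf N := by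
      ext x
      simp [Subgroup.mem_subgroupOf, Subtype.ext_iff]
    rw [e]
    exact hC.cls.iso _ _ (Subgroup.subgroupOfEquivOfLe inf_le_right).symm h2
  · refine hC.nrm _ _ h1 (Subgroup.subtype _) Subtype.val_injective ?_
    rw [Subgroup.range_subtype, MonoidHom.range_comp, Subgroup.range_subtype]
    exact Subgroup.Normal.map inferInstance _ f.rangeRestrict_surjective

/-- hint: induction on a finite set of indices, for all `N` normal in `G` at once or through
`ker (f i)`. -/
theorem Cl.subdirect (hC : Cl p C) {G I : Type} [Group G] [Finite G] [Finite I] {T : I → Type}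
    [∀ i, Group (T i)] (f : ∀ i, G →* T i) (h1 : ∀ i, C (f i).range)
    (h2 : C (⨅ i, (f i).ker : Subgroup G)) : C G := by
  classical
  have key : ∀ s : Finset I, C (⨅ i ∈ s, (f i).ker : Subgroup G) → C G := by
    intro s
    induction s using Finset.induction_on with
    | empty =>
      intro h
      have e : (⨅ i ∈ (∅ : Finset I), (f i).ker : Subgroup G) = ⊤ := by simp
      rw [e] at h
      exact hC.cls.iso _ _ Subgroup.topEquiv h
    | insert j s _ ih =>
      intro h
      rw [Finset.iInf_insert] at h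
      have : (⨅ i ∈ s, (f i).ker : Subgroup G).Normal :=
        Subgroup.normal_iInf_normal fun _ => Subgroup.normal_iInf_normal fun _ => inferInstance
      exact ih (blk_step hC (f j) (h1 j) _ h)
  have := Fintype.ofFinite I
  refine key Finset.univ ?_
  have e : (⨅ i ∈ (Finset.univ : Finset I), (f i).ker : Subgroup G) = ⨅ i, (f i).ker := by simp
  rwa [e]

variable {ι K : Type} [Fintype ι] [DecidableEq ι] [Field K] [Finite K]

theorem blk_two [Fact p.Prime] (hp2 : p ≠ 2) (hK : ¬ CharP K p) (A : ι → ι → Set K)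
    (h : Fintype.card ι = 2) : CycS p (Rg A) := by
  obtain ⟨a, ha⟩ := psl_cyc Fact.out hp2 K hK
  let e : ι ≃ Fin 2 := Fintype.equivFinOfCardEq h
  let f : Rg A →* SpecialLinearGroup (Fin 2) K :=
    { toFun := fun g => ⟨reindex e e ((g : GL ι K) : Matrix ι ι K), by
        rw [det_reindex_self, blk1_sl A g.2]⟩
      map_one' := Subtype.ext (by simp)
      map_mul' := fun x y => Subtype.ext (by simp [submatrix_mul_equiv]) }
  refine (CycS.of_zpowers a ha).inj f fun x y hxy => ?_
  exact Subtype.ext (Units.ext ((reindex e e).injective (congrArg Subtype.val hxy)))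

theorem blk_full [hp : Fact p.Prime] (hC : Cl p C) (hp2 : p ≠ 2) (hK : ¬ CharP K p)
    (A : ι → ι → AddSubgroup K) (h0 : ∀ i j, i ≠ j → A i j ≠ ⊥)
    (hmul : ∀ i j k, i ≠ j → j ≠ k → i ≠ k → ∀ a ∈ A i j, ∀ b ∈ A j k, a * b ∈ A i k) {t : K}
    (ht : ∀ i j, i ≠ j → ∀ c ∈ A i j, t * c ∈ A i j)
    (hsl : ∀ (E : Subfield K) (m : ℕ), t ∈ E → 3 ≤ m → m ≤ Fintype.card ι →
      C (SpecialLinearGroup (Fin m) E)) : C (Rg fun i j => (A i j : Set K)) := by
  by_cases h3 : 3 ≤ Fintype.card ι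
  · obtain ⟨E, hE, ⟨e⟩⟩ := fld h3 A h0 hmul ht
    exact hC.cls.iso _ _ e.symm (hsl E _ hE h3 le_rfl)
  by_cases h2 : Fintype.card ι = 2
  · exact hC.cyc _ (blk_two hp2 hK _ h2)
  have : Subsingleton ι := Fintype.card_le_one_iff_subsingleton.1 (by omega)
  have e : (Rg fun i j => (A i j : Set K)) = ⊥ := by
    refine (Subgroup.closure_eq_bot_iff).2 ?_
    rintro g ⟨i, j, hij, -⟩
    exact absurd (Subsingleton.elim i j) hij
  refine hC.cls.small _ fun h => ?_
  rw [e, Subgroup.card_bot, Nat.dvd_one, Nat.pow_eq_one] at h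
  have := hp.out.two_le
  omega

/-- hint: page W4. `i ≤ j` iff `i = j` or `A i j ≠ ⊥`; elements of `Rg A` vanish at `(i, j)` unless
`i ≤ j`; restriction to a class `{j // i ≤ j ∧ j ≤ i}` is a hom; the common kernel is unipotent;
`psl_cyc`, `CycS.of_zpowers`, `CycS.inj` for classes of size two, `fld` for larger ones. -/
theorem blk [Fact p.Prime] (hC : Cl p C) (hp2 : p ≠ 2) (hK : ¬ CharP K p)
    (A : ι → ι → AddSubgroup K)
    (hmul : ∀ i j k, i ≠ j → j ≠ k → i ≠ k → ∀ a ∈ A i j, ∀ b ∈ A j k, a * b ∈ A i k) {t : K}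
    (ht : ∀ i j, i ≠ j → ∀ c ∈ A i j, t * c ∈ A i j)
    (hsl : ∀ (E : Subfield K) (m : ℕ), t ∈ E → 3 ≤ m → m ≤ Fintype.card ι →
      C (SpecialLinearGroup (Fin m) E)) : C (Rg fun i j => (A i j : Set K)) := by
  classical
  have hR : BlkP fun i j => i = j ∨ A i j ≠ ⊥ := by
    refine ⟨fun _ => Or.inl rfl, fun i j k h1 h2 => ?_⟩
    by_cases e1 : i = j
    · exact e1 ▸ h2
    by_cases e2 : j = k
    · exact e2 ▸ h1
    by_cases e3 : i = k
    · exact Or.inl e3
    obtain ⟨⟨a, ha⟩, ha0⟩ := AddSubgroup.ne_bot_iff_exists_ne_zero.1 (h1.resolve_left e1)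
    obtain ⟨⟨b, hb⟩, hb0⟩ := AddSubgroup.ne_bot_iff_exists_ne_zero.1 (h2.resolve_left e2)
    refine Or.inr (AddSubgroup.ne_bot_iff_exists_ne_zero.2
      ⟨⟨a * b, hmul i j k e1 e2 e3 a ha b hb⟩, fun h => ?_⟩)
    rcases mul_eq_zero.1 (congrArg Subtype.val h) with h | h
    · exact ha0 (Subtype.ext h)
    · exact hb0 (Subtype.ext h)
  have hle : (Rg fun i j => (A i j : Set K)) ≤ blkTri K hR := by
    refine (Subgroup.closure_le _).2 ?_
    rintro g ⟨i, j, -, c, hc, hg⟩ a b hab
    by_cases e : a = b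
    · exact Or.inl e
    rw [hg, blk1_apply, if_neg e, zero_add] at hab
    split_ifs at hab with h
    · rw [h.1, h.2]
      exact Or.inr (AddSubgroup.ne_bot_iff_exists_ne_zero.2
        ⟨⟨c, hc⟩, fun h => hab (congrArg Subtype.val h)⟩)
    · exact absurd rfl hab
  refine hC.subdirect (fun i => (blkRes K hR i).comp (Subgroup.inclusion hle)) (fun i => ?_) ?_
  · rw [blk1_range hR _ hle i]
    have hne : ∀ a b : blkCl (fun i j => i = j ∨ A i j ≠ ⊥) i, a ≠ b → (a : ι) ≠ b :=
      fun a b h e => h (Subtype.ext e)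
    exact blk_full hC hp2 hK (fun a b : blkCl (fun i j => i = j ∨ A i j ≠ ⊥) i => A a b)
      (fun a b h => (hR.trans _ _ _ a.2.2 b.2.1).resolve_left (hne a b h))
      (fun a b c h1 h2 h3 => hmul a b c (hne _ _ h1) (hne _ _ h2) (hne _ _ h3))
      (fun a b h => ht a b (hne _ _ h))
      fun E m h1 h2 h3 => hsl E m h1 h2 (h3.trans (Fintype.card_subtype_le _))
  · refine hC.cls.small _ fun h => ?_
    obtain ⟨x, hx⟩ := exists_prime_orderOf_dvd_card' p ((dvd_pow_self p two_ne_zero).trans h)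
    refine blk1_ker hR Fact.out hK (Subgroup.inclusion hle x)
      (fun i => Subgroup.mem_iInf.1 x.2 i) ?_
    rw [← hx, ← Subgroup.orderOf_coe x, ← Subgroup.orderOf_coe x.1]
    rfl

end Pool.Agent.Lib.MP_1ae3da_al.WG
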