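import Mathlib

/-! The series in the statement. -/

namespace Pool.Agent.Lib.MP_1ae3da_al.WG

/-- There is a subnormal series from `A` to `B` each of whose factors has cyclic Sylow
`p`-subgroups, or is an alternating group, or is `PSL_m(K)` for a finite field `K` where either
`m = 2`, or `m ≥ 3`, `p` divides no number `r ^ k + 1` for `r` the characteristic of `K`,
`2 v_p(m!) < v_p(|K| - 1)` and `7 ≤ p ^ v_p(|K| - 1)`. -/
def ChainL (p : ℕ) {G : Type} [Group G] (A B : Subgroup G) : Prop :=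
  ∃ (n : ℕ) (s : ℕ → Subgroup G), s 0 = A ∧ s n = B ∧
    ∀ i < n, s i ≤ s (i + 1) ∧ ∃ (H : Type) (_ : Group H) (φ : s (i + 1) →* H),
      Function.Surjective φ ∧ φ.ker = (s i).subgroupOf (s (i + 1)) ∧
      ((∀ Q : Sylow p H, IsCyclic (Q : Subgroup H)) ∨
        (∃ m : ℕ, Nonempty (H ≃* alternatingGroup (Fin m))) ∨
        ∃ (K : Type) (_ : Field K) (_ : Finite K) (m : ℕ),
          (m = 2 ∨ 3 ≤ m ∧ (∀ k, ¬ p ∣ ringChar K ^ k + 1) ∧
            2 * padicValNat p m.factorial < padicValNat p (Nat.card K - 1) ∧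
            7 ≤ p ^ padicValNat p (Nat.card K - 1)) ∧
          Nonempty (H ≃* Matrix.ProjectiveSpecialLinearGroup (Fin m) K))

end Pool.Agent.Lib.MP_1ae3da_al.WG
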