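import Pool.Agent.Lib.MP_1ae3da_al.V.CntA

/-! The fixed point count: the conclusion. -/

namespace Pool.Agent.Lib.MP_1ae3da_al.WG

open MulAction

variable {r : ℕ} {G X : Type} [Group G] [Finite G] [MulAction G X] {Q : X → Subgroup G}

/-- the arithmetic of one wild and one tame orbit; `q = t + 3`, `N = 1 + k q` -/
theorem cnt_ar {t m k e : ℕ} (hm : m ∣ t + 2) (hk : k ≠ 0) (he : e ≠ 0)
    (h : ((1 + k * (t + 3)) * (t + 1) + 2) * e = (1 + k * (t + 3)) * ((t + 3) * m)) :
    (k = 1 ∧ ∃ j, j ∣ 2 ∧ 2 * e = j * (t + 3 + 1)) ∨ ((t + 3) * m < 7 ∧ e < 7) := by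
  have d : 1 + k * (t + 3) ∣ 2 * e := by
    have : 1 + k * (t + 3) ∣ (1 + k * (t + 3)) * ((t + 1) * e) + 2 * e :=
      ⟨(t + 3) * m, by rw [← h]; ring⟩
    exact (Nat.dvd_add_right (dvd_mul_right _ _)).1 this
  obtain ⟨j, hj⟩ := d
  have j0 : j ≠ 0 := by
    rintro rfl
    omega
  have e1 : j * (1 + k * (t + 1)) = 2 * m := by
    refine Nat.eq_of_mul_eq_mul_left (show 0 < (1 + k * (t + 3)) * (t + 3) by positivity) ?_
    calc _ = ((1 + k * (t + 3)) * (t + 1) + 2) * ((1 + k * (t + 3)) * j) := by ring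
      _ = 2 * (((1 + k * (t + 3)) * (t + 1) + 2) * e) := by rw [← hj]; ring
      _ = _ := by rw [h]; ring
  have m1 : m ≤ t + 2 := Nat.le_of_dvd (by omega) hm
  obtain rfl | k2 : k = 1 ∨ 2 ≤ k := by omega
  · obtain ⟨l, hl⟩ := hm
    have m0 : 0 < m := Nat.pos_of_ne_zero (by rintro rfl; omega)
    refine .inl ⟨rfl, j, ⟨l, Nat.eq_of_mul_eq_mul_left m0 ?_⟩, by rw [hj]; ring⟩
    rw [mul_comm m 2, ← e1, show 1 + 1 * (t + 1) = t + 2 by ring, hl]
    ring
  · have a : 2 * (t + 1) ≤ k * (t + 1) := Nat.mul_le_mul_right _ k2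
    have j1 : j = 1 := by
      by_contra c
      have := Nat.mul_le_mul_right (1 + k * (t + 1)) (show 2 ≤ j by omega)
      omega
    subst j1
    have k3 : 3 ≤ k := by
      by_contra c
      obtain rfl : k = 2 := by omega
      omega
    have b : 3 * (t + 1) ≤ k * (t + 1) := Nat.mul_le_mul_right _ k3
    obtain rfl : t = 0 := by omega
    right
    omega

omit [Finite G] in
theorem cnt_os (x : X) : Nat.card (orbit G x) * Nat.card (stabilizer G x) = Nat.card G := by
  rw [← Nat.card_prod]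
  exact Nat.card_congr (orbitProdStabilizerEquivGroup G x)

theorem cnt_o (x : X) : 0 < Nat.card (orbit G x) :=
  Nat.pos_of_mul_pos_right ((cnt_os (G := G) x).symm ▸ Nat.card_pos (α := G))

theorem cnt_le (h : Tw r Q) (g : G) (x : X) : Nat.card (Q x) ≤ Nat.card (Q (g • x)) :=
  Nat.card_le_card_of_injective (fun a : Q x => (⟨g * a * g⁻¹, h.cnj g x a a.2⟩ : Q (g • x)))
    fun a b e => Subtype.ext (by simpa using e)

theorem cnt_inv (h : Tw r Q) {a w : X} (hw : w ∈ orbit G a) : orbit G w = orbit G a ∧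
    Nat.card (stabilizer G w) = Nat.card (stabilizer G a) ∧ Nat.card (Q w) = Nat.card (Q a) := by
  have e := orbit_eq_iff.2 hw
  refine ⟨e, Nat.eq_of_mul_eq_mul_left (cnt_o (G := G) a) (by rw [cnt_os, ← e, cnt_os]), ?_⟩
  obtain ⟨g, rfl⟩ := hw
  exact le_antisymm (by simpa using cnt_le h g⁻¹ (g • a)) (cnt_le h g a)

theorem cnt_two {a u v : X} (hu : u ∈ orbit G a) (hv : v ∈ orbit G a) (uv : u ≠ v) :
    2 ≤ Nat.card (orbit G a) := by
  rw [Nat.card_coe_set_eq, ← Set.ncard_pair uv]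
  exact Set.ncard_le_ncard (Set.pair_subset hu hv) (Finite.finite_mulAction_orbit a)

theorem cnt_three {a u v w : X} (hu : u ∈ orbit G a) (hv : v ∈ orbit G a) (hw : w ∈ orbit G a)
    (uv : u ≠ v) (wu : w ≠ u) (wv : w ≠ v) : 3 ≤ Nat.card (orbit G a) := by
  rw [Nat.card_coe_set_eq, ← Set.ncard_eq_three.2 ⟨u, v, w, uv, wu.symm, wv.symm, rfl⟩]
  exact Set.ncard_le_ncard (Set.insert_subset hu (Set.pair_subset hv hw))
    (Finite.finite_mulAction_orbit a)

/-- an element of order `p ^ c` has at most two fixed points -/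
theorem cnt_fix (h : Tw r Q) {p c : ℕ} (hp : p.Prime) (hpr : p ≠ r) (h7 : 7 ≤ p ^ c) {d : G}
    (ho : orderOf d = p ^ c) {u v a : X} (uv : u ≠ v) (hu : d • u = u) (hv : d • v = v)
    (ha : d • a = a) : a = u ∨ a = v := by
  have := Fact.mk h.prime
  obtain ⟨x, y, -, k⟩ := h.two d (by rintro rfl; rw [orderOf_one] at ho; omega) fun w hw => by
    obtain ⟨k, hk⟩ := IsPGroup.iff_orderOf.1 (h.pg w) ⟨d, hw⟩
    rw [Subgroup.orderOf_mk, ho] at hk
    have c0 : c ≠ 0 := by
      rintro rfl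
      simp at h7
    exact hpr ((Nat.prime_dvd_prime_iff_eq hp h.prime).1
      (hp.dvd_of_dvd_pow (hk ▸ dvd_pow_self p c0)))
  have a1 := (k u).1 hu
  have a2 := (k v).1 hv
  have a3 := (k a).1 ha
  grind

theorem cnt_card {t : Finset X} {f : X → ℤ} {g : ℤ} (h : ∀ b ∈ t, g ≤ 2 * f b) :
    t.card * g ≤ 2 * ∑ b ∈ t, f b := by
  rw [Finset.mul_sum, ← nsmul_eq_mul]
  exact Finset.card_nsmul_le_sum t _ g h

/-- one wild orbit and one tame orbit -/
theorem cnt_wt (h : Tw r Q) {p c : ℕ} (hp : p.Prime) (hpr : p ≠ r) (hr : ∀ k, ¬ p ∣ r ^ k + 1)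
    (h7 : 7 ≤ p ^ c) {δ : G} (ho : orderOf δ = p ^ c) {x y z : X} (hxy : x ≠ y) (hx : δ • x = x)
    (hy : δ • y = y) (hzx : z ≠ x) (hzy : z ≠ y)
    (hz : 2 < Nat.card (Q z) ∨ ∃ (δ' : G) (z' : X), orderOf δ' = p ^ c ∧ δ' • z = z ∧
      δ' • z' = z' ∧ z' ≠ z ∧ z' ≠ x ∧ z' ≠ y) {a b : X} (wa : Q a ≠ ⊥) (tb : Nat.card (Q b) = 1)
    (mx : x ∈ orbit G a ∨ x ∈ orbit G b) (my : y ∈ orbit G a ∨ y ∈ orbit G b)
    (mz : z ∈ orbit G a ∨ z ∈ orbit G b)
    (he : (Nat.card (orbit G b) : ℤ) = Nat.card (orbit G a) * ((Nat.card (Q a) : ℤ) - 2) + 2) :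
    ∃ u ∈ Q x, u • z = y := by
  have := Fact.mk h.prime
  have big : ∀ {d : G} {w a : X}, orderOf d = p ^ c → d • w = w → w ∈ orbit G a →
      p ^ c ∣ Nat.card (stabilizer G a) := fun {d w a} o f m => by
    rw [← (cnt_inv h m).2.1, ← o]
    exact Subgroup.orderOf_dvd_natCard _ f
  have b7 : ∀ {d : G} {w a : X}, orderOf d = p ^ c → d • w = w → w ∈ orbit G a →
      7 ≤ Nat.card (stabilizer G a) := fun o f m =>
    h7.trans (Nat.le_of_dvd Nat.card_pos (big o f m))
  have zw : 2 < Nat.card (Q z) → z ∈ orbit G a := fun k => mz.resolve_right fun m => by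
    have := (cnt_inv h m).2.2
    omega
  obtain ⟨m, hm, md⟩ := h.dvd a wa
  obtain ⟨k, hk, -⟩ := h.orb a
  have q2 : 1 < Nat.card (Q a) := (Subgroup.one_lt_card_iff_ne_bot _).2 wa
  have oa := cnt_os (G := G) a
  have ob := cnt_os (G := G) b
  by_cases k0 : k = 0
  · have fx : ∀ w ∈ orbit G a, w = a := fun w hw => by
      by_contra c
      have := cnt_two hw (mem_orbit_self a) c
      rw [hk, k0] at this
      omega
    have a1 := cnt_fix h hp hpr h7 ho hxy hx hy (fx _ (mem_orbit a δ))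
    rcases hz with hz | ⟨d, z', o, f, f', n1, n2, n3⟩
    · have := fx z (zw hz)
      grind
    · have := cnt_fix h hp hpr h7 o n1.symm f f' (fx _ (mem_orbit a d))
      grind
  obtain q | q : Nat.card (Q a) = 2 ∨ 3 ≤ Nat.card (Q a) := by omega
  · rw [q] at he md hm
    obtain rfl : m = 1 := Nat.dvd_one.1 md
    have tm : ∀ {d : G} {w : X}, orderOf d = p ^ c → d • w = w →
        w ∈ orbit G a ∨ w ∈ orbit G b → w ∈ orbit G b := fun o f m => m.resolve_left fun m' => by
      have := b7 o f m'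
      omega
    rcases hz with hz | ⟨d, z', o, f, -⟩
    · have := (cnt_inv h (zw hz)).2.2
      omega
    · have := cnt_three (tm ho hx mx) (tm ho hy my) (tm o f mz) hxy hzx hzy
      omega
  obtain ⟨t, ht⟩ : ∃ t, Nat.card (Q a) = t + 3 := ⟨_, (Nat.sub_add_cancel q).symm⟩
  have e1 : Nat.card (orbit G b) = (1 + k * (t + 3)) * (t + 1) + 2 := by
    rw [hk, ht] at he
    zify
    rw [he]
    push_cast
    ring
  rw [ht] at hm hk md
  rcases cnt_ar (e := Nat.card (stabilizer G b)) md k0 Nat.card_pos.ne'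
    (by rw [← e1, ob, ← oa, hk, hm]) with ⟨rfl, j, j2, hj⟩ | ⟨c1, c2⟩
  · have wm : ∀ {d : G} {w : X}, orderOf d = p ^ c → d • w = w →
        w ∈ orbit G a ∨ w ∈ orbit G b → w ∈ orbit G a := fun o f m => m.resolve_right fun m' => by
      have c0 : c ≠ 0 := by
        rintro rfl
        simp at h7
      obtain ⟨i, hi⟩ := IsPGroup.iff_card.1 (h.pg a)
      have := ((dvd_pow_self p c0).trans (big o f m')).mul_left 2
      rw [hj, ← ht, hi] at this
      exact (hp.dvd_mul.1 this).elim (fun k => hr 0 (k.trans j2)) (hr i)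
    have ax := wm ho hx mx
    have az : z ∈ orbit G a := hz.elim zw fun ⟨d, z', o, f, _⟩ => wm o f mz
    obtain ⟨e, -, e2⟩ := cnt_inv h ax
    obtain ⟨k, hk', k1⟩ := h.orb x
    rw [e, hk, e2, ht] at hk'
    exact k1 (Nat.eq_of_mul_eq_mul_right (show 0 < t + 3 by omega) (by omega)) y
      (e ▸ wm ho hy my) z (e ▸ az) hxy.symm hzx
  · rcases mx with mx | mx <;> have := b7 ho hx mx <;> omega

/-- hint: page, section R1. The order of `δ` divides the orders of the stabilisers of `x`, `y`. -/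
theorem Tw.cnt (h : Tw r Q) {p c : ℕ} (hp : p.Prime) (hpr : p ≠ r) (hr : ∀ k, ¬ p ∣ r ^ k + 1)
    (h7 : 7 ≤ p ^ c) {δ : G} (ho : orderOf δ = p ^ c) {x y z : X} (hxy : x ≠ y) (hx : δ • x = x)
    (hy : δ • y = y) (hzx : z ≠ x) (hzy : z ≠ y)
    (hz : 2 < Nat.card (Q z) ∨ ∃ (δ' : G) (z' : X), orderOf δ' = p ^ c ∧ δ' • z = z ∧
      δ' • z' = z' ∧ z' ≠ z ∧ z' ≠ x ∧ z' ≠ y) : ∃ u ∈ Q x, u • z = y := by
  classical
  obtain ⟨s, s1, s2, -, s4⟩ := h.eq
  have b7 : ∀ {d : G} {w a : X}, orderOf d = p ^ c → d • w = w → w ∈ orbit G a →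
      7 ≤ Nat.card (stabilizer G a) := fun {d w a} o f m => by
    rw [← (cnt_inv h m).2.1]
    exact h7.trans (Nat.le_of_dvd Nat.card_pos (o ▸ Subgroup.orderOf_dvd_natCard _ f))
  have nt : ∀ {d : G} {w : X}, orderOf d = p ^ c → d • w = w → stabilizer G w ≠ ⊥ :=
    fun o f => (Subgroup.one_lt_card_iff_ne_bot _).1 (by
      have := b7 o f (mem_orbit_self _)
      omega)
  have nz : stabilizer G z ≠ ⊥ := hz.elim (fun k => (Subgroup.one_lt_card_iff_ne_bot _).1 (by
      have := Subgroup.card_le_of_le (show Q z ≤ stabilizer G z from h.fix z)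
      omega)) fun ⟨d, z', o, f, _⟩ => nt o f
  have os : ∀ (n : ℕ) (a : X), n ≤ Nat.card (stabilizer G a) →
      n * Nat.card (orbit G a) ≤ Nat.card G := fun n a k => by
    rw [← cnt_os (G := G) a, mul_comm]
    exact Nat.mul_le_mul_left _ k
  have o2 : ∀ a ∈ s, 2 * Nat.card (orbit G a) ≤ Nat.card G := fun a ha =>
    os 2 a ((Subgroup.one_lt_card_iff_ne_bot _).2 (s1 a ha))
  have g0 : 0 < Nat.card G := Nat.card_pos
  have wl : ∀ a : X, 1 < Nat.card (Q a) →
      (0 : ℤ) ≤ Nat.card (orbit G a) * ((Nat.card (Q a) : ℤ) - 2) := fun a k =>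
    mul_nonneg (Nat.cast_nonneg _) (by omega)
  have cv : ∀ (a w : X), stabilizer G w ≠ ⊥ →
      w ∈ orbit G a ∨ ∃ b ∈ s.erase a, w ∈ orbit G b := fun a w k => by
    obtain ⟨b, hb, m⟩ := s2 w k
    by_cases e : b = a
    · exact .inl (e ▸ m)
    · exact .inr ⟨b, Finset.mem_erase.2 ⟨e, hb⟩, m⟩
  have cd : ∀ a, ((s.erase a).card : ℤ) * Nat.card G ≤ 2 * ∑ b ∈ s.erase a,
      ((Nat.card G : ℤ) + Nat.card (orbit G b) * ((Nat.card (Q b) : ℤ) - 2)) := fun a =>
    cnt_card fun b hb => by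
      have := o2 b (Finset.mem_of_mem_erase hb)
      obtain k | k : Nat.card (Q b) = 1 ∨ 1 < Nat.card (Q b) := by
        have : 0 < Nat.card (Q b) := Nat.card_pos
        omega
      · rw [k]
        omega
      · have := wl b k
        omega
  have cx := fun a => cv a x (nt ho hx)
  have cy := fun a => cv a y (nt ho hy)
  have cz := fun a => cv a z nz
  by_cases W : ∃ a ∈ s, Q a ≠ ⊥
  · obtain ⟨a, ha, wa⟩ := W
    have q2 : 1 < Nat.card (Q a) := (Subgroup.one_lt_card_iff_ne_bot _).2 wa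
    have w0 := wl a q2
    specialize cd a
    specialize cx a
    specialize cy a
    specialize cz a
    rw [← Finset.add_sum_erase s _ ha] at s4
    obtain k | k : (s.erase a).card = 0 ∨ (s.erase a).card = 1 := by
      by_contra k
      have := mul_le_mul_of_nonneg_right (show (2 : ℤ) ≤ (s.erase a).card by omega)
        (Nat.cast_nonneg (α := ℤ) (Nat.card G))
      omega
    · rw [Finset.card_eq_zero.1 k] at s4 cx cy
      have n2 := cnt_two (a := a) (by simpa using cx) (by simpa using cy) hxy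
      have := os _ a (Subgroup.card_le_of_le (show Q a ≤ stabilizer G a from h.fix a))
      zify at this
      rw [Finset.sum_empty] at s4
      have n3 : (2 : ℤ) ≤ Nat.card (orbit G a) := by omega
      exfalso
      linarith
    · obtain ⟨b, hb⟩ := Finset.card_eq_one.1 k
      rw [hb] at s4 cx cy cz
      rw [Finset.sum_singleton] at s4
      have tb : Nat.card (Q b) = 1 := by
        by_contra k
        have : 0 < Nat.card (Q b) := Nat.card_pos
        have := wl b (by omega)
        omega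
      refine cnt_wt h hp hpr hr h7 ho hxy hx hy hzx hzy hz wa tb (by simpa using cx)
        (by simpa using cy) (by simpa using cz) ?_
      rw [tb] at s4
      omega
  · have tm : ∀ a ∈ s, Nat.card (Q a) = 1 := fun a ha =>
      Subgroup.card_eq_one.2 (by_contra fun k => W ⟨a, ha, k⟩)
    obtain ⟨d, z', o, f, -⟩ := hz.resolve_left fun k => by
      obtain ⟨b, hb, m⟩ := s2 z nz
      have := (cnt_inv h m).2.2
      have := tm b hb
      omega
    obtain ⟨a, ha, xa⟩ := s2 x (nt ho hx)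
    have a7 := os 7 a (b7 ho hx xa)
    have a0 := cnt_o (G := G) a
    specialize cd a
    specialize cy a
    specialize cz a
    rw [← Finset.add_sum_erase s _ ha, tm a ha] at s4
    exfalso
    obtain k | k | k : (s.erase a).card = 0 ∨ (s.erase a).card = 1 ∨ (s.erase a).card = 2 := by
      by_contra k
      have := mul_le_mul_of_nonneg_right (show (3 : ℤ) ≤ (s.erase a).card by omega)
        (Nat.cast_nonneg (α := ℤ) (Nat.card G))
      omega
    · rw [Finset.card_eq_zero.1 k, Finset.sum_empty] at s4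
      omega
    · obtain ⟨b, hb⟩ := Finset.card_eq_one.1 k
      have mb := Finset.mem_of_mem_erase (hb ▸ Finset.mem_singleton_self b)
      rw [hb] at s4 cy cz
      rw [Finset.sum_singleton, tm b mb] at s4
      have b0 := cnt_o (G := G) b
      simp only [Finset.mem_singleton, exists_eq_left] at cy cz
      rcases cy with cy | cy
      · have := cnt_two xa cy hxy
        omega
      rcases cz with cz | cz
      · have := cnt_two cz xa hzx
        omega
      · have := cnt_two cz cy hzy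
        omega
    · obtain ⟨b, e, be, hb⟩ := Finset.card_eq_two.1 k
      have mb := Finset.mem_of_mem_erase (hb ▸ Finset.mem_insert_self b {e})
      have me := Finset.mem_of_mem_erase
        (hb ▸ Finset.mem_insert_of_mem (Finset.mem_singleton_self e))
      rw [hb] at s4 cy cz
      rw [Finset.sum_pair be, tm b mb, tm e me] at s4
      have b2 := o2 b mb
      have e2 := o2 e me
      have b3 : ¬ 3 ≤ Nat.card (stabilizer G b) := fun k => by
        have := os 3 b k
        omega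
      have e3 : ¬ 3 ≤ Nat.card (stabilizer G e) := fun k => by
        have := os 3 e k
        omega
      have ia : ∀ {d : G} {w : X}, orderOf d = p ^ c → d • w = w →
          (w ∈ orbit G a ∨ ∃ v ∈ ({b, e} : Finset X), w ∈ orbit G v) → w ∈ orbit G a :=
        fun o f m => m.resolve_right fun ⟨v, hv, m⟩ => by
          have := b7 o f m
          rcases Finset.mem_insert.1 hv with rfl | hv
          · omega
          · rw [Finset.mem_singleton.1 hv] at this
            omega
      have := cnt_three xa (ia ho hy cy) (ia o f cz) hxy hzx hzy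
      have ob := cnt_os (G := G) b
      have oe := cnt_os (G := G) e
      have b1 := (Subgroup.one_lt_card_iff_ne_bot _).2 (s1 b mb)
      have e1 := (Subgroup.one_lt_card_iff_ne_bot _).2 (s1 e me)
      rw [show Nat.card (stabilizer G b) = 2 by omega] at ob
      rw [show Nat.card (stabilizer G e) = 2 by omega] at oe
      omega

end Pool.Agent.Lib.MP_1ae3da_al.WG
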