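import Mathlib

/-! The fixed point count for groups whose elements fix one or two points: the equation. -/

namespace Pool.Agent.Lib.MP_1ae3da_al.WG

open MulAction

/-- `Q x` are the elements with the single fixed point `x`; the others fix two points -/
structure Tw (r : ℕ) {G X : Type} [Group G] [MulAction G X] (Q : X → Subgroup G) : Prop where
  prime : r.Prime
  pg : ∀ x, IsPGroup r (Q x)
  ab : ∀ x, ∀ a ∈ Q x, ∀ b ∈ Q x, a * b = b * a
  fix : ∀ x, ∀ a ∈ Q x, a • x = x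
  cnj : ∀ (g : G) x, ∀ a ∈ Q x, g * a * g⁻¹ ∈ Q (g • x)
  one : ∀ x, ∀ a ∈ Q x, a ≠ 1 → ∀ y, a • y = y → y = x
  two : ∀ g : G, g ≠ 1 → (∀ x, g ∉ Q x) → ∃ x y, x ≠ y ∧ ∀ z : X, g • z = z ↔ z = x ∨ z = y

variable {r : ℕ} {G X : Type} [Group G] [Finite G] [MulAction G X] {Q : X → Subgroup G}

theorem cnta_card {S U : Type} [Group S] [MulAction S U] [Finite U] {m : ℕ}
    (h : ∀ u : U, Nat.card (orbit S u) = m) :
    Nat.card U = Nat.card (orbitRel.Quotient S U) * m := by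
  classical
  haveI := Fintype.ofFinite (orbitRel.Quotient S U)
  rw [Nat.card_congr (selfEquivSigmaOrbits' S U), Nat.card_sigma,
    Nat.card_eq_fintype_card (α := orbitRel.Quotient S U), ← Finset.card_univ, ← smul_eq_mul,
    ← Finset.sum_const]
  refine Finset.sum_congr rfl fun w _ => ?_
  induction w using Quotient.inductionOn' with
  | h u => exact h u

theorem cnta_orb {S U : Type} [Group S] [MulAction S U] (u : U) :
    Nat.card (stabilizer S u) * Nat.card (orbit S u) = Nat.card S := by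
  rw [Nat.card_coe_set_eq, ← index_stabilizer, Subgroup.card_mul_index]

omit [Finite G] in
theorem cnta_sub [Fintype G] [DecidableEq G] (H : Subgroup G) [DecidablePred (· ∈ H)] :
    ∑ g ∈ Finset.univ.erase (1 : G), (if g ∈ H then (1 : ℤ) else 0) = (Nat.card H : ℤ) - 1 := by
  have h1 := Finset.add_sum_erase (Finset.univ : Finset G) (fun g => if g ∈ H then (1 : ℤ) else 0)
    (Finset.mem_univ 1)
  have h2 : ∑ g : G, (if g ∈ H then (1 : ℤ) else 0) = (Nat.card H : ℤ) := by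
    rw [Finset.sum_boole, Nat.card_eq_fintype_card, Fintype.card_subtype]
  simp only [H.one_mem, if_true] at h1
  linarith

omit [Finite G] in
theorem Tw.cnta_one (h : Tw r Q) {g : G} (hg : g ≠ 1) {x : X} (hx : g ∈ Q x) (y : X) :
    (g • y = y ↔ y = x) ∧ (g ∈ Q y ↔ y = x) :=
  ⟨⟨h.one x g hx hg y, fun e => e ▸ h.fix _ g (e ▸ hx)⟩,
    ⟨fun hy => h.one x g hx hg y (h.fix y g hy), fun e => e ▸ hx⟩⟩

theorem Tw.cnta_fin (h : Tw r Q) : {x : X | stabilizer G x ≠ ⊥}.Finite := by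
  have h1 : ∀ g : {g : G // g ≠ 1}, {x : X | g.1 • x = x}.Finite := by
    rintro ⟨g, hg⟩
    by_cases hq : ∃ x, g ∈ Q x
    · obtain ⟨x, hx⟩ := hq
      exact (Set.finite_singleton x).subset fun y hy => h.one x g hx hg y hy
    · obtain ⟨a, b, -, hab⟩ := h.two g hg fun x hx => hq ⟨x, hx⟩
      exact (Set.toFinite {a, b}).subset fun y hy => (hab y).1 hy
  refine (Set.finite_iUnion h1).subset fun x hx => ?_
  obtain ⟨g, hg⟩ := Subgroup.ne_bot_iff_exists_ne_one.1 hx
  exact Set.mem_iUnion.2 ⟨⟨g.1, fun e => hg (Subtype.ext e)⟩, g.2⟩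

theorem Tw.cnta_le (h : Tw r Q) (g : G) (x : X) : Nat.card (Q x) ≤ Nat.card (Q (g • x)) :=
  Nat.card_le_card_of_injective (fun a : Q x => (⟨g * a * g⁻¹, h.cnj g x a a.2⟩ : Q (g • x)))
    fun a b e => Subtype.ext (by simpa using congrArg Subtype.val e)

theorem Tw.cnta_Q (h : Tw r Q) {x y : X} (hxy : x ∈ orbit G y) :
    Nat.card (Q x) = Nat.card (Q y) := by
  obtain ⟨g, rfl⟩ := hxy
  refine le_antisymm ?_ (h.cnta_le g y)
  simpa using h.cnta_le g⁻¹ (g • y)

omit [Finite G] in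
theorem cnta_stab {x y : X} (hxy : x ∈ orbit G y) :
    Nat.card (stabilizer G x) = Nat.card (stabilizer G y) :=
  Nat.card_congr (stabilizerEquivStabilizerOfOrbitRel (orbitRel_apply.2 hxy)).toEquiv

theorem Tw.cnta_sum (h : Tw r Q) (T : Finset X) (hT : ∀ x, x ∈ T ↔ stabilizer G x ≠ ⊥) :
    ∑ x ∈ T, ((Nat.card (stabilizer G x) : ℤ) + Nat.card (Q x) - 2) = 2 * Nat.card G - 2 := by
  classical
  haveI := Fintype.ofFinite G
  have hm : ∀ g : G, g ≠ 1 → ∀ x : X, g • x = x → x ∈ T := fun g hg x hx =>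
    (hT x).2 (Subgroup.ne_bot_iff_exists_ne_one.2 ⟨⟨g, hx⟩, fun e => hg (congrArg Subtype.val e)⟩)
  have h1 : ∀ x ∈ T, ((Nat.card (stabilizer G x) : ℤ) + Nat.card (Q x) - 2) =
      ∑ g ∈ Finset.univ.erase (1 : G),
        ((if g • x = x then (1 : ℤ) else 0) + if g ∈ Q x then (1 : ℤ) else 0) := by
    intro x _
    have a1 : ∑ g ∈ Finset.univ.erase (1 : G), (if g • x = x then (1 : ℤ) else 0) =
        (Nat.card (stabilizer G x) : ℤ) - 1 := by
      rw [← cnta_sub (stabilizer G x)]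
      simp only [mem_stabilizer_iff]
    have a2 := cnta_sub (Q x)
    rw [Finset.sum_add_distrib, a1, a2]
    ring
  rw [Finset.sum_congr rfl h1, Finset.sum_comm]
  have h2 : ∀ g ∈ Finset.univ.erase (1 : G), ∑ x ∈ T,
      ((if g • x = x then (1 : ℤ) else 0) + if g ∈ Q x then (1 : ℤ) else 0) = 2 := by
    intro g hg
    have hg1 := Finset.ne_of_mem_erase hg
    by_cases hq : ∃ x, g ∈ Q x
    · obtain ⟨x, hx⟩ := hq
      have hx' := hm g hg1 x (h.fix x g hx)
      simp only [(h.cnta_one hg1 hx _).1, (h.cnta_one hg1 hx _).2, Finset.sum_add_distrib,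
        Finset.sum_ite_eq', hx', if_true]
      norm_num
    · obtain ⟨a, b, hn, hab⟩ := h.two g hg1 fun x hx => hq ⟨x, hx⟩
      have hq' : ∀ x, g ∉ Q x := fun x hx => hq ⟨x, hx⟩
      have hf : T.filter (fun x => g • x = x) = {a, b} := by
        ext z
        simp only [Finset.mem_filter, Finset.mem_insert, Finset.mem_singleton, ← hab]
        exact ⟨fun e => e.2, fun e => ⟨hm g hg1 z e, e⟩⟩
      simp only [hq', if_false, add_zero]
      rw [Finset.sum_boole, hf, Finset.card_pair hn]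
      norm_num
  rw [Finset.sum_congr rfl h2, Finset.sum_const, Finset.card_erase_of_mem (Finset.mem_univ _),
    Finset.card_univ, Nat.card_eq_fintype_card, nsmul_eq_mul,
    Nat.cast_sub (Nat.one_le_iff_ne_zero.2 Fintype.card_ne_zero)]
  push_cast
  ring

/-- hint: count the pairs `(g, x)`, `g ≠ 1`, `g • x = x`, those with `g ∈ Q x` twice; `s` is a
set of representatives of the orbits with nontrivial stabiliser. -/
theorem Tw.eq (h : Tw r Q) : ∃ s : Finset X, (∀ x ∈ s, stabilizer G x ≠ ⊥) ∧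
    (∀ x : X, stabilizer G x ≠ ⊥ → ∃ y ∈ s, x ∈ orbit G y) ∧
    (∀ x ∈ s, ∀ y ∈ s, x ∈ orbit G y → x = y) ∧
    ∑ x ∈ s, ((Nat.card G : ℤ) + Nat.card (orbit G x) * ((Nat.card (Q x) : ℤ) - 2)) =
      2 * Nat.card G - 2 := by
  classical
  obtain ⟨ρ, h1, h2⟩ : ∃ ρ : X → X, (∀ x, x ∈ orbit G (ρ x)) ∧
      ∀ x y, x ∈ orbit G y → ρ x = ρ y :=
    ⟨fun x => (Quotient.mk (orbitRel G X) x).out,
      fun x => orbitRel_apply.1 (Quotient.exact (Quotient.out_eq _).symm),
      fun x y e => congrArg Quotient.out (Quotient.sound (orbitRel_apply.2 e))⟩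
  have h3 : ∀ x, ρ (ρ x) = ρ x := fun x => (h2 _ _ (h1 x)).symm
  have hT : ∀ x, x ∈ h.cnta_fin.toFinset ↔ stabilizer G x ≠ ⊥ := fun x =>
    h.cnta_fin.mem_toFinset
  set T := h.cnta_fin.toFinset
  have hinv : ∀ {x y : X}, x ∈ orbit G y → (stabilizer G x ≠ ⊥ ↔ stabilizer G y ≠ ⊥) := by
    intro x y e
    rw [Ne, Ne, ← Subgroup.card_eq_one, ← Subgroup.card_eq_one, cnta_stab e]
  refine ⟨T.image ρ, ?_, ?_, ?_, ?_⟩
  · intro y hy
    obtain ⟨x, hx, rfl⟩ := Finset.mem_image.1 hy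
    exact (hinv (h1 x)).1 ((hT x).1 hx)
  · exact fun x hx => ⟨ρ x, Finset.mem_image_of_mem _ ((hT x).2 hx), h1 x⟩
  · intro x hx y hy e
    obtain ⟨a, -, rfl⟩ := Finset.mem_image.1 hx
    obtain ⟨b, -, rfl⟩ := Finset.mem_image.1 hy
    rw [← h3 a, h2 _ _ e, h3]
  · rw [← h.cnta_sum T hT, ← Finset.sum_fiberwise_of_maps_to (g := ρ) (t := T.image ρ)
      fun x hx => Finset.mem_image_of_mem _ hx]
    refine Finset.sum_congr rfl fun y hy => ?_
    obtain ⟨a, ha, rfl⟩ := Finset.mem_image.1 hy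
    have hf : ((T.filter fun x => ρ x = ρ a : Finset X) : Set X) = orbit G (ρ a) := by
      ext z
      simp only [Finset.coe_filter, Set.mem_ofPred_eq]
      refine ⟨fun e => e.2 ▸ h1 z, fun e => ⟨(hT z).2 ((hinv e).2 ?_), (h2 _ _ e).trans (h3 a)⟩⟩
      exact (hinv (h1 a)).1 ((hT a).1 ha)
    have hc : ∀ x ∈ T.filter fun x => ρ x = ρ a,
        ((Nat.card (stabilizer G x) : ℤ) + Nat.card (Q x) - 2) =
          (Nat.card (stabilizer G (ρ a)) : ℤ) + Nat.card (Q (ρ a)) - 2 := by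
      intro x hx
      have e : x ∈ orbit G (ρ a) := hf ▸ Finset.mem_coe.2 hx
      rw [cnta_stab e, h.cnta_Q e]
    have hn : (T.filter fun x => ρ x = ρ a).card = Nat.card (orbit G (ρ a)) := by
      rw [Nat.card_coe_set_eq, ← hf, Set.ncard_coe_finset]
    rw [Finset.sum_congr rfl hc, Finset.sum_const, hn, nsmul_eq_mul, ← cnta_orb (S := G) (ρ a)]
    push_cast
    ring

omit [Finite G] in
theorem Tw.cnta_cent (h : Tw r Q) {x : X} {u g : G} (hu : u ∈ Q x) (hu1 : u ≠ 1) (hg : g • x = x)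
    (hc : g * u = u * g) : g ∈ Q x := by
  by_contra hq
  have hg1 : g ≠ 1 := fun e => hq (e ▸ (Q x).one_mem)
  obtain ⟨a, b, hn, hab⟩ := h.two g hg1 fun y hy => hq (h.one y g hy hg1 x hg ▸ hy)
  have key : ∀ y, y ≠ x → g • y = y → (∀ z, g • z = z → z = x ∨ z = y) → False := by
    intro y hy hgy hz
    have e : g • u • y = u • y := by rw [← mul_smul, hc, mul_smul, hgy]
    rcases hz _ e with e' | e'
    · exact hy (smul_left_cancel u (e'.trans (h.fix x u hu).symm))
    · exact hy (h.one x u hu hu1 y e')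
  rcases (hab x).1 hg with e | e
  · exact key b (fun e' => hn (e.symm.trans e'.symm)) ((hab b).2 (Or.inr rfl))
      fun z hz => e ▸ (hab z).1 hz
  · exact key a (fun e' => hn (e'.trans e)) ((hab a).2 (Or.inl rfl))
      fun z hz => e ▸ ((hab z).1 hz).symm

/-- conjugation by the stabiliser -/
@[reducible] def Tw.cntaAct (h : Tw r Q) (x : X) :
    MulAction (stabilizer G x) {u : G // u ∈ Q x ∧ u ≠ 1} where
  smul g u := ⟨g.1 * u.1 * g.1⁻¹, by simpa only [mem_stabilizer_iff.1 g.2] using h.cnj g x u u.2.1,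
    fun e => u.2.2 (by simpa using e)⟩
  one_smul u := Subtype.ext (by change (1 : G) * u.1 * (1 : G)⁻¹ = u.1; simp)
  mul_smul a b u := Subtype.ext (by
    change a.1 * b.1 * u.1 * (a.1 * b.1)⁻¹ = a.1 * (b.1 * u.1 * b.1⁻¹) * a.1⁻¹
    group)

/-- hint: the stabiliser acts on `Q x ∖ {1}` by conjugation with point stabilisers `Q x` (an
element outside `Q x` has a second fixed point `y`; if it commutes with `u` then `u • y = y`). -/
theorem Tw.dvd (h : Tw r Q) (x : X) (hx : Q x ≠ ⊥) :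
    ∃ m, Nat.card (stabilizer G x) = Nat.card (Q x) * m ∧ m ∣ Nat.card (Q x) - 1 := by
  have hle : Q x ≤ stabilizer G x := fun a ha => h.fix x a ha
  refine ⟨((Q x).subgroupOf (stabilizer G x)).index, ?_, ?_⟩
  · rw [← Nat.card_congr (Subgroup.subgroupOfEquivOfLe hle).toEquiv, Subgroup.card_mul_index]
  · letI := h.cntaAct x
    have h1 : ∀ u : {u : G // u ∈ Q x ∧ u ≠ 1}, Nat.card (orbit (stabilizer G x) u) =
        ((Q x).subgroupOf (stabilizer G x)).index := by
      intro u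
      rw [Nat.card_coe_set_eq, ← index_stabilizer]
      congr 1
      ext g
      rw [mem_stabilizer_iff, Subgroup.mem_subgroupOf, Subtype.ext_iff]
      change g.1 * u.1 * g.1⁻¹ = u.1 ↔ _
      rw [mul_inv_eq_iff_eq_mul]
      exact ⟨h.cnta_cent u.2.1 u.2.2 g.2, fun e => h.ab x _ e _ u.2.1⟩
    have h2 : Nat.card {u : G // u ∈ Q x ∧ u ≠ 1} = Nat.card (Q x) - 1 := by
      have e : {u : G | u ∈ Q x ∧ u ≠ 1} = (Q x : Set G) \ {1} := rfl
      change Nat.card {u : G | u ∈ Q x ∧ u ≠ 1} = Nat.card (Q x : Set G) - 1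
      rw [e, Nat.card_coe_set_eq, Nat.card_coe_set_eq,
        Set.ncard_sdiff_singleton_of_mem (SetLike.mem_coe.2 (Q x).one_mem)]
    rw [← h2, cnta_card h1]
    exact Dvd.intro_left _ rfl

/-- the orbit minus the point -/
def Tw.cntaSub (h : Tw r Q) (x : X) : SubMulAction (Q x) X where
  carrier := orbit G x \ {x}
  smul_mem' a y hy := ⟨(mapsTo_smul_orbit a.1 x hy.1), fun e =>
    hy.2 (smul_left_cancel a.1 (e.trans (h.fix x a a.2).symm))⟩

/-- hint: `Q x` acts freely on the orbit minus `x`. -/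
theorem Tw.orb (h : Tw r Q) (x : X) : ∃ k, Nat.card (orbit G x) = 1 + k * Nat.card (Q x) ∧
    (k = 1 → ∀ y ∈ orbit G x, ∀ z ∈ orbit G x, y ≠ x → z ≠ x → ∃ u ∈ Q x, u • z = y) := by
  have hfin : (orbit G x).Finite := Set.finite_range _
  haveI : Finite (h.cntaSub x) := (hfin.sdiff (t := {x})).to_subtype
  have h1 : ∀ y : h.cntaSub x, Nat.card (orbit (Q x) y) = Nat.card (Q x) := by
    intro y
    have e : stabilizer (Q x) y = ⊥ := by
      refine (Subgroup.eq_bot_iff_forall _).2 fun a ha => ?_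
      by_contra hn
      exact y.2.2 (h.one x a a.2 (fun e => hn (Subtype.ext e)) y
        (congrArg Subtype.val (mem_stabilizer_iff.1 ha)))
    rw [← cnta_orb (S := Q x) y, e, Subgroup.card_bot, one_mul]
  refine ⟨Nat.card (orbitRel.Quotient (Q x) (h.cntaSub x)), ?_, fun hk y hy z hz hyx hzx => ?_⟩
  · rw [← cnta_card h1]
    change _ = 1 + Nat.card (orbit G x \ {x} : Set X)
    rw [Nat.card_coe_set_eq, Nat.card_coe_set_eq, add_comm,
      Set.ncard_sdiff_singleton_add_one (mem_orbit_self x) hfin]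
  · have hs := (Nat.card_eq_one_iff_unique.1 hk).1
    have e : (Quotient.mk (orbitRel (Q x) (h.cntaSub x)) ⟨y, hy, hyx⟩ :
        orbitRel.Quotient (Q x) (h.cntaSub x)) = Quotient.mk _ ⟨z, hz, hzx⟩ := hs.elim _ _
    obtain ⟨u, hu⟩ := orbitRel_apply.1 (Quotient.exact e)
    exact ⟨u.1, u.2, congrArg Subtype.val hu⟩

end Pool.Agent.Lib.MP_1ae3da_al.WG
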