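import Mathlib

/-! Subgroups of general linear groups that contain homologies: definitions. -/

namespace Pool.Agent.Lib.MP_1ae3da_al.WG

open Matrix

variable {ι K : Type} [Fintype ι] [DecidableEq ι] [Field K]

/-- the matrix `m` is an element of `H` -/
def In (H : Subgroup (GL ι K)) (m : Matrix ι ι K) : Prop := ∃ g ∈ H, (g : Matrix ι ι K) = m

/-- `1 + v ⊗ φ` -/
def tv (v φ : ι → K) : Matrix ι ι K := 1 + vecMulVec v φ

/-- `1 + c E i j` -/
def rt (i j : ι) (c : K) : Matrix ι ι K := tv (Pi.single i c) (Pi.single j 1)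

/-- the diagonal matrix with `s` at the place `i` and `1` elsewhere -/
def hm (s : K) (i : ι) : Matrix ι ι K := rt i i (s - 1)

/-- the subgroup generated by the root elements with parameters in `A` -/
def Rg (A : ι → ι → Set K) : Subgroup (GL ι K) :=
  Subgroup.closure {g | ∃ i j, i ≠ j ∧ ∃ c ∈ A i j, (g : Matrix ι ι K) = rt i j c}

/-- the subgroup generated by the root elements in `H` -/
def Mr (H : Subgroup (GL ι K)) : Subgroup (GL ι K) := Rg fun i j => {c | In H (rt i j c)}

/-- the conditions on the scalar `s` -/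
structure Sc (p : ℕ) (s : K) : Prop where
  prime : p.Prime
  ord : ∃ c, orderOf s = p ^ c
  big : 7 ≤ orderOf s
  chr : ∀ k, ¬ p ∣ ringChar K ^ k + 1

/-- the conditions on the field `K` and the rank `m` -/
def Ok (p m : ℕ) (K : Type) [Field K] : Prop :=
  (∀ k, ¬ p ∣ ringChar K ^ k + 1) ∧
    2 * padicValNat p m.factorial < padicValNat p (Nat.card K - 1) ∧
      7 ≤ p ^ padicValNat p (Nat.card K - 1)

end Pool.Agent.Lib.MP_1ae3da_al.WG
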