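import Pool.Agent.Lib.MP_1ae3da_al.V.Sim

/-! A full system of root subgroups comes from a subfield. -/

namespace Pool.Agent.Lib.MP_1ae3da_al.WG

open Matrix

variable {ι K : Type} [Fintype ι] [DecidableEq ι] [Field K] [Finite K]

omit [Fintype ι] [DecidableEq ι] in
theorem fld_div {A B : AddSubgroup K} {a b : K} (ha : a ≠ 0) (hb : b ≠ 0)
    (h : ∀ c ∈ A, a * c ∈ B) (h' : ∀ c ∈ B, b * c ∈ A) : ∀ c ∈ B, a⁻¹ * c ∈ A := fun c hc => by
  have := add_stab B (s := a * b) (fun c hc => mul_assoc a b c ▸ h _ (h' c hc))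
    (inv_mem (Subfield.subset_closure rfl)) c hc
  convert h' _ this using 1
  field_simp

/-- the common multipliers of a family of additive subgroups -/
def fldE (A : ι → ι → AddSubgroup K) : Subfield K where
  carrier := {x | ∀ i j, i ≠ j → ∀ c ∈ A i j, x * c ∈ A i j}
  mul_mem' := fun ha hb i j h c hc => by rw [mul_assoc]; exact ha i j h _ (hb i j h c hc)
  one_mem' := fun i j _ c hc => by rwa [one_mul]
  add_mem' := fun ha hb i j h c hc => by
    rw [add_mul]; exact add_mem (ha i j h c hc) (hb i j h c hc)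
  zero_mem' := fun i j _ c _ => by rw [zero_mul]; exact zero_mem _
  neg_mem' := fun ha i j h c hc => by rw [neg_mul]; exact neg_mem (ha i j h c hc)
  inv_mem' := fun _ ha i j h => add_stab _ (ha i j h) (inv_mem (Subfield.subset_closure rfl))

theorem fld_a (h3 : 3 ≤ Fintype.card ι) (A : ι → ι → AddSubgroup K)
    (h0 : ∀ i j, i ≠ j → A i j ≠ ⊥)
    (hmul : ∀ i j k, i ≠ j → j ≠ k → i ≠ k → ∀ a ∈ A i j, ∀ b ∈ A j k, a * b ∈ A i k) {t : K}
    (ht : ∀ i j, i ≠ j → ∀ c ∈ A i j, t * c ∈ A i j) :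
    ∃ (E : Subfield K) (d : ι → Kˣ), t ∈ E ∧
      ∀ i j, i ≠ j → ∀ c, c ∈ A i j ↔ ((d i)⁻¹ : Kˣ) * c * d j ∈ E := by
  have nz (i j) (h : i ≠ j) : ∃ a ∈ A i j, a ≠ 0 := by
    obtain ⟨⟨a, b⟩, c⟩ := AddSubgroup.ne_bot_iff_exists_ne_zero.1 (h0 i j h)
    exact ⟨a, b, fun e => c (Subtype.ext e)⟩
  have th (i j : ι) : ∃ k, k ≠ i ∧ k ≠ j := by
    obtain ⟨k, -, h⟩ := Finset.exists_mem_notMem_of_card_lt_card
      (s := {i, j}) (t := Finset.univ) (Finset.card_le_two.trans_lt h3)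
    exact ⟨k, by simpa using h⟩
  have s1 (i j k) (p : i ≠ j) (q : j ≠ k) (r : i ≠ k) (a) (ha : a ∈ A i j) (a0 : a ≠ 0) :
      ∀ c ∈ A i k, a⁻¹ * c ∈ A j k := by
    obtain ⟨b, hb, b0⟩ := nz j i p.symm
    exact fld_div a0 b0 (hmul i j k p q r a ha) (hmul j i k p.symm r q b hb)
  have s2 (i j k) (p : i ≠ j) (q : j ≠ k) (r : i ≠ k) (a) (ha : a ∈ A j k) (a0 : a ≠ 0) :
      ∀ c ∈ A i k, a⁻¹ * c ∈ A i j := by
    obtain ⟨b, hb, b0⟩ := nz k j q.symm
    exact fld_div a0 b0 (fun c hc => mul_comm c a ▸ hmul i j k p q r c hc a ha)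
      fun c hc => mul_comm c b ▸ hmul i k j r q.symm p c hc b hb
  have col (x i j k) (q : j ≠ k) (r : i ≠ k) (h : ∀ c ∈ A j k, x * c ∈ A j k) :
      ∀ c ∈ A i k, x * c ∈ A i k := fun c hc => by
    rcases eq_or_ne i j with rfl | p
    · exact h c hc
    obtain ⟨a, ha, a0⟩ := nz i j p
    convert hmul i j k p q r a ha _ (h _ (s1 i j k p q r a ha a0 c hc)) using 1
    field_simp
  have row (x i j k) (p : i ≠ j) (r : i ≠ k) (h : ∀ c ∈ A i j, x * c ∈ A i j) :
      ∀ c ∈ A i k, x * c ∈ A i k := fun c hc => by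
    rcases eq_or_ne j k with rfl | q
    · exact h c hc
    obtain ⟨a, ha, a0⟩ := nz j k q
    convert hmul i j k p q r _ (h _ (s2 i j k p q r a ha a0 c hc)) a ha using 1
    field_simp
  have one (i j) (p : i ≠ j) (a) (ha : a ∈ A i j) (a0 : a ≠ 0) (c) :
      c ∈ A i j ↔ a⁻¹ * c ∈ fldE A := by
    refine ⟨fun hc l m q => ?_, fun h => by simpa [mul_right_comm, a0] using h i j p a ha⟩
    obtain ⟨k, u, v⟩ := th i j
    have h : ∀ e ∈ A i k, a⁻¹ * c * e ∈ A i k := fun e he => by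
      convert hmul i j k p v.symm u.symm c hc _ (s1 i j k p v.symm u.symm a ha a0 e he) using 1
      ring
    rcases eq_or_ne l k with rfl | w
    · exact row _ l j m v q (col _ l i j p v (row _ i l j u.symm p h))
    · exact row _ l k m w q (col _ l i k u.symm w h)
  obtain ⟨o⟩ : Nonempty ι := Fintype.card_pos_iff.1 (by omega)
  have : ∀ i, ∃ a : Kˣ, (i = o → a = 1) ∧ (i ≠ o → (a : K) ∈ A i o) := fun i => by
    rcases eq_or_ne i o with rfl | h
    · exact ⟨1, fun _ => rfl, fun h => absurd rfl h⟩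
    · obtain ⟨a, b, c⟩ := nz i o h
      exact ⟨Units.mk0 a c, fun e => absurd e h, fun _ => b⟩
  choose d d1 d2 using this
  have m1 (i j) (p : i ≠ j) (q : i ≠ o) : (d j : K)⁻¹ * d i ∈ A i j := by
    rcases eq_or_ne j o with rfl | r
    · simpa [d1 j rfl] using d2 i q
    · exact s2 i j o p r q _ (d2 j r) (d j).ne_zero _ (d2 i q)
  have m2 (i j) (p : i ≠ j) : (d j : K)⁻¹ * d i ∈ A i j := by
    rcases eq_or_ne i o with rfl | q
    · obtain ⟨k, u, v⟩ := th i j
      convert s1 k i j u p v _ (d2 k u) (d k).ne_zero _ (m1 k j v u) using 1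
      rw [d1 i rfl, Units.val_one]
      field_simp
    · exact m1 i j p q
  refine ⟨fldE A, d, ht, fun i j p c => (one i j p _ (m2 i j p) (by simp) c).trans ?_⟩
  rw [Units.val_inv_eq_inv_val, mul_inv, inv_inv, mul_comm (d j : K), mul_right_comm]

theorem fld (h3 : 3 ≤ Fintype.card ι) (A : ι → ι → AddSubgroup K)
    (h0 : ∀ i j, i ≠ j → A i j ≠ ⊥)
    (hmul : ∀ i j k, i ≠ j → j ≠ k → i ≠ k → ∀ a ∈ A i j, ∀ b ∈ A j k, a * b ∈ A i k) {t : K}
    (ht : ∀ i j, i ≠ j → ∀ c ∈ A i j, t * c ∈ A i j) :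
    ∃ E : Subfield K, t ∈ E ∧ Nonempty (Rg (fun i j => (A i j : Set K)) ≃*
      SpecialLinearGroup (Fin (Fintype.card ι)) E) := by
  obtain ⟨E, d, hE, h⟩ := fld_a h3 A h0 hmul ht
  let D : GL ι K := ⟨diagonal fun i => d i, diagonal fun i => (d i)⁻¹, by simp, by simp⟩
  let F : GL ι E →* GL ι K := (MulAut.conj D).toMonoidHom.comp (GeneralLinearGroup.map E.subtype)
  have hF (g : GL ι E) (k l) : (F g : Matrix ι ι K) k l = d k * (g k l : K) * (d l : K)⁻¹ := by
    change ((diagonal fun i => (d i : K)) * (g : Matrix ι ι E).map E.subtype *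
      diagonal fun i => (d i : K)⁻¹ : Matrix ι ι K) k l = _
    rw [mul_diagonal, diagonal_mul]
    rfl
  have inj : Function.Injective F := fun g g' e => Units.ext (Matrix.ext fun k l => by
    have := hF g k l
    rw [e, hF] at this
    exact Subtype.ext (by simpa using this.symm))
  have hr (g : GL ι E) (i j) (p : i ≠ j) (c : E) : (g : Matrix ι ι E) = rt i j c ↔
      (F g : Matrix ι ι K) = rt i j ((d i : K) * (c : K) * (d j : K)⁻¹) := by
    rw [← Matrix.ext_iff, ← Matrix.ext_iff]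
    refine forall₂_congr fun k l => ?_
    have e : rt i j ((d i : K) * (c : K) * (d j : K)⁻¹) k l =
        d k * ((rt i j c k l : E) : K) * (d l : K)⁻¹ := by
      clear hF inj h hE ht hmul h0
      simp only [rt, tv, Matrix.add_apply, vecMulVec_apply, one_apply, Pi.single_apply]
      split_ifs <;> simp_all
    rw [hF, e]
    simp
  have key : Rg (fun i j => (A i j : Set K)) = (F.comp SpecialLinearGroup.toGL).range := by
    rw [MonoidHom.range_comp, ← sl_gen, Rg, Rg, MonoidHom.map_closure]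
    congr 1
    ext g
    constructor
    · rintro ⟨i, j, p, c, hc, e⟩
      have u : rt i j (⟨_, (h i j p c).1 hc⟩ : E) * rt i j (-⟨_, (h i j p c).1 hc⟩) = 1 := by
        rw [rt, rt, tv_add (by simp [p.symm]), ← Pi.single_add]
        simp [tv]
      refine ⟨⟨_, _, u, mul_eq_one_comm.1 u⟩, ⟨i, j, p, _, trivial, rfl⟩,
        Units.ext (((hr _ i j p _).1 rfl).trans (e.trans ?_).symm)⟩
      congr 1
      simp only [Units.val_inv_eq_inv_val]
      field_simp
    · rintro ⟨g, ⟨i, j, p, c, -, e⟩, rfl⟩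
      refine ⟨i, j, p, _, (h i j p _).2 ?_, (hr g i j p c).1 e⟩
      convert c.2 using 1
      simp only [Units.val_inv_eq_inv_val]
      field_simp
  exact ⟨E, hE, ⟨(MulEquiv.subgroupCongr key).trans ((MonoidHom.ofInjective
    (f := F.comp SpecialLinearGroup.toGL) (inj.comp SpecialLinearGroup.toGL_injective)).symm.trans (SpecialLinearGroup.toLin'_equiv.trans
      ((SpecialLinearGroup.congr_linearEquiv (LinearEquiv.funCongrLeft E E
        (Fintype.equivFin ι).symm)).trans SpecialLinearGroup.toLin'_equiv.symm)))⟩⟩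

end Pool.Agent.Lib.MP_1ae3da_al.WG
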