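import Pool.Agent.Lib.MP_1ae3da_al.V.HmA

/-! The factorisation by the monomial elements. -/

namespace Pool.Agent.Lib.MP_1ae3da_al.WG

open Matrix

variable {ι K : Type} [Fintype ι] [DecidableEq ι] [Field K] [Finite K] {H : Subgroup (GL ι K)}
  {p : ℕ} {s : K}

omit [Finite K] in
theorem hm_tv_inv {l : ι} (c : K) {ψ : ι → K} (h : ψ l = 0) :
    tv (Pi.single l c) ψ * tv (Pi.single l (-c)) ψ = 1 := by
  rw [tv_add (by rw [dotProduct_single, h, zero_mul]), ← Pi.single_add, add_neg_cancel,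
    Pi.single_zero, tv, zero_vecMulVec, add_zero]

omit [Finite K] in
theorem hm_eq (s : K) (i : ι) : hm s i = tv ((s - 1) • Pi.single i 1) (Pi.single i 1) := by
  rw [hm, rt, ← Pi.single_smul, smul_eq_mul, mul_one]

/-- the case of a centre with one coordinate -/
theorem hm_one (hs : Sc p s) (hH : ∀ j, In H (hm s j)) {a α : ι → K} (h1 : α ⬝ᵥ a = 1)
    (h : In H (tv ((s - 1) • a) α)) {i : ι} (hi : ∀ k, k ≠ i → a k = 0) : ∃ m ∈ Mr H,
      (m : Matrix ι ι K) * tv ((s - 1) • a) α = hm s i * (m : Matrix ι ι K) ∧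
      ∀ k, a k = 0 → α k = 0 → (m : Matrix ι ι K) * hm s k = hm s k * (m : Matrix ι ι K) := by
  obtain ⟨s0, s1⟩ := hs.ne one_pos (by norm_num)
  rw [pow_one] at s1
  have s2 : s - 1 ≠ 0 := sub_ne_zero.2 s1
  have ea : a = Pi.single i (a i) := by
    funext k
    by_cases hk : k = i
    · rw [hk, Pi.single_eq_same]
    · rw [Pi.single_eq_of_ne hk, hi k hk]
  have e1 : α i * a i = 1 := by rw [← h1, ← dotProduct_single, ← ea]
  set β : ι → K := α - Pi.single i (α i) with hβ
  have b0 : β i = 0 := by rw [hβ, Pi.sub_apply, Pi.single_eq_same, sub_self]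
  have e2 : tv ((s - 1) • a) α = tv (Pi.single i ((s - 1) * a i)) β * hm s i := by
    rw [hm, rt, tv_mul, dotProduct_single, b0, zero_mul, zero_smul, add_zero]
    ext x y
    by_cases hx : x = i
    · by_cases hy : y = i
      · subst hx hy
        simp only [tv, Matrix.add_apply, vecMulVec_apply, Pi.smul_apply, smul_eq_mul, b0,
          Pi.single_eq_same]
        linear_combination (s - 1) * e1
      · subst hx
        simp [tv, vecMulVec_apply, hβ, hy, mul_assoc]
    · simp [tv, vecMulVec_apply, hx, hi x hx]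
  have h2 : In H (tv (Pi.single i ((s - 1) * a i)) β) := by
    have := h.mul ((hH i).inv (hm_inv s0))
    rwa [e2, mul_assoc, hm_inv s0, mul_one] at this
  have h3 := In.scale s0 (hH i) b0 h2 (x := (s - 1)⁻¹)
    (inv_mem (sub_mem (Subfield.subset_closure rfl) (one_mem _)))
  rw [inv_mul_cancel_left₀ s2] at h3
  obtain ⟨m, hm1, hm2⟩ := In.col s0 s1 hH b0 h3
  refine ⟨m, hm1, ?_, fun k k1 k2 => ?_⟩
  · have e3 := tv_conj (v := (s - 1) • a) (φ := α) (hm_tv_inv (a i) b0)
    have e4 : tv (Pi.single i (-a i)) β * tv (Pi.single i (a i)) β = 1 := by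
      simpa using hm_tv_inv (-a i) b0
    have e5 : β ⬝ᵥ a = 0 := by rw [ea, dotProduct_single, b0, zero_mul]
    have e6 : tv (tv (Pi.single i (a i)) β *ᵥ ((s - 1) • a)) (α ᵥ* tv (Pi.single i (-a i)) β) =
        hm s i := by
      rw [tv_mulVec, vecMul_tv, dotProduct_smul, e5, smul_zero, zero_smul, add_zero,
        dotProduct_single, mul_neg, e1, neg_one_smul, hβ, ← sub_eq_add_neg, sub_sub_cancel, hm, rt]
      ext x y
      by_cases hx : x = i
      · by_cases hy : y = i
        · subst hx hy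
          simp only [tv, Matrix.add_apply, vecMulVec_apply, Pi.smul_apply, smul_eq_mul,
            Pi.single_eq_same]
          linear_combination (s - 1) * e1
        · simp [tv, vecMulVec_apply, hy]
      · simp [tv, vecMulVec_apply, hx, hi x hx]
    rw [hm2, ← e6, ← e3, mul_assoc, e4, mul_one]
  · rw [hm2, ← ea]
    refine hm_comm k1 ?_
    by_cases hk : k = i
    · rw [hk, b0]
    · rw [hβ, Pi.sub_apply, k2, Pi.single_eq_of_ne hk, sub_zero]

theorem hm_ind (hs : Sc p s) (hH : ∀ j, In H (hm s j)) (n : ℕ) : ∀ {a α : ι → K}, α ⬝ᵥ a = 1 →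
    In H (tv ((s - 1) • a) α) → (Function.support a).ncard ≤ n → ∃ m ∈ Mr H, ∃ i,
      (m : Matrix ι ι K) * tv ((s - 1) • a) α = hm s i * (m : Matrix ι ι K) ∧
      ∀ k, a k = 0 → α k = 0 → (m : Matrix ι ι K) * hm s k = hm s k * (m : Matrix ι ι K) := by
  obtain ⟨s0, s1⟩ := hs.ne one_pos (by norm_num)
  rw [pow_one] at s1
  have nz : ∀ {a α : ι → K}, α ⬝ᵥ a = 1 → ∃ i, a i ≠ 0 := fun {a α} h1 => by
    by_contra hc
    have : a = 0 := funext fun i => not_not.1 fun hi => hc ⟨i, hi⟩
    rw [this, dotProduct_zero] at h1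
    exact zero_ne_one h1
  induction n with
  | zero =>
    intro a α h1 _ hn
    obtain ⟨i, hi⟩ := nz h1
    have := (Set.ncard_pos (Set.toFinite _)).2 (⟨i, hi⟩ : (Function.support a).Nonempty)
    omega
  | succ n ih =>
    intro a α h1 h hn
    obtain ⟨i, hi⟩ := nz h1
    by_cases hc : ∀ k, k ≠ i → a k = 0
    · obtain ⟨m, m1, m2⟩ := hm_one hs hH h1 h hc
      exact ⟨m, m1, i, m2⟩
    obtain ⟨k, hk⟩ := not_forall.1 hc
    obtain ⟨hk1, hk2⟩ := Classical.not_imp.1 hk
    obtain ⟨l, c, ψ, l1, l2, l3, l4, l5⟩ := hm_step hs hH h1 h (Ne.symm hk1) hi hk2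
    have u1 := hm_tv_inv c l2
    have u2 : tv (Pi.single l (-c)) ψ * tv (Pi.single l c) ψ = 1 := by
      simpa using hm_tv_inv (-c) l2
    have e1 := tv_conj (v := (s - 1) • a) (φ := α) u1
    rw [mulVec_smul] at e1
    set a' := tv (Pi.single l c) ψ *ᵥ a with ha
    set α' := α ᵥ* tv (Pi.single l (-c)) ψ with hα
    have a1 : ∀ j, j ≠ l → a' j = a j := fun j hj => by
      rw [ha, tv_mulVec, Pi.add_apply, Pi.smul_apply, Pi.single_eq_of_ne hj, smul_zero, add_zero]
    have a2 : a' l = 0 := by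
      rw [ha, tv_mulVec, Pi.add_apply, Pi.smul_apply, Pi.single_eq_same, smul_eq_mul, mul_comm, l5,
        add_neg_cancel]
    have a3 : α' ⬝ᵥ a' = 1 := by
      rw [ha, hα, ← dotProduct_mulVec, mulVec_mulVec, u2, one_mulVec, h1]
    have a4 : (Function.support a').ncard ≤ n := by
      have : (Function.support a').ncard < (Function.support a).ncard := by
        refine Set.ncard_lt_ncard ⟨fun j hj => ?_, fun hj => hj l1 a2⟩ (Set.toFinite _)
        have hl : j ≠ l := fun e => hj (e ▸ a2)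
        exact fun e => hj ((a1 j hl).trans e)
      omega
    obtain ⟨m, m1, j, m2, m3⟩ := ih a3 (e1 ▸ (l4.mul h).mul (l4.inv u1)) a4
    obtain ⟨u, u3, u4⟩ := In.col s0 s1 hH l2 l4
    refine ⟨m * u, mul_mem m1 u3, j, ?_, fun x x1 x2 => ?_⟩
    · rw [Units.val_mul, u4, ← mul_assoc, ← m2, ← e1, mul_assoc, mul_assoc, mul_assoc, u2, mul_one]
    · have hl : x ≠ l := fun e => l1 (e ▸ x1)
      rw [Units.val_mul, u4, mul_assoc, hm_comm (Pi.single_eq_of_ne hl c) (l3 x x2), ← mul_assoc,
        m3 x ((a1 x hl).trans x1), mul_assoc]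
      rw [hα, vecMul_tv, Pi.add_apply, Pi.smul_apply, x2, l3 x x2, smul_zero, add_zero]

/-- hint: page W2; induction on the number of `i` with `a i ≠ 0`; `hm_step`, `In.col`; case (2). -/
theorem hm_conj (hs : Sc p s) (hH : ∀ j, In H (hm s j)) {a α : ι → K} (h1 : α ⬝ᵥ a = 1)
    (h : In H (tv ((s - 1) • a) α)) : ∃ m ∈ Mr H, ∃ i,
      (m : Matrix ι ι K) * tv ((s - 1) • a) α = hm s i * (m : Matrix ι ι K) ∧
      ∀ k, a k = 0 → α k = 0 → (m : Matrix ι ι K) * hm s k = hm s k * (m : Matrix ι ι K) :=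
  hm_ind hs hH _ h1 h le_rfl

omit [Finite K] in
theorem hm_ent (s : K) (j : ι) (g : Matrix ι ι K) (x y : ι) :
    (g * hm s j) x y = g x y * Function.update (1 : ι → K) j s y ∧
      (hm s j * g) x y = Function.update (1 : ι → K) j s x * g x y := by
  rw [hm_diag, mul_diagonal, diagonal_mul]
  exact ⟨rfl, rfl⟩

theorem hm_cols (hs : Sc p s) (hH : ∀ j, In H (hm s j)) {g : GL ι K} (hg : g ∈ H)
    (S : Finset ι) : ∃ m ∈ Mr H, ∃ σ : ι → ι, ∀ j ∈ S, ((m * g : GL ι K) : Matrix ι ι K) * hm s j =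
      hm s (σ j) * ((m * g : GL ι K) : Matrix ι ι K) := by
  obtain ⟨-, s1⟩ := hs.ne one_pos (by norm_num)
  rw [pow_one] at s1
  have s2 : s - 1 ≠ 0 := sub_ne_zero.2 s1
  induction S using Finset.induction_on with
  | empty => exact ⟨1, one_mem _, id, fun j hj => absurd hj (Finset.notMem_empty j)⟩
  | insert j S hj ih =>
    obtain ⟨m, m1, σ, m2⟩ := ih
    have hG : m * g ∈ H := mul_mem (mr_le m1) hg
    generalize hG' : m * g = G at m2 hG
    have e1 := tv_conj (v := (s - 1) • Pi.single j (1 : K)) (φ := Pi.single j 1) G.mul_inv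
    rw [← hm_eq, mulVec_smul] at e1
    have a3 : (Pi.single j (1 : K) ᵥ* ((G⁻¹ : GL ι K) : Matrix ι ι K)) ⬝ᵥ
        ((G : Matrix ι ι K) *ᵥ Pi.single j 1) = 1 := by
      rw [← dotProduct_mulVec, mulVec_mulVec, G.inv_mul, one_mulVec, dotProduct_single,
        Pi.single_eq_same, mul_one]
    obtain ⟨u, u1, i, u2, u3⟩ := hm_conj hs hH a3
      (e1 ▸ ((In.coe.2 hG).mul (hH j)).mul (In.coe.2 (inv_mem hG)))
    refine ⟨u * m, mul_mem u1 m1, Function.update σ j i, fun x hx => ?_⟩
    rw [mul_assoc, hG', Units.val_mul]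
    by_cases hxj : x = j
    · rw [hxj, Function.update_self, ← mul_assoc, ← u2, ← e1, mul_assoc, mul_assoc, mul_assoc,
        G.inv_mul, mul_one]
    · have hx' := m2 x ((Finset.mem_insert.1 hx).resolve_left hxj)
      have hy : hm s x * ((G⁻¹ : GL ι K) : Matrix ι ι K) =
          ((G⁻¹ : GL ι K) : Matrix ι ι K) * hm s (σ x) := by
        rw [Units.eq_inv_mul_iff_mul_eq, ← mul_assoc, hx', mul_assoc, G.mul_inv, mul_one]
      rw [Function.update_of_ne hxj, mul_assoc, hx', ← mul_assoc, u3, mul_assoc]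
      · have := congrFun (congrFun hx' (σ x)) j
        rw [(hm_ent _ _ _ _ _).1, (hm_ent _ _ _ _ _).2, Function.update_of_ne (Ne.symm hxj),
          Function.update_self, Pi.one_apply] at this
        rw [mulVec_single_one, col_apply]
        exact (mul_eq_zero.1 (by linear_combination -this : (s - 1) * _ = 0)).resolve_left s2
      · have := congrFun (congrFun hy j) (σ x)
        rw [(hm_ent _ _ _ _ _).1, (hm_ent _ _ _ _ _).2, Function.update_of_ne (Ne.symm hxj),
          Function.update_self, Pi.one_apply] at this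
        rw [single_one_vecMul, row_apply]
        exact (mul_eq_zero.1 (by linear_combination -this : (s - 1) * _ = 0)).resolve_left s2

/-- hint: induction on a finite set of columns `j`; `g * hm s j * g⁻¹` has centre the column `j`
of `g` and axis the row `j` of `g⁻¹`. -/
theorem fact (hs : Sc p s) (hH : ∀ j, In H (hm s j)) {g : GL ι K} (hg : g ∈ H) :
    ∃ m ∈ Mr H, ∃ σ : Equiv.Perm ι, ∀ i j, i ≠ σ j → ((m * g : GL ι K) : Matrix ι ι K) i j = 0 := by
  obtain ⟨-, s1⟩ := hs.ne one_pos (by norm_num)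
  rw [pow_one] at s1
  have s2 : s - 1 ≠ 0 := sub_ne_zero.2 s1
  obtain ⟨m, m1, σ, m2⟩ := hm_cols hs hH hg Finset.univ
  have inj : Function.Injective σ := fun x y e => by
    by_contra hc
    have e1 := (m2 x (Finset.mem_univ _)).trans (e ▸ (m2 y (Finset.mem_univ _)).symm)
    have e0 : hm s x = hm s y := (Units.mul_right_inj (m * g)).1 e1
    have e2 := congrFun (congrFun e0 x) x
    rw [hm_diag, hm_diag, diagonal_apply_eq, diagonal_apply_eq, Function.update_self,
      Function.update_of_ne hc, Pi.one_apply] at e2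
    exact s1 e2
  refine ⟨m, m1, Equiv.ofBijective σ (Finite.injective_iff_bijective.1 inj), fun i j hij => ?_⟩
  have := congrFun (congrFun (m2 j (Finset.mem_univ _)) i) j
  rw [(hm_ent _ _ _ _ _).1, (hm_ent _ _ _ _ _).2, Function.update_self,
    Function.update_of_ne (show i ≠ σ j from hij), Pi.one_apply] at this
  exact (mul_eq_zero.1 (by linear_combination this : (s - 1) * _ = 0)).resolve_left s2

end Pool.Agent.Lib.MP_1ae3da_al.WG
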