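import Pool.Agent.Lib.MP_1ae3da_al.V.Tv

/-! One step in the reduction of a homology. -/

namespace Pool.Agent.Lib.MP_1ae3da_al.WG

open Matrix

variable {ι K : Type} [Fintype ι] [DecidableEq ι] [Field K] [Finite K] {H : Subgroup (GL ι K)}
  {p : ℕ} {s : K}

/-- elements of a Heisenberg group -/
def hmaG (i : ι) (w β : ι → K) (x y z : K) : Matrix ι ι K :=
  1 + x • vecMulVec w (Pi.single i 1) + y • vecMulVec (Pi.single i 1) β + z • vecMulVec w β

omit [Finite K] in
theorem hma_hm (t : K) (i : ι) :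
    hm t i = 1 + (t - 1) • vecMulVec (Pi.single i 1) (Pi.single i (1 : K)) := by
  rw [hm, rt, tv, ← smul_vecMulVec, ← Pi.single_smul, smul_eq_mul, mul_one]

omit [Finite K] in
theorem hma_mul {i : ι} {w β : ι → K} (hw : w i = 0) (hβ : β i = 0) (h0 : β ⬝ᵥ w = 0)
    (x y z x' y' z' : K) : hmaG i w β x y z * hmaG i w β x' y' z'
      = hmaG i w β (x + x') (y + y') (z + z' + x * y') := by
  simp only [hmaG, mul_add, add_mul, smul_mul_assoc, mul_smul_comm, one_mul, mul_one,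
    vecMulVec_mul_vecMulVec, single_dotProduct, dotProduct_single, hw, hβ, h0, Pi.single_eq_same,
    zero_smul, one_smul, vecMulVec_zero, smul_zero, mul_zero, add_zero]
  module

omit [Finite K] in
theorem hma_conj {i : ι} {w β : ι → K} (hw : w i = 0) (hβ : β i = 0) (hs : s ≠ 0) (x y z : K) :
    hm s i * hmaG i w β x y z * hm s⁻¹ i = hmaG i w β (s⁻¹ * x) (s * y) z := by
  simp only [hma_hm, hmaG, mul_add, add_mul, smul_mul_assoc, mul_smul_comm, one_mul, mul_one,
    vecMulVec_mul_vecMulVec, single_dotProduct, dotProduct_single, hw, hβ, Pi.single_eq_same,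
    zero_smul, one_smul, vecMulVec_zero, smul_zero, mul_zero, add_zero]
  match_scalars <;> field_simp <;> ring

omit [Finite K] in
theorem hma_start {i : ι} {w β : ι → K} (hβ : β i = 0) (hs : s ≠ 0) {x y : K} (hxy : x * y = 1) :
    tv ((s - 1) • (w + x • Pi.single i 1)) (β + y • Pi.single i 1) * hm s⁻¹ i
      = hmaG i w β (y * (s - 1) * s⁻¹) ((s - 1) * x) (s - 1) := by
  have hx : x ≠ 0 := left_ne_zero_of_mul_eq_one hxy
  obtain rfl : y = x⁻¹ := eq_inv_of_mul_eq_one_right hxy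
  simp only [hma_hm, hmaG, tv, smul_vecMulVec, vecMulVec_smul, add_vecMulVec, vecMulVec_add,
    smul_add, mul_add, add_mul, smul_mul_assoc, mul_smul_comm, one_mul, mul_one,
    vecMulVec_mul_vecMulVec, single_dotProduct, dotProduct_single, hβ, Pi.single_eq_same,
    zero_smul, one_smul, vecMulVec_zero, smul_zero, mul_zero, add_zero]
  match_scalars <;> field_simp <;> ring

omit [Finite K] in
theorem hma_comm {i : ι} {w β : ι → K} (hw : w i = 0) (hβ : β i = 0) (h0 : β ⬝ᵥ w = 0)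
    {x y z x' y' z' : K} (h : In H (hmaG i w β x y z)) (h' : In H (hmaG i w β x' y' z')) :
    In H (tv ((x * y' - x' * y) • w) β) := by
  have inv : ∀ {x y z : K}, In H (hmaG i w β x y z) → In H (hmaG i w β (-x) (-y) (x * y - z)) :=
    fun {x y z} h => h.inv (by
      rw [hma_mul hw hβ h0, add_neg_cancel, add_neg_cancel,
        show z + (x * y - z) + x * -y = 0 by ring]
      simp [hmaG])
  have h1 := ((h.mul h').mul (inv h)).mul (inv h')
  rw [hma_mul hw hβ h0, hma_mul hw hβ h0, hma_mul hw hβ h0] at h1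
  have e : tv ((x * y' - x' * y) • w) β = hmaG i w β (x + x' + -x + -x') (y + y' + -y + -y')
      (z + z' + x * y' + (x * y - z) + (x + x') * -y + (x' * y' - z') + (x + x' + -x) * -y') := by
    simp only [hmaG, tv, smul_vecMulVec]
    module
  rwa [e]

theorem hma_one (hs : Sc p s) {a α : ι → K} (h1 : α ⬝ᵥ a = 1) (h : In H (tv ((s - 1) • a) α))
    {l : ι} (hl : In H (hm s l)) (h0 : α l = 0) : In H (tv (Pi.single l (-a l)) α) := by
  obtain ⟨s0, s1⟩ := hs.ne one_pos (by norm_num)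
  rw [pow_one] at s1
  have s2 : s - 1 ≠ 0 := sub_ne_zero.2 s1
  have key : ∀ v w : ι → K, tv v α * tv w α = tv (v + w + (α ⬝ᵥ w) • v) α := fun v w => by
    rw [tv_mul]
    simp only [tv, add_vecMulVec, smul_vecMulVec, add_assoc]
  have b1 : In H (tv ((s⁻¹ - 1) • a) α) := h.inv (by
    rw [key, dotProduct_smul, h1]
    have : (s - 1) • a + (s⁻¹ - 1) • a + ((s⁻¹ - 1) • (1 : K)) • (s - 1) • a = 0 := by
      funext j
      simp only [Pi.add_apply, Pi.smul_apply, smul_eq_mul, Pi.zero_apply]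
      field_simp
      ring
    rw [this]
    simp [tv])
  have b2 := ((hl.mul h).mul (hl.inv (hm_inv s0))).mul b1
  rw [tv_conj (hm_inv s0), hm_mulVec, vecMul_hm, h0, mul_zero, Pi.single_zero, add_zero, key,
    dotProduct_smul, h1] at b2
  have e : (s - 1) • a + (Pi.single l ((s - 1) * ((s - 1) • a) l) : ι → K) + (s⁻¹ - 1) • a
      + ((s⁻¹ - 1) • (1 : K)) • ((s - 1) • a + (Pi.single l ((s - 1) * ((s - 1) • a) l) : ι → K))
      = (Pi.single l (s⁻¹ * (s - 1) ^ 2 * a l) : ι → K) := by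
    funext j
    by_cases hj : j = l
    · subst hj
      simp only [Pi.add_apply, Pi.smul_apply, Pi.single_eq_same, smul_eq_mul]
      field_simp
      ring
    · simp only [Pi.add_apply, Pi.smul_apply, Pi.single_eq_of_ne hj, smul_eq_mul]
      field_simp
      ring
  rw [e] at b2
  have m : s ∈ Subfield.closure {s} := Subfield.subset_closure rfl
  have b3 := In.scale s0 hl h0 b2 (x := -(s * ((s - 1) ^ 2)⁻¹))
    (neg_mem (mul_mem m (inv_mem (pow_mem (sub_mem m (one_mem _)) 2))))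
  rwa [show -(s * ((s - 1) ^ 2)⁻¹) * (s⁻¹ * (s - 1) ^ 2 * a l) = -a l by field_simp] at b3

theorem hm_step (hs : Sc p s) (hH : ∀ j, In H (hm s j)) {a α : ι → K} (h1 : α ⬝ᵥ a = 1)
    (h : In H (tv ((s - 1) • a) α)) {i k : ι} (hik : i ≠ k) (hi : a i ≠ 0) (hk : a k ≠ 0) :
    ∃ (l : ι) (c : K) (ψ : ι → K), a l ≠ 0 ∧ ψ l = 0 ∧ (∀ j, α j = 0 → ψ j = 0) ∧
      In H (tv (Pi.single l c) ψ) ∧ c * (ψ ⬝ᵥ a) = -a l := by
  have sup : ∀ (φ : ι → K) (l j : ι), φ j = 0 → (φ - Pi.single l (φ l) : ι → K) j = 0 := by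
    intro φ l j hj
    by_cases e : j = l
    · subst e
      simp
    · simp [Pi.single_eq_of_ne e, hj]
  have easy : ∀ l, a l ≠ 0 → a l * α l ≠ 1 →
      ∃ (l : ι) (c : K) (ψ : ι → K), a l ≠ 0 ∧ ψ l = 0 ∧ (∀ j, α j = 0 → ψ j = 0) ∧
        In H (tv (Pi.single l c) ψ) ∧ c * (ψ ⬝ᵥ a) = -a l := by
    intro l hl hne
    by_cases h0 : α l = 0
    · exact ⟨l, -a l, α, hl, h0, fun _ hj => hj, hma_one hs h1 h (hH l) h0, by rw [h1, mul_one]⟩
    · refine ⟨l, _, _, hl, by simp, sup α l, kil_h hs (hH l) h1 (mul_ne_zero hl h0) hne h, ?_⟩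
      rw [sub_dotProduct, h1, single_dotProduct, mul_comm (α l),
        div_mul_cancel₀ _ (sub_ne_zero.2 hne.symm)]
  by_cases e1 : a i * α i = 1
  swap
  · exact easy i hi e1
  by_cases e2 : a k * α k = 1
  swap
  · exact easy k hk e2
  obtain ⟨s0, s1⟩ := hs.ne one_pos (by norm_num)
  rw [pow_one] at s1
  have s2 := (hs.ne two_pos (by norm_num)).2
  have s4 := (hs.ne four_pos (by norm_num)).2
  have s6 := (hs.ne (n := 6) (by norm_num) (by norm_num)).2
  obtain ⟨w, hw⟩ : ∃ w : ι → K, w = a - Pi.single i (a i) := ⟨_, rfl⟩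
  obtain ⟨β, hβ⟩ : ∃ β : ι → K, β = α - Pi.single i (α i) := ⟨_, rfl⟩
  have w0 : w i = 0 := by simp [hw]
  have β0 : β i = 0 := by simp [hβ]
  have wk : w k = a k := by simp [hw, Pi.single_eq_of_ne hik.symm]
  have βk : β k = α k := by simp [hβ, Pi.single_eq_of_ne hik.symm]
  have βa : β ⬝ᵥ a = 0 := by
    rw [hβ, sub_dotProduct, h1, single_dotProduct, mul_comm, e1, sub_self]
  have βw : β ⬝ᵥ w = 0 := by
    rw [hw, dotProduct_sub, βa, dotProduct_single, β0, zero_mul, sub_self]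
  have ea : a = w + a i • Pi.single i 1 := by
    rw [hw, ← Pi.single_smul, smul_eq_mul, mul_one, sub_add_cancel]
  have eα : α = β + α i • Pi.single i 1 := by
    rw [hβ, ← Pi.single_smul, smul_eq_mul, mul_one, sub_add_cancel]
  have g0 := h.mul ((hH i).inv (hm_inv s0))
  have st := hma_start (w := w) β0 s0 e1
  rw [← ea, ← eα] at st
  rw [st] at g0
  have cj : ∀ {x y z : K}, In H (hmaG i w β x y z) → In H (hmaG i w β (s⁻¹ * x) (s * y) z) :=
    fun {x y z} g => hma_conj w0 β0 s0 x y z ▸ ((hH i).mul g).mul ((hH i).inv (hm_inv s0))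
  have t1 := hma_comm w0 β0 βw g0 (cj g0)
  have t2 := hma_comm w0 β0 βw g0 (cj (cj g0))
  obtain ⟨x, hx⟩ : ∃ x : K, x = α i * (s - 1) * s⁻¹ := ⟨_, rfl⟩
  obtain ⟨y, hy⟩ : ∃ y : K, y = (s - 1) * a i := ⟨_, rfl⟩
  have x0 : x ≠ 0 := hx ▸ mul_ne_zero (mul_ne_zero (right_ne_zero_of_mul_eq_one e1)
    (sub_ne_zero.2 s1)) (inv_ne_zero s0)
  have y0 : y ≠ 0 := hy ▸ mul_ne_zero (sub_ne_zero.2 s1) hi
  rw [← hx, ← hy] at t1 t2
  have d0 : x * (s * y) - s⁻¹ * x * y ≠ 0 := by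
    rw [show x * (s * y) - s⁻¹ * x * y = x * y * s⁻¹ * (s ^ 2 - 1) by field_simp]
    exact mul_ne_zero (mul_ne_zero (mul_ne_zero x0 y0) (inv_ne_zero s0)) (sub_ne_zero.2 s2)
  have c0 : s + s⁻¹ ≠ 0 := fun e => s4 (by
    field_simp at e
    linear_combination (s ^ 2 - 1) * e)
  have c1 : s + s⁻¹ ≠ 1 := fun e => s6 (by
    field_simp at e
    linear_combination (s + 1) * (s ^ 3 - 1) * e)
  rw [show x * (s * (s * y)) - s⁻¹ * (s⁻¹ * x) * y = (s + s⁻¹) * (x * (s * y) - s⁻¹ * x * y) by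
    field_simp; ring, mul_smul] at t2
  have kt := kil_t hs (hH k) (by rw [dotProduct_smul, βw, smul_zero])
    (by
      rw [Pi.smul_apply, smul_eq_mul, wk, βk, mul_assoc, e2, mul_one]
      exact d0) c0 c1 t1 t2
  refine ⟨k, _, _, hk, by simp, fun j hj => sup β k j (hβ ▸ sup α i j hj), kt, ?_⟩
  rw [sub_dotProduct, βa, single_dotProduct, βk, mul_comm (α k), e2,
    ← eq_inv_of_mul_eq_one_left e2]
  ring

end Pool.Agent.Lib.MP_1ae3da_al.WG
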