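import Pool.Agent.Lib.MP_1ae3da_al.V.P1

/-! Killing a coordinate. -/

namespace Pool.Agent.Lib.MP_1ae3da_al.WG

open Matrix

variable {ι K : Type} [Fintype ι] [DecidableEq ι] [Field K] [Finite K] {H : Subgroup (GL ι K)}
  {p : ℕ} {s : K} {i : ι}

omit [Finite K] in
theorem kil_mul {J : Matrix ι (Fin 2) K} {P : Matrix (Fin 2) ι K} (hPJ : P * J = 1)
    (m n : Matrix (Fin 2) (Fin 2) K) :
    (1 + J * (m - 1) * P) * (1 + J * (n - 1) * P) = 1 + J * (m * n - 1) * P := by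
  have h : J * (m - 1) * P * (J * (n - 1) * P) = J * ((m - 1) * (n - 1)) * P := by
    calc J * (m - 1) * P * (J * (n - 1) * P) = J * (m - 1) * (P * J) * (n - 1) * P := by
          simp only [Matrix.mul_assoc]
      _ = _ := by rw [hPJ, Matrix.mul_one]; simp only [Matrix.mul_assoc]
  have h2 : m * n - 1 = (n - 1) + (m - 1) + (m - 1) * (n - 1) := by noncomm_ring
  rw [add_mul, mul_add, mul_add, h, h2, Matrix.mul_add, Matrix.mul_add, Matrix.add_mul,
    Matrix.add_mul]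
  simp only [Matrix.one_mul, Matrix.mul_one]
  abel

/-- the preimage of `H` in the general linear group of rank two -/
def kilG (H : Subgroup (GL ι K)) {J : Matrix ι (Fin 2) K} {P : Matrix (Fin 2) ι K}
    (hPJ : P * J = 1) : Subgroup (GL (Fin 2) K) where
  carrier := {g | In H (1 + J * ((g : Matrix (Fin 2) (Fin 2) K) - 1) * P)}
  one_mem' := by
    show In H (1 + J * (((1 : GL (Fin 2) K) : Matrix (Fin 2) (Fin 2) K) - 1) * P)
    rw [Units.val_one, sub_self, Matrix.mul_zero, Matrix.zero_mul, add_zero]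
    exact In.one
  mul_mem' := by
    intro a b ha hb
    show In H (1 + J * (((a * b : GL (Fin 2) K) : Matrix (Fin 2) (Fin 2) K) - 1) * P)
    rw [Units.val_mul, ← kil_mul hPJ]
    exact In.mul ha hb
  inv_mem' := by
    intro a ha
    refine In.inv ha ?_
    rw [kil_mul hPJ, Units.mul_inv, sub_self, Matrix.mul_zero, Matrix.zero_mul, add_zero]

omit [Finite K] in
theorem kil_iff {J : Matrix ι (Fin 2) K} {P : Matrix (Fin 2) ι K} (hPJ : P * J = 1)
    (a b : Fin 2 → K) : In (kilG H hPJ) (tv a b) ↔ In H (tv (J *ᵥ a) (b ᵥ* P)) := by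
  have e : 1 + J * (tv a b - 1) * P = tv (J *ᵥ a) (b ᵥ* P) := by
    rw [tv, tv, add_sub_cancel_left, Matrix.mul_vecMulVec, Matrix.vecMulVec_mul]
  constructor
  · rintro ⟨g, hg, hg2⟩
    rw [← e, ← hg2]
    exact hg
  · intro h
    obtain ⟨g, hg, hg2⟩ := h
    have h1 : (g : Matrix ι ι K) * J = J * tv a b := by
      rw [hg2, ← e, Matrix.add_mul, Matrix.one_mul, Matrix.mul_assoc _ P J, hPJ, Matrix.mul_one,
        Matrix.mul_sub, Matrix.mul_one, add_sub_cancel]
    have h2 : P * ((g⁻¹ : GL ι K) : Matrix ι ι K) * J * tv a b = 1 := by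
      rw [Matrix.mul_assoc _ J, ← h1, ← Matrix.mul_assoc, Matrix.mul_assoc P, Units.inv_mul,
        Matrix.mul_one, hPJ]
    refine ⟨⟨tv a b, _, mul_eq_one_comm.1 h2, h2⟩, ?_, rfl⟩
    show In H (1 + J * (tv a b - 1) * P)
    rw [e]
    exact ⟨g, hg, hg2⟩

theorem kil_core (hs : Sc p s) (hi : In H (hm s i)) {w ψ : ι → K} (hw : w i = 0) (hψ : ψ i = 0)
    (h1 : ψ ⬝ᵥ w = 1) {x : K} (hx : x ≠ 0)
    (h : (∃ κ c : K, κ ≠ 0 ∧ c ≠ 0 ∧ c ≠ 1 ∧
        In H (tv (Pi.single i x + w) (Pi.single i κ - (κ * x) • ψ)) ∧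
        In H (tv (c • (Pi.single i x + w)) (Pi.single i κ - (κ * x) • ψ))) ∨
      ∃ y : K, y ≠ 0 ∧ x * y ≠ 1 ∧
        In H (tv ((s - 1) • (Pi.single i x + w)) (Pi.single i y + (1 - x * y) • ψ))) :
    In H (tv (Pi.single i (-x)) ψ) := by
  let P : Matrix (Fin 2) ι K := Matrix.of ![Pi.single i 1, ψ]
  let J : Matrix ι (Fin 2) K := (Matrix.of ![Pi.single i 1, w])ᵀ
  have hPJ : P * J = 1 := by
    ext a b
    have e : (P * J) a b = (![Pi.single i 1, ψ] a) ⬝ᵥ (![Pi.single i 1, w] b) := rfl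
    rw [e]
    fin_cases a <;> fin_cases b <;> simp [hw, hψ, h1]
  have hJ : ∀ a b : K, J *ᵥ ![a, b] = Pi.single i a + b • w := by
    intro a b
    ext k
    by_cases hk : k = i <;>
      simp [J, Matrix.mulVec, dotProduct, Fin.sum_univ_two, hk, hw, mul_comm]
  have hP : ∀ a b : K, ![a, b] ᵥ* P = Pi.single i a + b • ψ := by
    intro a b
    ext k
    by_cases hk : k = i <;>
      simp [P, Matrix.vecMul, dotProduct, Fin.sum_univ_two, hk, hψ]
  have e1 : (!![s, 0; 0, 1] : Matrix (Fin 2) (Fin 2) K) = tv ![s - 1, 0] ![1, 0] := by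
    ext a b
    fin_cases a <;> fin_cases b <;> simp [tv, vecMulVec]
  have e2 : (!![1, -x; 0, 1] : Matrix (Fin 2) (Fin 2) K) = tv ![-x, 0] ![0, 1] := by
    ext a b
    fin_cases a <;> fin_cases b <;> simp [tv, vecMulVec]
  have key := rk1 hs (kilG H hPJ) (x := x) (by
    rw [e1, kil_iff, hJ, hP, zero_smul, zero_smul, add_zero, add_zero]
    exact hi) hx (by
    rcases h with ⟨κ, c, k0, c0, c1, ha, hb⟩ | ⟨y, y0, y1, ha⟩
    · refine Or.inl ⟨κ, c, k0, c0, c1, ?_, ?_⟩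
      · rw [kil_iff, Matrix.smul_vecMul, hJ, hP, one_smul]
        convert ha using 2
        ext k
        by_cases hk : k = i <;> simp [hk, hψ, mul_assoc]
      · rw [kil_iff, Matrix.smul_vecMul, Matrix.mulVec_smul, hJ, hP, one_smul]
        convert hb using 2
        ext k
        by_cases hk : k = i <;> simp [hk, hψ, mul_assoc]
    · refine Or.inr ⟨y, y0, y1, ?_⟩
      rw [kil_iff, Matrix.mulVec_smul, hJ, hP, one_smul]
      exact ha)
  rw [e2, kil_iff, hJ, hP, zero_smul, add_zero, one_smul, Pi.single_zero, zero_add] at key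
  exact key

omit [Finite K] in
theorem kil_dot (v φ : ι → K) :
    (φ - Pi.single i (φ i)) ⬝ᵥ (v - Pi.single i (v i)) = φ ⬝ᵥ v - v i * φ i := by
  simp [sub_dotProduct, dotProduct_sub, mul_comm]

/-- hint: `J` with columns `e i`, `w = v - v i e i`; `P` with rows `e i`, `(φ - φ i e i) / φ w`;
`ρ m = 1 + J (m - 1) P` is a monoid hom; `rk1` for the preimage of `H`, `x = v i`. -/
theorem kil_t (hs : Sc p s) (hi : In H (hm s i)) {v φ : ι → K} {c : K} (h0 : φ ⬝ᵥ v = 0)
    (hv : v i * φ i ≠ 0) (c0 : c ≠ 0) (c1 : c ≠ 1) (h1 : In H (tv v φ))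
    (h2 : In H (tv (c • v) φ)) :
    In H (tv (Pi.single i (φ i)⁻¹) (φ - Pi.single i (φ i))) := by
  have v0 : v i ≠ 0 := left_ne_zero_of_mul hv
  have f0 : φ i ≠ 0 := right_ne_zero_of_mul hv
  have ev : Pi.single i (v i) + (v - Pi.single i (v i)) = v := add_sub_cancel _ _
  have ef : Pi.single i (φ i) - (φ i * v i) • ((-(v i * φ i))⁻¹ • (φ - Pi.single i (φ i))) = φ := by
    have : φ i * v i * (-(v i * φ i))⁻¹ = -1 := by field_simp
    rw [smul_smul, this, neg_smul, one_smul, sub_neg_eq_add, add_sub_cancel]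
  have key := kil_core hs hi (w := v - Pi.single i (v i))
    (ψ := (-(v i * φ i))⁻¹ • (φ - Pi.single i (φ i))) (by simp) (by simp)
    (by rw [smul_dotProduct, kil_dot, h0, zero_sub, smul_eq_mul, inv_mul_cancel₀ (neg_ne_zero.2 hv)])
    v0 (Or.inl ⟨φ i, c, f0, c0, c1, by rw [ev, ef]; exact h1, by rw [ev, ef]; exact h2⟩)
  rw [← tv_smul, ← Pi.single_smul, smul_eq_mul] at key
  have : (-(v i * φ i))⁻¹ * -v i = (φ i)⁻¹ := by field_simp
  rwa [this] at key

theorem kil_h (hs : Sc p s) (hi : In H (hm s i)) {a α : ι → K} (h1 : α ⬝ᵥ a = 1)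
    (h0 : a i * α i ≠ 0) (hne : a i * α i ≠ 1) (h : In H (tv ((s - 1) • a) α)) :
    In H (tv (Pi.single i (-a i / (1 - a i * α i))) (α - Pi.single i (α i))) := by
  have v0 : a i ≠ 0 := left_ne_zero_of_mul h0
  have f0 : α i ≠ 0 := right_ne_zero_of_mul h0
  have d0 : 1 - a i * α i ≠ 0 := sub_ne_zero.2 hne.symm
  have ev : Pi.single i (a i) + (a - Pi.single i (a i)) = a := add_sub_cancel _ _
  have ef : Pi.single i (α i) +
      (1 - a i * α i) • ((1 - a i * α i)⁻¹ • (α - Pi.single i (α i))) = α := by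
    rw [smul_smul, mul_inv_cancel₀ d0, one_smul, add_sub_cancel]
  have key := kil_core hs hi (w := a - Pi.single i (a i))
    (ψ := (1 - a i * α i)⁻¹ • (α - Pi.single i (α i))) (by simp) (by simp)
    (by rw [smul_dotProduct, kil_dot, h1, smul_eq_mul, inv_mul_cancel₀ d0])
    v0 (Or.inr ⟨α i, f0, hne, by rw [ev, ef]; exact h⟩)
  rw [← tv_smul, ← Pi.single_smul, smul_eq_mul] at key
  have : (1 - a i * α i)⁻¹ * -a i = -a i / (1 - a i * α i) := by field_simp
  rwa [this] at key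

end Pool.Agent.Lib.MP_1ae3da_al.WG
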