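import Mathlib

/-! The hypotheses of the Bruhat type lift through a central kernel of coprime order. -/

namespace Pool.Agent.Lib.MP_1ae3da_al.WG

section
variable {q : ℕ} {Y S : Type} [Group Y] [Group S] {f : Y →* S}

theorem lfa_one (hq : q.Prime) (h : ¬ q ∣ Nat.card f.ker) {z : Y} (hz : f z = 1) {k : ℕ}
    (hk : z ^ q ^ k = 1) : z = 1 := by
  have h1 : orderOf z ∣ Nat.card f.ker := Subgroup.orderOf_dvd_natCard _ (MonoidHom.mem_ker.2 hz)
  have h2 : (q ^ k).Coprime (Nat.card f.ker) := (hq.coprime_iff_not_dvd.2 h).pow_left k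
  exact orderOf_eq_one_iff.1 (Nat.eq_one_of_dvd_coprimes h2 (orderOf_dvd_of_pow_eq_one hk) h1)

theorem lfa_pow {P : Subgroup Y} (hP : IsPGroup q P) {x : Y} (hx : x ∈ P) :
    ∃ k, x ^ q ^ k = 1 := by
  obtain ⟨k, hk⟩ := hP ⟨x, hx⟩
  exact ⟨k, congrArg Subtype.val hk⟩

theorem lfa_inj (hq : q.Prime) (h : ¬ q ∣ Nat.card f.ker) {P : Subgroup Y} (hP : IsPGroup q P)
    {x y : Y} (hx : x ∈ P) (hy : y ∈ P) (e : f x = f y) : x = y := by
  obtain ⟨k, hk⟩ := lfa_pow hP (mul_mem hx (inv_mem hy))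
  exact mul_inv_eq_one.1 (lfa_one hq h (by simp [e]) hk)

theorem lfa_mem (hq : q.Prime) (hk : f.ker = Subgroup.center Y) (h : ¬ q ∣ Nat.card f.ker)
    {P : Subgroup Y} (hP : IsPGroup q P) {x : Y} {k : ℕ} (hx : x ^ q ^ k = 1)
    (hm : f x ∈ P.map f) : x ∈ P := by
  obtain ⟨a, ha, e⟩ := hm
  obtain ⟨j, hj⟩ := lfa_pow hP ha
  have h1 : f (a⁻¹ * x) = 1 := by simp [e]
  have h2 : a⁻¹ * x ∈ Subgroup.center Y := hk ▸ MonoidHom.mem_ker.2 h1
  have h3 : Commute a (a⁻¹ * x) := Subgroup.mem_center_iff.1 h2 a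
  have h4 : (a⁻¹ * x) ^ q ^ (k + j) = 1 := by
    have h5 := h3.mul_pow (q ^ (k + j))
    rw [mul_inv_cancel_left, pow_add, pow_mul x, hx, one_pow, mul_comm (q ^ k), pow_mul a, hj,
      one_pow, one_mul, mul_comm (q ^ j), ← pow_add] at h5
    exact h5.symm
  rw [← inv_mul_eq_one.1 (lfa_one hq h h1 h4)]
  exact ha

theorem lfa_nrm (hq : q.Prime) (hf : Function.Surjective f) (hk : f.ker = Subgroup.center Y)
    (h : ¬ q ∣ Nat.card f.ker) {P : Subgroup Y} (hP : IsPGroup q P) :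
    Subgroup.normalizer (P : Set Y) = (Subgroup.normalizer (P.map f : Set S)).comap f := by
  have h1 : ∀ n : Y, f n ∈ Subgroup.normalizer (P.map f : Set S) → ∀ a ∈ P, n * a * n⁻¹ ∈ P := by
    intro n hn a ha
    obtain ⟨k, e⟩ := lfa_pow hP ha
    refine lfa_mem hq hk h hP (k := k) (by rw [conj_pow, e, mul_one, mul_inv_cancel]) ?_
    rw [map_mul, map_mul, map_inv]
    exact (Subgroup.mem_normalizer_iff.1 hn _).1 (Subgroup.mem_map_of_mem f ha)
  have h2 : ∀ n ∈ Subgroup.normalizer (P : Set Y), ∀ a ∈ P.map f, f n * a * (f n)⁻¹ ∈ P.map f := by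
    rintro n hn _ ⟨a, ha, rfl⟩
    exact ⟨n * a * n⁻¹, (Subgroup.mem_normalizer_iff.1 hn a).1 ha, by simp⟩
  ext n
  rw [Subgroup.mem_comap]
  constructor
  · intro hn
    refine Subgroup.mem_normalizer_iff.2 fun a => ⟨h2 n hn a, fun ha => ?_⟩
    have := h2 n⁻¹ (inv_mem hn) _ ha
    simpa [mul_assoc] using this
  · intro hn
    refine Subgroup.mem_normalizer_iff.2 fun a => ⟨h1 n hn a, fun ha => ?_⟩
    have := h1 n⁻¹ (by rw [map_inv]; exact inv_mem hn) _ ha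
    simpa [mul_assoc] using this

theorem lfa_aut (hf : Function.Surjective f) (hk : f.ker = Subgroup.center Y) (γ : MulAut Y) :
    ∃ δ : MulAut S, ∀ y, δ (f y) = f (γ y) := by
  have h1 : ∀ (g : MulAut Y) a b, f a = f b → f (g a) = f (g b) := by
    intro g a b e
    have h2 : a * b⁻¹ ∈ Subgroup.center Y := hk ▸ MonoidHom.mem_ker.2 (by simp [e])
    have h3 : g (a * b⁻¹) ∈ Subgroup.center Y := Subgroup.mem_center_iff.2 fun y => by
      obtain ⟨y, rfl⟩ := g.surjective y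
      rw [← map_mul, ← map_mul, Subgroup.mem_center_iff.1 h2 y]
    rw [← hk, MonoidHom.mem_ker, map_mul, map_mul, map_inv, map_inv] at h3
    exact mul_inv_eq_one.1 h3
  have h4 : ∀ (g : MulAut Y) a, f (g (Function.surjInv hf (f a))) = f (g a) := fun g a =>
    h1 g _ _ (Function.surjInv_eq hf _)
  refine ⟨⟨⟨fun s => f (γ (Function.surjInv hf s)), fun s => f (γ.symm (Function.surjInv hf s)),
    fun s => ?_, fun s => ?_⟩, fun a b => ?_⟩, fun y => h4 γ y⟩
  · obtain ⟨y, rfl⟩ := hf s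
    simp only [h4, MulEquiv.symm_apply_apply]
  · obtain ⟨y, rfl⟩ := hf s
    simp only [h4, MulEquiv.apply_symm_apply]
  · obtain ⟨a, rfl⟩ := hf a
    obtain ⟨b, rfl⟩ := hf b
    change f (γ (Function.surjInv hf (f a * f b))) =
      f (γ (Function.surjInv hf (f a))) * f (γ (Function.surjInv hf (f b)))
    rw [← map_mul f a b, h4, h4, h4, map_mul, map_mul]

end

/-- hint: `f` is injective on Sylow `p`- and `r`-subgroups; `D' = D.comap f ⊓ R'`; an automorphism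
of `Y` keeps the centre, which is `f.ker`, and so descends. -/
theorem hyp_lift {p r : ℕ} [Fact p.Prime] [Fact r.Prime] {Y S : Type} [Group Y] [Finite Y]
    [Group S] (f : Y →* S) (hf : Function.Surjective f) (hk : f.ker = Subgroup.center Y)
    (h1 : ¬ p ∣ Nat.card f.ker) (h2 : ¬ r ∣ Nat.card f.ker) (R : Sylow p S) (U : Sylow r S)
    (D : Subgroup S) (hDR : D ≤ R) (hab : ∀ x ∈ D, ∀ y ∈ D, x * y = y * x)
    (hst : ∀ γ : MulAut S, (∀ x, γ x ∈ R ↔ x ∈ R) → ∀ x, γ x ∈ D ↔ x ∈ D)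
    (hDU : D ≤ Subgroup.normalizer (U : Set S))
    (hB : ∀ x, ∃ u ∈ U, ∃ n ∈ Subgroup.normalizer (D : Set S), ∃ v ∈ U, x = u * n * v)
    (hc : ∀ u ∈ U, u ≠ 1 → D.relIndex R ^ 2 < (Subgroup.centralizer {u}).relIndex D) :
    ∃ (R' : Sylow p Y) (U' : Sylow r Y) (D' : Subgroup Y), D' ≤ R' ∧
      (∀ x ∈ D', ∀ y ∈ D', x * y = y * x) ∧
      (∀ γ : MulAut Y, (∀ x, γ x ∈ R' ↔ x ∈ R') → ∀ x, γ x ∈ D' ↔ x ∈ D') ∧
      D' ≤ Subgroup.normalizer (U' : Set Y) ∧
      (∀ x, ∃ u ∈ U', ∃ n ∈ Subgroup.normalizer (D' : Set Y), ∃ v ∈ U', x = u * n * v) ∧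
      (∀ u ∈ U', u ≠ 1 → D'.relIndex R' ^ 2 < (Subgroup.centralizer {u}).relIndex D') ∧
      Subgroup.normalizer (D' : Set Y) = (Subgroup.normalizer (D : Set S)).comap f := by
  have hp : p.Prime := Fact.out
  have hr : r.Prime := Fact.out
  obtain ⟨R', hR⟩ := Sylow.mapSurjective_surjective hf p R
  obtain ⟨U', hU⟩ := Sylow.mapSurjective_surjective hf r U
  have eR : (R' : Subgroup Y).map f = R := by rw [← hR, Sylow.coe_mapSurjective]
  have eU : (U' : Subgroup Y).map f = U := by rw [← hU, Sylow.coe_mapSurjective]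
  have eD : (D.comap f ⊓ R').map f = D := by
    refine le_antisymm ?_ fun d hd => ?_
    · rintro _ ⟨a, ha, rfl⟩
      exact ha.1
    · have h3 : d ∈ (R' : Subgroup Y).map f := eR ▸ hDR hd
      obtain ⟨a, ha, rfl⟩ := h3
      exact ⟨a, ⟨hd, ha⟩, rfl⟩
  have nD := lfa_nrm hp hf hk h1 (R'.isPGroup'.to_le (inf_le_right (a := D.comap f)))
  have nU := lfa_nrm hr hf hk h2 U'.isPGroup'
  rw [eD] at nD
  rw [eU] at nU
  have hn : D.comap f ⊓ R' ≤ Subgroup.normalizer (U' : Set Y) := fun x hx => by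
    change x ∈ Subgroup.normalizer ((U' : Subgroup Y) : Set Y)
    rw [nU]
    exact hDU hx.1
  refine ⟨R', U', D.comap f ⊓ R', inf_le_right, fun x hx y hy => ?_, fun γ hγ x => ?_, hn,
    fun x => ?_, fun u hu h0 => ?_, nD⟩
  · refine lfa_inj hp h1 R'.isPGroup' (mul_mem hx.2 hy.2) (mul_mem hy.2 hx.2) ?_
    rw [map_mul, map_mul, hab _ hx.1 _ hy.1]
  · obtain ⟨δ, hδ⟩ := lfa_aut hf hk γ
    have h3 : ∀ s, δ s ∈ R ↔ s ∈ R := fun s => by
      change δ s ∈ (R : Subgroup S) ↔ s ∈ (R : Subgroup S)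
      rw [← eR]
      constructor
      · rintro ⟨a, ha, e⟩
        obtain ⟨b, rfl⟩ := γ.surjective a
        exact ⟨b, (hγ b).1 ha, δ.injective ((hδ b).trans e)⟩
      · rintro ⟨a, ha, rfl⟩
        exact ⟨γ a, (hγ a).2 ha, (hδ a).symm⟩
    rw [Subgroup.mem_inf, Subgroup.mem_inf, Subgroup.mem_comap, Subgroup.mem_comap, ← hδ,
      hst δ h3]
    exact and_congr Iff.rfl (hγ x)
  · obtain ⟨u, hu, n, hn, v, hv, e⟩ := hB (f x)
    have h3 : u ∈ (U' : Subgroup Y).map f := eU ▸ hu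
    have h4 : v ∈ (U' : Subgroup Y).map f := eU ▸ hv
    obtain ⟨a, ha, rfl⟩ := h3
    obtain ⟨b, hb, rfl⟩ := h4
    refine ⟨a, ha, a⁻¹ * x * b⁻¹, ?_, b, hb, by group⟩
    rw [nD, Subgroup.mem_comap, map_mul, map_mul, map_inv, map_inv, e]
    simpa [mul_assoc] using hn
  · have h3 : f u ∈ U := by
      change f u ∈ (U : Subgroup S)
      rw [← eU]
      exact Subgroup.mem_map_of_mem f hu
    have h4 : f u ≠ 1 := fun e =>
      h0 (lfa_inj hr h2 U'.isPGroup' hu (one_mem _) (e.trans f.map_one.symm))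
    have h5 := hc _ h3 h4
    have h6 : (Subgroup.centralizer {f u}).comap f ⊓ (D.comap f ⊓ R') =
        Subgroup.centralizer {u} ⊓ (D.comap f ⊓ R') := by
      ext d
      simp only [Subgroup.mem_inf, Subgroup.mem_comap, Subgroup.mem_centralizer_singleton_iff]
      refine and_congr_left fun hd => ⟨fun e => ?_, fun e => by rw [← map_mul, ← map_mul, e]⟩
      have h7 : d * u * d⁻¹ ∈ U' := (Subgroup.mem_normalizer_iff.1 (hn hd) u).1 hu
      have h8 := lfa_inj hr h2 U'.isPGroup' h7 hu (by simp [e])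
      exact mul_inv_eq_iff_eq_mul.1 h8
    rw [Subgroup.inf_relIndex_right, Subgroup.relIndex_comap, eR,
      ← Subgroup.inf_relIndex_right (Subgroup.centralizer {u}), ← h6, Subgroup.inf_relIndex_right,
      Subgroup.relIndex_comap, eD]
    exact h5

end Pool.Agent.Lib.MP_1ae3da_al.WG
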