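import Pool.Agent.Lib.MP_1ae3da_al.V.LfA

/-! The local data lift to a central cover with kernel of order prime to `p` and `r`. -/

namespace Pool.Agent.Lib.MP_1ae3da_al.WG

theorem hyp_lift2 {p r : ℕ} [Fact p.Prime] [Fact r.Prime] {Y S : Type} [Group Y] [Finite Y]
    [Group S] (f : Y →* S) (hf : Function.Surjective f) (hk : f.ker = Subgroup.center Y)
    (h1 : ¬ p ∣ Nat.card f.ker) (h2 : ¬ r ∣ Nat.card f.ker) (R : Sylow p S) (U : Sylow r S)
    (D : Subgroup S) (hDR : D ≤ R) (hab : ∀ x ∈ D, ∀ y ∈ D, x * y = y * x)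
    (hst : ∀ γ : MulAut S, (∀ x, γ x ∈ R ↔ x ∈ R) → ∀ x, γ x ∈ D ↔ x ∈ D)
    (hDU : D ≤ Subgroup.normalizer (U : Set S))
    (hB : ∀ x, ∃ u ∈ U, ∃ n ∈ Subgroup.normalizer (D : Set S), ∃ v ∈ U, x = u * n * v)
    (hc : ∀ u ∈ U, u ≠ 1 → D.relIndex R < (Subgroup.centralizer {u}).relIndex D) :
    ∃ (R' : Sylow p Y) (U' : Sylow r Y) (D' : Subgroup Y), D' ≤ R' ∧
      (∀ x ∈ D', ∀ y ∈ D', x * y = y * x) ∧
      (∀ γ : MulAut Y, (∀ x, γ x ∈ R' ↔ x ∈ R') → ∀ x, γ x ∈ D' ↔ x ∈ D') ∧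
      D' ≤ Subgroup.normalizer (U' : Set Y) ∧
      (∀ x, ∃ u ∈ U', ∃ n ∈ Subgroup.normalizer (D' : Set Y), ∃ v ∈ U', x = u * n * v) ∧
      (∀ u ∈ U', u ≠ 1 → D'.relIndex R' < (Subgroup.centralizer {u}).relIndex D') ∧
      Subgroup.normalizer (D' : Set Y) = (Subgroup.normalizer (D : Set S)).comap f := by
  have hp : p.Prime := Fact.out
  have hr : r.Prime := Fact.out
  obtain ⟨R', hR⟩ := Sylow.mapSurjective_surjective hf p R
  obtain ⟨U', hU⟩ := Sylow.mapSurjective_surjective hf r U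
  have eR : (R' : Subgroup Y).map f = R := by rw [← hR, Sylow.coe_mapSurjective]
  have eU : (U' : Subgroup Y).map f = U := by rw [← hU, Sylow.coe_mapSurjective]
  have eD : (D.comap f ⊓ R').map f = D := by
    refine le_antisymm ?_ fun d hd => ?_
    · rintro _ ⟨a, ha, rfl⟩
      exact ha.1
    · have h3 : d ∈ (R' : Subgroup Y).map f := eR ▸ hDR hd
      obtain ⟨a, ha, rfl⟩ := h3
      exact ⟨a, ⟨hd, ha⟩, rfl⟩
  have nD := lfa_nrm hp hf hk h1 (R'.isPGroup'.to_le (inf_le_right (a := D.comap f)))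
  have nU := lfa_nrm hr hf hk h2 U'.isPGroup'
  rw [eD] at nD
  rw [eU] at nU
  have hn : D.comap f ⊓ R' ≤ Subgroup.normalizer (U' : Set Y) := fun x hx => by
    change x ∈ Subgroup.normalizer ((U' : Subgroup Y) : Set Y)
    rw [nU]
    exact hDU hx.1
  refine ⟨R', U', D.comap f ⊓ R', inf_le_right, fun x hx y hy => ?_, fun γ hγ x => ?_, hn,
    fun x => ?_, fun u hu h0 => ?_, nD⟩
  · refine lfa_inj hp h1 R'.isPGroup' (mul_mem hx.2 hy.2) (mul_mem hy.2 hx.2) ?_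
    rw [map_mul, map_mul, hab _ hx.1 _ hy.1]
  · obtain ⟨δ, hδ⟩ := lfa_aut hf hk γ
    have h3 : ∀ s, δ s ∈ R ↔ s ∈ R := fun s => by
      change δ s ∈ (R : Subgroup S) ↔ s ∈ (R : Subgroup S)
      rw [← eR]
      constructor
      · rintro ⟨a, ha, e⟩
        obtain ⟨b, rfl⟩ := γ.surjective a
        exact ⟨b, (hγ b).1 ha, δ.injective ((hδ b).trans e)⟩
      · rintro ⟨a, ha, rfl⟩
        exact ⟨γ a, (hγ a).2 ha, (hδ a).symm⟩
    rw [Subgroup.mem_inf, Subgroup.mem_inf, Subgroup.mem_comap, Subgroup.mem_comap, ← hδ,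
      hst δ h3]
    exact and_congr Iff.rfl (hγ x)
  · obtain ⟨u, hu, n, hn, v, hv, e⟩ := hB (f x)
    have h3 : u ∈ (U' : Subgroup Y).map f := eU ▸ hu
    have h4 : v ∈ (U' : Subgroup Y).map f := eU ▸ hv
    obtain ⟨a, ha, rfl⟩ := h3
    obtain ⟨b, hb, rfl⟩ := h4
    refine ⟨a, ha, a⁻¹ * x * b⁻¹, ?_, b, hb, by group⟩
    rw [nD, Subgroup.mem_comap, map_mul, map_mul, map_inv, map_inv, e]
    simpa [mul_assoc] using hn
  · have h3 : f u ∈ U := by
      change f u ∈ (U : Subgroup S)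
      rw [← eU]
      exact Subgroup.mem_map_of_mem f hu
    have h4 : f u ≠ 1 := fun e =>
      h0 (lfa_inj hr h2 U'.isPGroup' hu (one_mem _) (e.trans f.map_one.symm))
    have h5 := hc _ h3 h4
    have h6 : (Subgroup.centralizer {f u}).comap f ⊓ (D.comap f ⊓ R') =
        Subgroup.centralizer {u} ⊓ (D.comap f ⊓ R') := by
      ext d
      simp only [Subgroup.mem_inf, Subgroup.mem_comap, Subgroup.mem_centralizer_singleton_iff]
      refine and_congr_left fun hd => ⟨fun e => ?_, fun e => by rw [← map_mul, ← map_mul, e]⟩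
      have h7 : d * u * d⁻¹ ∈ U' := (Subgroup.mem_normalizer_iff.1 (hn hd) u).1 hu
      have h8 := lfa_inj hr h2 U'.isPGroup' h7 hu (by simp [e])
      exact mul_inv_eq_iff_eq_mul.1 h8
    rw [Subgroup.inf_relIndex_right, Subgroup.relIndex_comap, eR,
      ← Subgroup.inf_relIndex_right (Subgroup.centralizer {u}), ← h6, Subgroup.inf_relIndex_right,
      Subgroup.relIndex_comap, eD]
    exact h5

end Pool.Agent.Lib.MP_1ae3da_al.WG
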