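import Pool.Agent.Lib.MP_1ae3da_al.C2.Bo4

/-! The induction on the group order, with a chosen local subgroup for each simple group. -/

namespace Pool.Agent.Lib.MP_1ae3da_al.WG

open Submodule Pool.Agent.Lib.McK CT

/-- a choice of subgroups that is natural for all isomorphisms of pairs. -/
theorem nat_choice {I : Type} (X : I → Type) [∀ i, Group (X i)] (Q : ∀ i, Subgroup (X i))
    (V : ∀ (Y : Type) [Group Y], Subgroup Y → Prop)
    (hV : ∀ (Y Z : Type) [Group Y] [Group Z] (e : Y ≃* Z) (D : Subgroup Y), V Y D →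
      V Z (D.map e.toMonoidHom))
    (h : ∀ i, ∃ D ≤ Q i, V (X i) D ∧
      ∀ γ : MulAut (X i), (∀ x, γ x ∈ Q i ↔ x ∈ Q i) → ∀ x, γ x ∈ D ↔ x ∈ D) :
    ∃ M : ∀ i, Subgroup (X i), (∀ i, M i ≤ Q i ∧ V (X i) (M i)) ∧ ∀ i j (e : X i ≃* X j),
      (∀ x, e x ∈ Q j ↔ x ∈ Q i) → ∀ x, e x ∈ M j ↔ x ∈ M i := by
  choose M h0 h2 h1 using h
  let s : Setoid I := ⟨fun i j => ∃ e : X i ≃* X j, ∀ x, e x ∈ Q j ↔ x ∈ Q i,
    fun i => ⟨MulEquiv.refl _, fun _ => Iff.rfl⟩,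
    fun ⟨e, he⟩ => ⟨e.symm, fun x => by rw [← he, e.apply_symm_apply]⟩,
    fun ⟨e, he⟩ ⟨f, hf⟩ => ⟨e.trans f, fun x => (hf _).trans (he x)⟩⟩
  let r : I → I := fun i => (Quotient.mk s i).out
  have ex (i) : ∃ e : X (r i) ≃* X i, ∀ x, e x ∈ Q i ↔ x ∈ Q (r i) := Quotient.mk_out (s := s) i
  choose e he using ex
  refine ⟨fun i => (M (r i)).map (e i).toMonoidHom, fun i => ⟨?_, hV _ _ _ _ (h2 _)⟩,
    fun i j f hf => ?_⟩
  · rintro _ ⟨x, hx, rfl⟩
    exact (he i x).2 (h0 _ hx)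
  have key : ∀ k l, k = l → ∀ (a : X k ≃* X i) (b : X l ≃* X j), (∀ x, a x ∈ Q i ↔ x ∈ Q k) →
      (∀ x, b x ∈ Q j ↔ x ∈ Q l) →
      ∀ x, f x ∈ (M l).map b.toMonoidHom ↔ x ∈ (M k).map a.toMonoidHom := by
    rintro k _ rfl a b ha hb x
    rw [Subgroup.mem_map_equiv, Subgroup.mem_map_equiv, ← h1 k ((a.trans f).trans b.symm)
      (fun y => by rw [← hb, ← ha, ← hf]; simp) (a.symm x)]
    simp
  exact key _ _ (congrArg Quotient.out (Quotient.sound (s := s) ⟨f, hf⟩)) _ _ (he i) (he j)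

variable {p : ℕ} {F A : Type} [Field F] [Ring A] [Algebra F A] {GG : Subgroup (RingAut F)}
  {C : ∀ (G : Type) [Group G], Prop}

variable (F A p GG C) in
/-- the input for simple groups. -/
def InS3 : Prop := ∀ (S : Type) [Group S] [Finite S], IsSimpleGroup S → commutator S = ⊤ →
  p ∣ Nat.card S → C S → ∀ Q : Sylow p S, ∃ D : Subgroup S, D ≤ Q ∧ D ≠ ⊥ ∧
    (∀ γ : MulAut S, (∀ x, γ x ∈ Q ↔ x ∈ Q) → ∀ x, γ x ∈ D ↔ x ∈ D) ∧
    ∀ u : S → A, TG F u → ML F p GG (Hm F u ⊤) (Hm F u (Subgroup.normalizer (D : Set S)))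

theorem main3_ind [IsAlgClosed F] [CharZero F] [Fact p.Prime] (hC : Clo p C)
    (h1 : InB1 p F A GG) (h2 : InB2 p F A GG) (h3 : InS3 p F A GG C) (n : ℕ) :
    IH2 F A p GG C n := by
  induction n with
  | zero => intro G _ _ h; omega
  | succ n ihn =>
  intro G _ _ hn hG u hu P
  have ih : IH2 F A p GG C (Nat.card G) := fun G' _ _ h => ihn G' (by omega)
  by_cases hP : Subgroup.normalizer (P : Set G) = ⊤
  · unfold MN
    rw [show Subgroup.normalizer ((P : Subgroup G) : Set G) = ⊤ from hP]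
    exact EB.refl fun γ hγ x hx => (irrP_stb hγ.1.1 hγ.1.2).2 hx
  by_cases hL : ∃ L : Subgroup G, L.Characteristic ∧ L ≠ ⊥ ∧
      Subgroup.normalizer (P : Set G) ⊔ L ≠ ⊤
  · obtain ⟨L, hc, hb, hT⟩ := hL
    have a1 := r2 (GG := GG) hC hG ih hu P L hb
    have a2 := main2_down hC hG ih hu P _ hT le_sup_left
    have s1 : SG GG A ⊓ Stb (Hm F u ⊤) ⊓ Stb (Hm F u P) ≤
        Stb (Hm F u (Subgroup.normalizer (P : Set G) ⊔ L)) :=
      stb_of_inv hu fun φ hφ => by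
        rw [Subgroup.map_sup, main_char φ L]
        exact congrArg (· ⊔ L) (main_map_norm φ P hφ)
    exact (a1.mono (le_inf le_rfl (inf_le_left.trans (stb_char hu L)))).trans
      (a2.mono (le_inf (le_inf (inf_le_left.trans inf_le_left) s1) inf_le_right))
  have hL' : ∀ L : Subgroup G, L.Characteristic → L ≠ ⊥ →
      Subgroup.normalizer (P : Set G) ⊔ L = ⊤ := fun L a b => by
    by_contra c; exact hL ⟨L, a, b, c⟩
  have hop : ∀ N : Subgroup G, N.Normal → IsPGroup p N → N = ⊥ := fun N _ hN => gr_op P hP hL' N hN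
  have hPb : (P : Subgroup G) ≠ ⊥ := fun h => hP (by
    change Subgroup.normalizer ((P : Subgroup G) : Set G) = ⊤
    rw [h]; exact Subgroup.normalizer_eq_top _)
  by_cases hq : ∃ N : Subgroup G, N.Normal ∧ ¬ p ∣ Nat.card N ∧ N ≠ ⊥
  · obtain ⟨N, hN, hN1, hN2⟩ := hq
    obtain ⟨L, hc, hb, hp'⟩ := gr_opp Fact.out N hN2 hN1
    obtain ⟨E, e0, e1, e2, e3, e4, e5, e6, e7⟩ := gr_E P hPb L hp' (hL' L hc hb)
    have hE : Subgroup.normalizer (E : Set G) ≠ ⊤ := fun h =>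
      e0 (hop E (Subgroup.normalizer_eq_top_iff.1 h) (P.isPGroup'.to_le e1))
    refine main2_step hC hG ih hu P L E hE e4 e5 (hL' L hc hb)
      (X := {e | e ∈ IrrP F p (Hm F u L) ∧ E ≤ St u e}) (fun _ h => h.1) ?_ ?_
    · intro f hf e he h
      refine ⟨he, e7 _ ((le_inf_St hu le_top he.1).trans inf_le_right) ?_⟩
      have := (cl_under hu le_top (by rw [Subgroup.normalizer_eq_top]) he.1 hf h).2
      rwa [Subgroup.relIndex_top_right] at this
    · rw [e6]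
      exact (h1 G u hu L E hp' e2 e3).mono
        (le_inf (le_inf inf_le_left (inf_le_left.trans (stb_char hu L))) inf_le_right)
  have hq' : ∀ N : Subgroup G, N.Normal → ¬ p ∣ Nat.card N → N = ⊥ := fun N a b => by
    by_contra c; exact hq ⟨N, a, b, c⟩
  have : Nontrivial G := by
    by_contra hc
    rw [not_nontrivial_iff_subsingleton] at hc
    exact hPb (Subsingleton.elim _ _)
  obtain ⟨I, _, _, S, s1, s2, s3, s4, s5, s6⟩ := gr_soc hop hq'
  obtain ⟨q1, -⟩ := gr_syl S s5 s6 P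
  obtain ⟨i0⟩ := ‹Nonempty I›
  have hLb : (⨆ i, S i) ≠ ⊥ := fun h => by
    have : S i0 = ⊥ := eq_bot_iff.2 (h ▸ le_iSup S i0)
    have h0 := (s4 i0).2.2.1
    rw [this, Subgroup.card_bot, Nat.dvd_one] at h0
    exact (Fact.out : p.Prime).ne_one h0
  choose Q hQ using q1
  have hQ' (i) (x : S i) : x ∈ (Q i : Subgroup (S i)) ↔ (x : G) ∈ (P : Subgroup G) := by
    rw [← Subgroup.mem_map_iff_mem (S i).subtype_injective, hQ]
    exact ⟨fun h => h.1, fun h => ⟨h, x.2⟩⟩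
  have hS (i) : C (S i) := hC.nrm _ _ (hC.nrm G _ hG (⨆ i, S i).subtype
    (Subgroup.subtype_injective _) (by rw [Subgroup.range_subtype]; infer_instance))
    (Subgroup.inclusion (le_iSup S i)) (Subgroup.inclusion_injective _)
    (by rw [Subgroup.inclusion_range]; exact (s4 i).2.2.2)
  obtain ⟨M, m1, m2⟩ := nat_choice (fun i => S i) (fun i => (Q i : Subgroup (S i)))
    (fun Y _ D => D ≠ ⊥ ∧ ∀ v : Y → A, TG F v →
      ML F p GG (Hm F v ⊤) (Hm F v (Subgroup.normalizer (D : Set Y))))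
    (fun Y Z _ _ e D h => ⟨fun k => h.1 ((Subgroup.map_eq_bot_iff_of_injective _ e.injective).1 k),
      fun v hv => by
        have := h.2 (v ∘ e.toMonoidHom) (hv.comp _ e.injective)
        rwa [Hm_comp, Hm_comp, Subgroup.map_top_of_surjective _ e.surjective,
          Subgroup.map_equiv_normalizer_eq] at this⟩)
    fun i => by
      obtain ⟨D, d1, d2, d3, d4⟩ := h3 (S i) (s4 i).1 (s4 i).2.1 (s4 i).2.2.1 (hS i) (Q i)
      exact ⟨D, d1, ⟨d2, d4⟩, d3⟩
  let K : I → Subgroup G := fun i => (M i).map (S i).subtype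
  have hm (i) (x : S i) : (x : G) ∈ K i ↔ x ∈ M i :=
    Subgroup.mem_map_iff_mem (S i).subtype_injective
  have k1 : ∀ i, K i ≤ S i := fun i => Subgroup.map_subtype_le _
  have k2 : (⨆ i, K i) ≤ P := iSup_le fun i x hx =>
    (hQ' i ⟨x, k1 i hx⟩).1 ((m1 i).1 ((hm i ⟨x, k1 i hx⟩).1 hx))
  have k3 : ∀ i, (⨆ j, K j) ⊓ S i = K i := main2_inf S K s5 s6 k1
  have hQb : (⨆ i, K i) ≠ ⊥ := fun h => (m1 i0).2.1
    ((Subgroup.map_eq_bot_iff_of_injective _ (S i0).subtype_injective).1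
      (eq_bot_iff.2 (h ▸ le_iSup K i0)))
  have hinv : ∀ φ : MulAut G, (P : Subgroup G).map φ.toMonoidHom = P →
      (⨆ i, K i).map φ.toMonoidHom = ⨆ i, K i := fun φ h => by
    refine Subgroup.eq_of_le_of_card_ge ?_
      (Nat.card_congr (Subgroup.equivMapOfInjective _ _ φ.injective).toEquiv).le
    rw [Subgroup.map_iSup]
    refine iSup_le fun i => ?_
    obtain ⟨j, hj⟩ := s2 φ i
    refine le_iSup_of_le j ?_
    rintro _ ⟨x, hx, rfl⟩
    exact (hm j (resI φ ((bo_map φ).1 hj) ⟨x, k1 i hx⟩)).2 ((m2 i j _ (fun y => by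
      rw [hQ', hQ']; exact (bo_map φ).1 h y) _).2 ((hm i ⟨x, k1 i hx⟩).1 hx))
  refine main2_step hC hG ih hu P (⨆ i, S i) (⨆ i, K i)
    (fun h => hQb (hop _ (Subgroup.normalizer_eq_top_iff.1 h) (P.isPGroup'.to_le k2)))
    hinv (fun g hg => main2_conj.2 (hinv _ (main2_conj.1 hg))) (hL' _ s3 hLb) le_rfl
    (fun _ _ _ h _ => h) ?_
  rw [normalizer_iSup_eq (hc := fun i j h x y hx hy => s5 i j h x hx y hy) k1 k3]
  refine h2 G I u hu S _ (fun i => inf_le_right) s1 (fun i => (s4 i).2.1) s5 s6 _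
    (inf_le_left.trans inf_le_left) ?_ fun i => ?_
  · rintro γ ⟨⟨⟨σ, -, hσ⟩, g1⟩, g2⟩ i
    obtain ⟨φ, hφ⟩ := exists_aut hu hσ g1
    obtain ⟨j, hj⟩ := s2 φ i
    have g3 := (stb_Hm hu hσ hφ _).1 g2
    refine ⟨j, by rw [image_Hm hσ hφ, hj], ?_⟩
    rw [image_Hm hσ hφ, main_map_inf, hj, Subgroup.map_equiv_normalizer_eq, ← k3 i, main_map_inf,
      g3, hj, k3 j]
  · have := (m1 i).2.2 (u ∘ (S i).subtype) (hu.comp _ (S i).subtype_injective)
    rw [Hm_comp, Hm_comp, ← MonoidHom.range_eq_map, Subgroup.range_subtype] at this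
    have e : M i = (K i).subgroupOf (S i) := Subgroup.ext fun x => (hm i x).symm
    rw [e, main_norm (S i) _ (k1 i)] at this
    exact this

/-- a natural choice gives a choice for each simple group. -/
theorem InS2.sel [Fact p.Prime] {Rt : ∀ (G : Type) [Group G], Subgroup G → Subgroup G}
    (hR : RtOk p Rt) (h : InS2 p F A GG C Rt) : InS3 p F A GG C := by
  intro S _ _ h1 h2 h3 h4 Q
  refine ⟨Rt S Q, hR.le _ _, hR.ne _ _ Q.isPGroup' fun h0 => ?_, fun γ hγ => (bo_map γ).1 ?_,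
    fun u hu => h S h1 h2 h3 h4 u hu Q⟩
  · have := Q.not_dvd_index
    rw [h0, Subgroup.index_bot] at this
    exact this h3
  · rw [← hR.map _ _ γ.toMonoidHom γ.injective, (bo_map γ).2 hγ]

end Pool.Agent.Lib.MP_1ae3da_al.WG
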