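import Pool.Agent.Lib.MP_1ae3da_al.V.Bas
import Pool.Agent.Lib.MP_1ae3da_al.S.Mult
import Pool.Agent.Lib.MP_1ae3da_al.Z.SL0

/-! The characteristic does not divide the order of the multiplier. -/

namespace Pool.Agent.Lib.MP_1ae3da_al.WG

open Matrix CT
open scoped commutatorElement

variable {K X S : Type} [Field K] [Group X] [Group S] {m : ℕ}

/-- the relations between root elements and homologies -/
structure MulaSt {ι : Type} (E : ι → ι → K → S) (H : ι → S) (u : K) : Prop where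
  add : ∀ i j, i ≠ j → ∀ a b, E i j (a + b) = E i j a * E i j b
  com : ∀ i j k l, i ≠ j → k ≠ l → j ≠ k → i ≠ l → ∀ a b, Commute (E i j a) (E k l b)
  rel : ∀ i j k, i ≠ j → j ≠ k → i ≠ k → ∀ a b,
    E i j a * E j k b = E i k (a * b) * (E j k b * E i j a)
  hr : ∀ i k, i ≠ k → ∀ c, H k * E i k c = E i k (u * c) * H k
  hl : ∀ k j, k ≠ j → ∀ c, H k * E k j (u * c) = E k j c * H k
  hc : ∀ i j k, i ≠ j → k ≠ i → k ≠ j → ∀ c, Commute (H k) (E i j c)

theorem mula_comm (π : X →* S) (hs : Function.Surjective π) (hc : π.ker ≤ Subgroup.center X)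
    {A D : X} {b c : S} (h1 : Commute (π A) b) (h2 : Commute (π A) c) (h : π D = ⁅b, c⁆) :
    Commute A D := by
  obtain ⟨B, rfl⟩ := hs b
  obtain ⟨C, rfl⟩ := hs c
  have e1 : ⁅A * B * A⁻¹, A * C * A⁻¹⁆ = ⁅B, C⁆ :=
    uce_comm π hc (by rw [map_mul, map_mul, h1.eq, map_inv, mul_inv_cancel_right])
      (by rw [map_mul, map_mul, h2.eq, map_inv, mul_inv_cancel_right])
  have e2 : Commute A ⁅B, C⁆ := by
    have e : A * ⁅B, C⁆ = ⁅A * B * A⁻¹, A * C * A⁻¹⁆ * A := by group
    rw [e1] at e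
    exact e
  have e3 : ⁅B, C⁆⁻¹ * D ∈ Subgroup.center X :=
    hc (by rw [MonoidHom.mem_ker, map_mul, map_inv, map_commutatorElement, h, inv_mul_cancel])
  have e4 : Commute A (⁅B, C⁆⁻¹ * D) := Subgroup.mem_center_iff.1 e3 A
  have e5 := e2.mul_right e4
  rwa [mul_inv_cancel_left] at e5

namespace MulaSt
variable {ι : Type} {E : ι → ι → K → S} {H : ι → S} {u : K} (h : MulaSt E H u)
include h

theorem cr {i k : ι} (hik : i ≠ k) (c : K) : ⁅H k, E i k c⁆ = E i k ((u - 1) * c) := by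
  rw [commutatorElement_def, h.hr i k hik, show u * c = (u - 1) * c + c by ring, h.add i k hik]
  group

theorem cl {k j : ι} (hkj : k ≠ j) (c : K) : ⁅E k j (u * c), H k⁆ = E k j ((u - 1) * c) := by
  have e1 : E k j (u * c) = E k j ((u - 1) * c) * E k j c := by
    rw [← h.add k j hkj]
    congr 1
    ring
  have e2 : E k j c = H k * E k j (u * c) * (H k)⁻¹ := by rw [h.hl k j hkj, mul_inv_cancel_right]
  have e3 : E k j ((u - 1) * c) = E k j (u * c) * (E k j c)⁻¹ := by rw [e1, mul_inv_cancel_right]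
  rw [e3, e2]
  group

theorem cc {i j k : ι} (hij : i ≠ j) (hjk : j ≠ k) (hik : i ≠ k) (a b : K) :
    ⁅E i j a, E j k b⁆ = E i k (a * b) := by
  rw [commutatorElement_def, h.rel i j k hij hjk hik]
  group

theorem lifts (hu : u ≠ 1) (h3 : ∀ i j : ι, ∃ n, n ≠ i ∧ n ≠ j) (π : X →* S)
    (hs : Function.Surjective π) (hc : π.ker ≤ Subgroup.center X) {i j k l : ι} (hij : i ≠ j)
    (hkl : k ≠ l) (hjk : j ≠ k) (hil : i ≠ l) {a b : K} {A D : X} (hA : π A = E i j a)
    (hD : π D = E k l b) : Commute A D := by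
  have e : b = (u - 1) * (b / (u - 1)) := (mul_div_cancel₀ b (sub_ne_zero.2 hu)).symm
  by_cases h1 : k = i
  · by_cases h2 : l = j
    · subst h1 h2
      obtain ⟨n, n1, n2⟩ := h3 k l
      exact mula_comm π hs hc (hA ▸ h.com k l k n hij n1.symm hjk n1.symm a b)
        (hA ▸ h.com k l n l hij n2 n2.symm hij a 1)
        (by rw [hD, h.cc n1.symm n2 hij, mul_one])
    · exact mula_comm π hs hc (hA ▸ (h.hc i j l hij hil.symm h2 a).symm)
        (hA ▸ h.com i j k l hij hkl hjk hil a _) (by rw [hD, h.cr hkl, ← e])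
  · exact mula_comm π hs hc (hA ▸ h.com i j k l hij hkl hjk hil a _)
      (hA ▸ (h.hc i j k hij h1 hjk.symm a).symm) (by rw [hD, h.cl hkl, ← e])

theorem lift (hu : u ≠ 1) (h3 : ∀ i j : ι, ∃ n, n ≠ i ∧ n ≠ j) (π : X →* S)
    (hs : Function.Surjective π) (hc : π.ker ≤ Subgroup.center X) : ∃ y : ι → ι → K → X,
      (∀ i j, i ≠ j → ∀ c, π (y i j c) = E i j c) ∧
      (∀ i j, i ≠ j → ∀ a b, y i j (a + b) = y i j a * y i j b) ∧
      (∀ i j k l, i ≠ j → k ≠ l → j ≠ k → i ≠ l → ∀ a b, Commute (y i j a) (y k l b)) ∧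
      ∀ i j k, i ≠ j → j ≠ k → i ≠ k → ∀ a b,
        y i j a * y j k b = y i k (a * b) * (y j k b * y i j a) := by
  choose σ hσ using hs
  have hs : Function.Surjective π := fun s => ⟨σ s, hσ s⟩
  have u0 : u - 1 ≠ 0 := sub_ne_zero.2 hu
  have hy : ∀ i j, i ≠ j → ∀ c, π ⁅σ (H j), σ (E i j (c / (u - 1)))⁆ = E i j c := fun i j hij c => by
    rw [map_commutatorElement, hσ, hσ, h.cr hij, mul_div_cancel₀ c u0]
  refine ⟨fun i j c => ⁅σ (H j), σ (E i j (c / (u - 1)))⁆, hy, fun i j hij a b => ?_,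
    fun i j k l hij hkl hjk hil a b => h.lifts hu h3 π hs hc hij hkl hjk hil (hy i j hij a)
      (hy k l hkl b), fun i j k hij hjk hik a b => ?_⟩
  · have e1 : ⁅σ (H j), σ (E i j ((a + b) / (u - 1)))⁆ =
        ⁅σ (H j), σ (E i j (a / (u - 1))) * σ (E i j (b / (u - 1)))⁆ :=
      uce_comm π hc rfl (by rw [map_mul, hσ, hσ, hσ, add_div, h.add i j hij])
    have e2 := h.lifts hu h3 π hs hc hij hij hij.symm hij (hσ (E i j (a / (u - 1)))) (hy i j hij b)
    have e3 : ∀ x p q : X, ⁅x, p * q⁆ = ⁅x, p⁆ * (p * ⁅x, q⁆) * p⁻¹ := fun x p q => by group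
    simp only
    rw [e1, e3, e2.eq]
    group
  · obtain ⟨c, rfl⟩ : ∃ c, b = (u - 1) * c := ⟨b / (u - 1), (mul_div_cancel₀ b u0).symm⟩
    have p1 : ∀ c, π ⁅σ (E i j a), σ (E j k c)⁆ = E i k (a * c) := fun c => by
      rw [map_commutatorElement, hσ, hσ, h.cc hij hjk hik]
    have e1 : ⁅σ (E i j a), σ (E j k (u * c))⁆ =
        ⁅σ (E i j a), σ (E j k ((u - 1) * c)) * σ (E j k c)⁆ :=
      uce_comm π hc rfl (by
        rw [map_mul, hσ, hσ, hσ, ← h.add j k hjk]
        congr 1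
        ring)
    have e2 := h.lifts hu h3 π hs hc hjk hik hik.symm hjk (hσ (E j k ((u - 1) * c))) (p1 c)
    have e3 : ∀ x p q : X, ⁅x, p * q⁆ = ⁅x, p⁆ * (p * ⁅x, q⁆) * p⁻¹ := fun x p q => by group
    have e4 : ⁅σ (H k) * σ (E i j a) * (σ (H k))⁻¹, σ (H k) * σ (E j k c) * (σ (H k))⁻¹⁆ =
        ⁅σ (E i j a), σ (E j k (u * c))⁆ :=
      uce_comm π hc
        (by rw [map_mul, map_mul, map_inv, hσ, hσ, (h.hc i j k hij hik.symm hjk.symm a).eq,
          mul_inv_cancel_right])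
        (by rw [map_mul, map_mul, map_inv, hσ, hσ, hσ, h.hr j k hjk, mul_inv_cancel_right])
    have e5 : ⁅σ (H k), ⁅σ (E i j a), σ (E j k c)⁆⁆ =
        ⁅σ (H k), σ (E i k (a * ((u - 1) * c) / (u - 1)))⁆ :=
      uce_comm π hc rfl (by
        rw [p1, hσ]
        congr 1
        field_simp)
    have e6 : ⁅⁅σ (H j), σ (E i j (a / (u - 1)))⁆, ⁅σ (H k), σ (E j k ((u - 1) * c / (u - 1)))⁆⁆ =
        ⁅σ (E i j a), σ (E j k ((u - 1) * c))⁆ :=
      uce_comm π hc (by rw [hy i j hij, hσ]) (by rw [hy j k hjk, hσ])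
    have e7 : ∀ x p q : X, ⁅x, ⁅p, q⁆⁆ = ⁅x * p * x⁻¹, x * q * x⁻¹⁆ * ⁅p, q⁆⁻¹ := fun x p q => by
      group
    rw [e7, e4, e1, e3, e2.eq, ← mul_assoc, mul_inv_cancel_right, mul_inv_cancel_right, ← e6] at e5
    simp only
    rw [← e5]
    group

end MulaSt

theorem mula_rt {ι : Type} [DecidableEq ι] (i j : ι) (c : K) : rt i j c = 1 + single i j c := by
  rw [rt, tv]
  congr 1
  ext a b
  simp [vecMulVec_apply, Pi.single_apply, single, ite_and, eq_comm]
  split_ifs <;> rfl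

theorem mula_diag {ι : Type} [Fintype ι] [DecidableEq ι] (d : ι → K) (i j : ι) {c c' : K}
    (h : d i * c = c' * d j) :
    diagonal d * (1 + single i j c) = (1 + single i j c') * diagonal d := by
  rw [mul_add, add_mul, mul_one, one_mul]
  congr 1
  ext a b
  rw [diagonal_mul, mul_diagonal, single_apply, single_apply]
  split_ifs with e
  · rw [← e.1, ← e.2, h]
  · simp

/-- hint: page Mul. `σ g` a lift of `f g`; `uce_comm`. -/
theorem mul_lift (hm : 3 ≤ m) (π : X →* S) (hs : Function.Surjective π)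
    (hc : π.ker ≤ Subgroup.center X) (f : SpecialLinearGroup (Fin m) K →* S) {t : K}
    (t0 : t ≠ 0) (ht : t ^ m ≠ 1) : ∃ y : Fin m → Fin m → K → X,
      (∀ i j, i ≠ j → ∀ (c : K) (g : SpecialLinearGroup (Fin m) K), g.1 = rt i j c →
        π (y i j c) = f g) ∧
      (∀ i j, i ≠ j → ∀ a b, y i j (a + b) = y i j a * y i j b) ∧
      (∀ i j k l, i < j → k < l → j ≠ k → i ≠ l → ∀ a b,
        y i j a * y k l b = y k l b * y i j a) ∧
      ∀ i j k, i < j → j < k → ∀ a b, y i j a * y j k b = y i k (a * b) * (y j k b * y i j a) := by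
  have he : ∀ (i j : Fin m) (c : K), ∃ g : SpecialLinearGroup (Fin m) K,
      i ≠ j → g.1 = 1 + single i j c := fun i j c => by
    by_cases hij : i ≠ j
    · exact ⟨SpecialLinearGroup.transvection hij c, fun _ => rfl⟩
    · exact ⟨1, fun h => absurd h hij⟩
  choose e he using he
  have hd : ∀ k : Fin m, ∃ g : SpecialLinearGroup (Fin m) K,
      g.1 = diagonal fun i => if i = k then t / t ^ m else t := fun k => by
    refine ⟨⟨diagonal fun i => if i = k then t / t ^ m else t, ?_⟩, rfl⟩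
    have e1 : (fun i : Fin m => if i = k then t / t ^ m else t) =
        fun i => t * if i = k then (t ^ m)⁻¹ else 1 := by
      funext i
      split_ifs
      · rw [div_eq_mul_inv]
      · rw [mul_one]
    rw [det_diagonal, e1, Finset.prod_mul_distrib, Finset.prod_ite_eq', if_pos (Finset.mem_univ _),
      Finset.prod_const, Finset.card_univ, Fintype.card_fin, mul_inv_cancel₀ (pow_ne_zero _ t0)]
  choose d hd using hd
  have tm := pow_ne_zero m t0
  have st : MulaSt (fun i j c => f (e i j c)) (fun k => f (d k)) (t ^ m) := by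
    refine ⟨fun i j hij a b => ?_, fun i j k l hij hkl hjk hil a b => ?_,
      fun i j k hij hjk hik a b => ?_, fun i k hik c => ?_, fun k j hkj c => ?_,
      fun i j k hij hki hkj c => ?_⟩ <;>
      simp only [Commute, SemiconjBy, ← map_mul] <;> congr 1 <;> apply Subtype.ext <;>
      simp only [Matrix.SpecialLinearGroup.coe_mul]
    · simp [he _ _ _ hij, mul_add, add_mul, single_mul_single_of_ne _ _ _ _ hij.symm, single_add,
        add_assoc, add_comm, add_left_comm]
    · simp [he _ _ _ hij, he _ _ _ hkl, mul_add, add_mul, single_mul_single_of_ne _ _ _ _ hjk,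
        single_mul_single_of_ne _ _ _ _ hil.symm, add_comm, add_left_comm]
    · rw [he _ _ _ hij, he _ _ _ hjk, he _ _ _ hik]
      simp only [mul_add, add_mul, mul_one, one_mul, single_mul_single_of_ne _ _ _ _ hik.symm,
        single_mul_single_of_ne _ _ _ _ hjk.symm, single_mul_single_same, add_zero]
      abel
    · rw [hd, he _ _ _ hik, he _ _ _ hik]
      exact mula_diag _ _ _ (by rw [if_neg hik, if_pos rfl]; field_simp)
    · rw [hd, he _ _ _ hkj, he _ _ _ hkj]
      exact mula_diag _ _ _ (by rw [if_neg hkj.symm, if_pos rfl]; field_simp)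
    · rw [hd, he _ _ _ hij]
      exact mula_diag _ _ _ (by rw [if_neg hki.symm, if_neg hkj.symm, mul_comm])
  obtain ⟨y, y1, y2, y3, y4⟩ := st.lift ht (fun i j => by
    obtain ⟨n, hn⟩ := Finset.exists_mem_notMem_of_card_lt_card (s := {i, j})
      (t := (Finset.univ : Finset (Fin m))) (by
        rw [Finset.card_univ, Fintype.card_fin]
        exact lt_of_le_of_lt Finset.card_le_two (by omega))
    exact ⟨n, by simpa using hn⟩) π hs hc
  refine ⟨y, fun i j hij c g hg => ?_, y2,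
    fun i j k l hij hkl hjk hil a b => (y3 i j k l hij.ne hkl.ne hjk hil a b).eq,
    fun i j k hij hjk => y4 i j k hij.ne hjk.ne (hij.trans hjk).ne⟩
  rw [y1 i j hij]
  exact congrArg f (Subtype.ext (by rw [he _ _ _ hij, hg, mula_rt]))

end Pool.Agent.Lib.MP_1ae3da_al.WG
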