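import Pool.Agent.Lib.MP_1ae3da_al.V.CntA
import Pool.Agent.Lib.MP_1ae3da_al.V.Bas

/-! Finite subgroups of `GL 2` over an algebraically closed field acting on the projective line. -/

namespace Pool.Agent.Lib.MP_1ae3da_al.WG

open Matrix Projectivization
open scoped LinearAlgebra.Projectivization

variable {F : Type} [Field F]

/-- determinant of two vectors -/
def p1d (v w : Fin 2 → F) : F := v 0 * w 1 - v 1 * w 0

/-- the transvections with centre `v` -/
def p1T (v : Fin 2 → F) (c : F) : Matrix (Fin 2) (Fin 2) F :=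
  !![1 - c * v 0 * v 1, c * v 0 ^ 2; -(c * v 1 ^ 2), 1 + c * v 0 * v 1]

theorem p1_mk {v w : Fin 2 → F} (hv : v ≠ 0) (hw : w ≠ 0) :
    mk F v hv = mk F w hw ↔ p1d v w = 0 := by
  rw [mk_eq_mk_iff']
  constructor
  · rintro ⟨a, rfl⟩
    simp only [p1d, Pi.smul_apply, smul_eq_mul]
    ring
  · intro h
    unfold p1d at h
    by_cases h0 : w 0 = 0
    · have h1 : w 1 ≠ 0 := fun h1 => hw (by ext i; fin_cases i <;> simp [h0, h1])
      refine ⟨v 1 / w 1, ?_⟩
      ext i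
      fin_cases i
      · simp only [Fin.zero_eta, Pi.smul_apply, smul_eq_mul]
        field_simp
        linear_combination -h
      · simp only [Fin.mk_one, Pi.smul_apply, smul_eq_mul]
        field_simp
    · refine ⟨v 0 / w 0, ?_⟩
      ext i
      fin_cases i
      · simp only [Fin.zero_eta, Pi.smul_apply, smul_eq_mul]
        field_simp
      · simp only [Fin.mk_one, Pi.smul_apply, smul_eq_mul]
        field_simp
        linear_combination h

theorem p1T_mul (v : Fin 2 → F) (c c' : F) : p1T v c * p1T v c' = p1T v (c + c') := by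
  simp only [p1T, mul_fin_two]
  congr! 3 <;> ring

theorem p1T_zero (v : Fin 2 → F) : p1T v 0 = 1 := by simp [p1T, one_fin_two]

theorem p1T_pow (v : Fin 2 → F) (c : F) (k : ℕ) : p1T v c ^ k = p1T v (k * c) := by
  induction k with
  | zero => simp [p1T_zero]
  | succ k ih => rw [pow_succ, ih, p1T_mul]; push_cast; ring_nf

theorem p1T_smul (v : Fin 2 → F) (a c : F) : p1T (a • v) c = p1T v (a ^ 2 * c) := by
  simp only [p1T, Pi.smul_apply, smul_eq_mul]
  congr! 3 <;> ring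

theorem p1T_mulVec (v w : Fin 2 → F) (c : F) : p1T v c *ᵥ w = w + (c * p1d v w) • v := by
  ext i
  fin_cases i <;> simp [p1T, p1d, mulVec, dotProduct, Fin.sum_univ_two] <;> ring

theorem p1T_conj (m : Matrix (Fin 2) (Fin 2) F) (v : Fin 2 → F) (c : F) :
    m * p1T v (c * m.det) = p1T (m *ᵥ v) c * m := by
  ext i j
  fin_cases i <;> fin_cases j <;>
    simp [p1T, det_fin_two, mul_apply, mulVec, dotProduct, Fin.sum_univ_two] <;> ring

/-- the action on the projective line -/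
abbrev p1f (F : Type) [Field F] : GL (Fin 2) F →* Equiv.Perm (ℙ F (Fin 2 → F)) :=
  MulAction.toPermHom (GL (Fin 2) F) (ℙ F (Fin 2 → F))

variable (Γ : Subgroup (GL (Fin 2) F))

/-- the map onto the group of projective transformations -/
def p1s : Γ →* Γ.map (p1f F) := (p1f F).subgroupMap Γ

/-- the transvections in `Γ` with centre `v` -/
def p1U (v : Fin 2 → F) : Subgroup Γ where
  carrier := {g | ∃ c, g.1.1 = p1T v c}
  one_mem' := ⟨0, (p1T_zero v).symm⟩
  mul_mem' := by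
    rintro a b ⟨c, hc⟩ ⟨c', hc'⟩
    exact ⟨c + c', by rw [← p1T_mul, ← hc, ← hc']; rfl⟩
  inv_mem' := by
    rintro a ⟨c, hc⟩
    refine ⟨-c, ?_⟩
    have h : a.1.1 * p1T v (-c) = 1 := by rw [hc, p1T_mul, add_neg_cancel, p1T_zero]
    exact Units.inv_eq_of_mul_eq_one_right h

/-- their images -/
noncomputable def p1Q (z : ℙ F (Fin 2 → F)) : Subgroup (Γ.map (p1f F)) :=
  (p1U Γ z.rep).map (p1s Γ)

variable {Γ}

theorem p1s_surj (a : Γ.map (p1f F)) : ∃ g, p1s Γ g = a := (p1f F).subgroupMap_surjective Γ a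

theorem p1_ne (g : Γ) {v : Fin 2 → F} (hv : v ≠ 0) : g.1.1 *ᵥ v ≠ 0 :=
  (smul_ne_zero_iff_ne g.1).mpr hv

theorem p1_act (g : Γ) {v : Fin 2 → F} (hv : v ≠ 0) :
    p1s Γ g • mk F v hv = mk F (g.1.1 *ᵥ v) (p1_ne g hv) := rfl

theorem p1_smul (g : Γ) {v w : Fin 2 → F} (hv : v ≠ 0) (hw : w ≠ 0) :
    p1s Γ g • mk F v hv = mk F w hw ↔ p1d (g.1.1 *ᵥ v) w = 0 := by rw [p1_act, p1_mk]

theorem p1_eq {g g' : Γ} :
    p1s Γ g = p1s Γ g' ↔ ∀ v, v ≠ 0 → p1d (g.1.1 *ᵥ v) (g'.1.1 *ᵥ v) = 0 := by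
  constructor
  · intro h v hv
    rw [← p1_smul g hv (p1_ne g' hv), h, p1_act]
  · intro h
    refine Subtype.ext (Equiv.ext fun z => ?_)
    induction z using Projectivization.ind with
    | h v hv => exact (p1_smul g hv (p1_ne g' hv)).2 (h v hv)

theorem p1_mem {v : Fin 2 → F} (hv : v ≠ 0) {a : Γ.map (p1f F)} :
    a ∈ p1Q Γ (mk F v hv) ↔ ∃ g : Γ, (∃ c, g.1.1 = p1T v c) ∧ p1s Γ g = a := by
  obtain ⟨l, hl⟩ := exists_smul_eq_mk_rep F v hv
  rw [p1Q, ← hl, Units.smul_def]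
  refine exists_congr fun g => and_congr_left' ⟨?_, ?_⟩
  · rintro ⟨c, hc⟩
    exact ⟨_, hc.trans (p1T_smul _ _ _)⟩
  · rintro ⟨c, hc⟩
    refine ⟨c / (l : F) ^ 2, ?_⟩
    rw [p1T_smul, hc, mul_div_cancel₀ _ (pow_ne_zero 2 l.ne_zero)]

theorem p1_fac [IsAlgClosed F] (A B C : F) : ∃ a b : Fin 2 → F, ∀ v : Fin 2 → F,
    A * v 0 ^ 2 + B * v 0 * v 1 + C * v 1 ^ 2 = p1d v a * p1d v b := by
  by_cases hA : A = 0
  · refine ⟨![-1, 0], ![-C, B], fun v => ?_⟩
    simp [p1d, hA]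
    ring
  · obtain ⟨t, ht⟩ := IsAlgClosed.exists_root
      (Polynomial.C A * Polynomial.X ^ 2 + Polynomial.C B * Polynomial.X + Polynomial.C C)
      (by rw [Polynomial.degree_quadratic hA]; norm_num)
    simp only [Polynomial.IsRoot.def, Polynomial.eval_add, Polynomial.eval_mul, Polynomial.eval_C,
      Polynomial.eval_pow, Polynomial.eval_X] at ht
    refine ⟨![t, 1], ![-(B + A * t), A], fun v => ?_⟩
    simp only [p1d, cons_val_zero, cons_val_one]
    linear_combination v 1 ^ 2 * ht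

theorem p1_ord {ζ : F} (h : IsOfFinOrder ζ) : ((orderOf ζ : ℕ) : F) ≠ 0 :=
  haveI : NeZero (orderOf ζ) := ⟨h.orderOf_pos.ne'⟩
  ((IsPrimitiveRoot.orderOf ζ).neZero').ne

/-- an element with a double fixed point is a transvection up to a scalar -/
theorem p1_par {r : ℕ} [CharP F r] (hr : r.Prime) [Finite Γ] (g : Γ) {a : Fin 2 → F} (ha : a ≠ 0)
    {μ : F} (h : ∀ v, p1d (g.1.1 *ᵥ v) v = μ * p1d v a ^ 2) : p1s Γ g ∈ p1Q Γ (mk F a ha) := by
  have : Fact r.Prime := ⟨hr⟩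
  have h1 := h ![1, 0]
  have h2 := h ![0, 1]
  have h3 := h ![1, 1]
  simp only [p1d, mulVec, dotProduct, Fin.sum_univ_two, cons_val_zero, cons_val_one] at h1 h2 h3
  obtain ⟨ζ, hζ⟩ : ∃ ζ, ζ = g.1.1 1 1 - μ * a 0 * a 1 := ⟨_, rfl⟩
  have e00 : g.1.1 0 0 = ζ - μ * a 0 * a 1 := by linear_combination h3 - h1 - h2 - hζ
  have e01 : g.1.1 0 1 = μ * a 0 ^ 2 := by linear_combination h2
  have e10 : g.1.1 1 0 = -(μ * a 1 ^ 2) := by linear_combination -h1
  have e11 : g.1.1 1 1 = ζ + μ * a 0 * a 1 := by linear_combination -hζ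
  have z0 : ζ ≠ 0 := fun z0 => g.1.det_ne_zero (by
    rw [det_fin_two, e00, e01, e10, e11, z0]
    ring)
  have e : g.1.1 = ζ • p1T a (μ / ζ) := by
    ext i j
    fin_cases i <;> fin_cases j <;> simp [p1T, e00, e01, e10, e11] <;> field_simp
  have ek : ∀ k : ℕ, (g ^ k).1.1 = ζ ^ k • p1T a (k * (μ / ζ)) := fun k => by
    rw [← p1T_pow, ← smul_pow, ← e]
    rfl
  have fo : IsOfFinOrder ζ := by
    refine isOfFinOrder_iff_pow_eq_one.2 ⟨orderOf g, orderOf_pos g, ?_⟩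
    have h4 := congrArg (· *ᵥ a) (ek (orderOf g))
    simp only [pow_orderOf_eq_one, smul_mulVec, p1T_mulVec, OneMemClass.coe_one, Units.val_one,
      one_mulVec] at h4
    rw [show p1d a a = 0 by unfold p1d; ring, mul_zero, zero_smul, add_zero] at h4
    exact (smul_left_injective F ha ((one_smul F a).trans h4)).symm
  have m1 : ((orderOf ζ ^ (r - 1) : ℕ) : F) = 1 := by
    have h4 : ((orderOf ζ : ℕ) : F) ^ r = (orderOf ζ : ℕ) := map_natCast (frobenius F r) _
    refine mul_right_cancel₀ (p1_ord fo) ?_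
    rw [Nat.cast_pow, ← pow_succ, Nat.sub_add_cancel hr.one_le, h4, one_mul]
  have eu : (g ^ orderOf ζ ^ (r - 1)).1.1 = p1T a (μ / ζ) := by
    rw [ek, m1, one_mul, orderOf_dvd_iff_pow_eq_one.1
      (dvd_pow_self _ (by have := hr.two_le; omega)), one_smul]
  refine (p1_mem ha).2 ⟨_, ⟨_, eu⟩, p1_eq.2 fun v _ => ?_⟩
  rw [eu, e, smul_mulVec]
  simp only [p1d, Pi.smul_apply, smul_eq_mul]
  ring

theorem p1_tw [IsAlgClosed F] {r : ℕ} [CharP F r] (hr : r.Prime) [Finite Γ] : Tw r (p1Q Γ) where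
  prime := hr
  pg := fun x => by
    refine IsPGroup.map (H := p1U Γ x.rep) ?_ _
    rintro ⟨g, c, hc⟩
    refine ⟨1, Subtype.ext (Subtype.ext (Units.ext ?_))⟩
    show g.1.1 ^ r ^ 1 = 1
    rw [hc, p1T_pow, pow_one, CharP.cast_eq_zero, zero_mul, p1T_zero]
  ab := by
    rintro x _ ⟨g, ⟨c, hc⟩, rfl⟩ _ ⟨g', ⟨c', hc'⟩, rfl⟩
    rw [← map_mul, ← map_mul]
    refine congrArg _ (Subtype.ext (Units.ext ?_))
    show g.1.1 * g'.1.1 = g'.1.1 * g.1.1
    rw [hc, hc', p1T_mul, p1T_mul, add_comm]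
  fix := by
    intro x a ha
    induction x using Projectivization.ind with
    | h v hv =>
      obtain ⟨g, ⟨c, hc⟩, rfl⟩ := (p1_mem hv).1 ha
      rw [p1_smul, hc, p1T_mulVec]
      simp only [p1d, Pi.add_apply, Pi.smul_apply, smul_eq_mul]
      ring
  cnj := by
    intro b x a ha
    induction x using Projectivization.ind with
    | h v hv =>
      obtain ⟨g, ⟨c, hc⟩, rfl⟩ := (p1_mem hv).1 ha
      obtain ⟨k, rfl⟩ := p1s_surj b
      rw [p1_act]
      refine (p1_mem _).2 ⟨k * g * k⁻¹, ⟨c / k.1.1.det, ?_⟩, by rw [map_mul, map_mul, map_inv]⟩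
      show k.1.1 * g.1.1 * (k.1⁻¹).1 = _
      rw [Units.mul_inv_eq_iff_eq_mul, ← p1T_conj, div_mul_cancel₀ _ k.1.det_ne_zero, hc]
  one := by
    intro x a ha a1 y hy
    induction x using Projectivization.ind with
    | h v hv =>
      induction y using Projectivization.ind with
      | h w hw =>
        obtain ⟨g, ⟨c, hc⟩, rfl⟩ := (p1_mem hv).1 ha
        have c0 : c ≠ 0 := fun c0 => a1 (by
          rw [show g = 1 from Subtype.ext (Units.ext (by rw [hc, c0, p1T_zero]; rfl)), map_one])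
        rw [p1_smul, hc, p1T_mulVec] at hy
        have h : c * p1d v w ^ 2 = 0 := by
          simp only [p1d, Pi.add_apply, Pi.smul_apply, smul_eq_mul] at hy ⊢
          linear_combination hy
        exact ((p1_mk hv hw).2 (pow_eq_zero_iff two_ne_zero |>.1
          ((mul_eq_zero.1 h).resolve_left c0))).symm
  two := by
    intro b b1 hb
    obtain ⟨g, rfl⟩ := p1s_surj b
    obtain ⟨a, a', h⟩ := p1_fac (-g.1.1 1 0) (g.1.1 0 0 - g.1.1 1 1) (g.1.1 0 1)
    replace h : ∀ v, p1d (g.1.1 *ᵥ v) v = p1d v a * p1d v a' := fun v => by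
      rw [← h v]
      simp only [p1d, mulVec, dotProduct, Fin.sum_univ_two]
      ring
    have nz : ¬ ∀ v, p1d v a * p1d v a' = 0 := fun h0 => b1 (by
      rw [← map_one (p1s Γ)]
      refine p1_eq.2 fun v _ => ?_
      rw [OneMemClass.coe_one, Units.val_one, one_mulVec, h, h0])
    have ha : a ≠ 0 := fun h0 => nz fun v => by simp [p1d, h0]
    have ha' : a' ≠ 0 := fun h0 => nz fun v => by simp [p1d, h0]
    refine ⟨mk F a ha, mk F a' ha', fun e => ?_, fun z => ?_⟩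
    · obtain ⟨μ, rfl⟩ := (mk_eq_mk_iff' F _ _ _ _).1 e.symm
      refine hb _ (p1_par hr g ha (μ := μ) fun v => ?_)
      rw [h]
      simp only [p1d, Pi.smul_apply, smul_eq_mul]
      ring
    · induction z using Projectivization.ind with
      | h v hv => rw [p1_smul, h, mul_eq_zero, p1_mk, p1_mk]

end Pool.Agent.Lib.MP_1ae3da_al.WG
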