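import Pool.Agent.Lib.MP_1ae3da_al.V.Cnt
import Pool.Agent.Lib.MP_1ae3da_al.V.Bas
import Pool.Agent.Lib.MP_1ae3da_al.V.P11

/-! The case of rank one. -/

namespace Pool.Agent.Lib.MP_1ae3da_al.WG

open Matrix Projectivization

section
variable {F : Type} [Field F] {Γ : Subgroup (GL (Fin 2) F)}

theorem p1_tv_pow {a α : Fin 2 → F} (h : α ⬝ᵥ a = 1) (s : F) (k : ℕ) :
    tv ((s - 1) • a) α ^ k = tv ((s ^ k - 1) • a) α := by
  induction k with
  | zero => simp [tv]
  | succ k ih =>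
    rw [pow_succ, ih, tv_mul]
    simp only [tv, smul_vecMulVec, dotProduct_smul, h, smul_eq_mul, mul_one, pow_succ]
    module

/-- a homology: order and fixed points -/
theorem p1_hom (g : Γ) {a α : Fin 2 → F} (h : α ⬝ᵥ a = 1) {s : F}
    (e : g.1.1 = tv ((s - 1) • a) α) :
    orderOf (p1s Γ g) = orderOf s ∧ (∀ ha, p1s Γ g • mk F a ha = mk F a ha) ∧
      ∀ w hw, α ⬝ᵥ w = 0 → p1s Γ g • mk F w hw = mk F w hw := by
  refine ⟨orderOf_eq_orderOf_iff.2 fun k => ?_, fun ha => ?_, fun w hw h0 => ?_⟩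
  · have ek : (g ^ k).1.1 = tv ((s ^ k - 1) • a) α := by
      rw [← p1_tv_pow h, ← e]
      rfl
    rw [← map_pow, ← map_one (p1s Γ), p1_eq, ek]
    simp only [OneMemClass.coe_one, Units.val_one, one_mulVec, tv_mulVec]
    constructor
    · intro h1
      have h2 : α ⬝ᵥ (a + ![-α 1, α 0]) = 1 := by
        rw [dotProduct_add, h]
        simp only [dotProduct, Fin.sum_univ_two, cons_val_zero, cons_val_one]
        ring
      have h3 := h1 (a + ![-α 1, α 0]) fun h0 => by simp [h0] at h2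
      rw [h2] at h3
      simp only [p1d, dotProduct, Fin.sum_univ_two, Pi.add_apply, Pi.smul_apply, smul_eq_mul,
        cons_val_zero, cons_val_one] at h3 h
      linear_combination h3 - (s ^ k - 1) * h
    · intro h1 v _
      simp only [h1, sub_self, zero_smul, smul_zero, add_zero, p1d]
      ring
  · rw [p1_smul, e, tv_mulVec]
    simp only [p1d, Pi.add_apply, Pi.smul_apply, smul_eq_mul]
    ring
  · rw [p1_smul, e, tv_mulVec, h0]
    simp only [p1d, zero_smul, add_zero]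
    ring

theorem p1_core [IsAlgClosed F] {r : ℕ} [CharP F r] (hr : r.Prime) [Finite Γ] {p c : ℕ}
    (hp : p.Prime) (hpr : ∀ k, ¬ p ∣ r ^ k + 1) {s : F} (ho : orderOf s = p ^ c) (h7 : 7 ≤ p ^ c)
    (hd : In Γ (tv ((s - 1) • ![1, 0]) ![1, 0])) {x : F} (hx : x ≠ 0)
    (h : (∃ κ c : F, κ ≠ 0 ∧ c ≠ 0 ∧ c ≠ 1 ∧ In Γ (p1T ![x, 1] κ) ∧ In Γ (p1T ![x, 1] (c * κ))) ∨
      ∃ y : F, y ≠ 0 ∧ x * y ≠ 1 ∧ In Γ (tv ((s - 1) • ![x, 1]) ![y, 1 - x * y])) :
    In Γ !![1, -x; 0, 1] := by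
  have n1 : (![1, 0] : Fin 2 → F) ≠ 0 := by simp
  have n2 : (![0, 1] : Fin 2 → F) ≠ 0 := by simp
  have n3 : (![x, 1] : Fin 2 → F) ≠ 0 := by simp
  have fin : Finite (Γ.map (p1f F)) := Finite.of_surjective _ p1s_surj
  have ne : p ≠ r := by
    rintro rfl
    refine p1_ord (ζ := s) (orderOf_pos_iff.1 (by omega)) ?_
    rw [ho, CharP.cast_eq_zero_iff F p]
    refine dvd_pow_self p ?_
    rintro rfl
    simp at h7
  obtain ⟨g, hg, e⟩ := hd
  obtain ⟨o1, o2, o3⟩ := p1_hom (Γ := Γ) ⟨g, hg⟩ (by simp) e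
  obtain ⟨u, hu, e2⟩ := (p1_tw (Γ := Γ) hr).cnt hp ne hpr h7 (o1.trans ho) (x := mk F _ n1)
    (y := mk F _ n2) (z := mk F _ n3) (by simp [p1_mk, p1d]) (o2 n1) (o3 _ n2 (by simp))
    (by simp [p1_mk, p1d]) (by simp [p1_mk, p1d, hx]) (by
      rcases h with ⟨κ, c, k0, c0, c1, ⟨g1, m1, e1⟩, ⟨g2, m2, e2⟩⟩ | ⟨y, y0, y1, g1, m1, e1⟩
      · left
        have := Fintype.ofFinite (p1Q Γ (mk F _ n3))
        rw [Nat.card_eq_fintype_card, Fintype.two_lt_card_iff]
        have key : ∀ (g1 g2 : Γ) (a b : F), g1.1.1 = p1T ![x, 1] a → g2.1.1 = p1T ![x, 1] b →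
            p1s Γ g1 = p1s Γ g2 → a = b := fun g1 g2 a b e1 e2 e3 => by
          have h4 := p1_eq.1 e3 _ n1
          rw [e1, e2, p1T_mulVec, p1T_mulVec] at h4
          simp only [p1d, Pi.add_apply, Pi.smul_apply, smul_eq_mul, cons_val_zero,
            cons_val_one] at h4
          linear_combination h4
        have e0 : (1 : Γ).1.1 = p1T ![x, 1] 0 := (p1T_zero _).symm
        refine ⟨⟨_, (p1_mem n3).2 ⟨1, ⟨_, e0⟩, rfl⟩⟩, ⟨_, (p1_mem n3).2 ⟨⟨g1, m1⟩, ⟨_, e1⟩, rfl⟩⟩,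
          ⟨_, (p1_mem n3).2 ⟨⟨g2, m2⟩, ⟨_, e2⟩, rfl⟩⟩, fun h => ?_, fun h => ?_, fun h => ?_⟩
        · exact k0 (key _ _ _ _ e0 e1 (congrArg Subtype.val h)).symm
        · exact mul_ne_zero c0 k0 (key _ _ _ _ e0 e2 (congrArg Subtype.val h)).symm
        · exact c1 (mul_right_cancel₀ k0
            ((key _ _ _ _ e1 e2 (congrArg Subtype.val h)).symm.trans (one_mul κ).symm))
      · right
        have n4 : (![-(1 - x * y), y] : Fin 2 → F) ≠ 0 := by simp [y0]
        obtain ⟨q1, q2, q3⟩ := p1_hom (Γ := Γ) ⟨g1, m1⟩ (by simp [mul_comm]) e1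
        refine ⟨_, mk F _ n4, q1.trans ho, q2 n3, q3 _ n4 ?_, ?_, ?_, ?_⟩
        · simp only [dotProduct, Fin.sum_univ_two, cons_val_zero, cons_val_one]
          ring
        · rw [Ne, p1_mk]
          simp only [p1d, cons_val_zero, cons_val_one]
          intro h0
          exact one_ne_zero (α := F) (by linear_combination -h0)
        · simp [p1_mk, p1d, y0]
        · rw [Ne, p1_mk]
          simp only [p1d, cons_val_zero, cons_val_one]
          intro h0
          exact y1 (by linear_combination h0))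
  obtain ⟨k, ⟨b, hb⟩, rfl⟩ := (p1_mem n1).1 hu
  rw [p1_smul, hb, p1T_mulVec] at e2
  simp only [p1d, Pi.add_apply, Pi.smul_apply, smul_eq_mul, cons_val_zero, cons_val_one] at e2
  refine ⟨k.1, k.2, ?_⟩
  rw [hb, show b = -x by linear_combination e2]
  simp [p1T]

end

variable {K : Type} [Field K] [Finite K] {p : ℕ} {s : K}

/-- hint: `F = AlgebraicClosure K`, `X = OnePoint F` or the projective line, `G'` the range of
`MulAction.toPermHom` on (the image of) `G`, `Q z` the images of the `g ∈ G` with `(g - 1) ^ 2 = 0`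
that fix `z`. If `g` has one fixed point then `g = ζ (1 + n)`, and a power of `g` is `1 + n`. -/
theorem rk1 (hs : Sc p s) (G : Subgroup (GL (Fin 2) K)) (hd : In G !![s, 0; 0, 1]) {x : K}
    (hx : x ≠ 0)
    (h : (∃ κ c : K, κ ≠ 0 ∧ c ≠ 0 ∧ c ≠ 1 ∧ In G (tv ![x, 1] (κ • ![1, -x])) ∧
        In G (tv (c • ![x, 1]) (κ • ![1, -x]))) ∨
      ∃ y : K, y ≠ 0 ∧ x * y ≠ 1 ∧ In G (tv ((s - 1) • ![x, 1]) ![y, 1 - x * y])) :
    In G !![1, -x; 0, 1] := by
  let F := AlgebraicClosure K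
  let f : K →+* F := algebraMap K F
  have inj : Function.Injective f := f.injective
  have hr : (ringChar K).Prime := CharP.char_is_prime K _
  have : CharP F (ringChar K) := charP_of_injective_ringHom inj _
  let Γ : Subgroup (GL (Fin 2) F) := G.map (GeneralLinearGroup.map f)
  have : Finite Γ := Finite.of_surjective _ ((GeneralLinearGroup.map f).subgroupMap_surjective G)
  have up : ∀ {m : Matrix (Fin 2) (Fin 2) K} {m' : Matrix (Fin 2) (Fin 2) F}, In G m →
      m.map f = m' → In Γ m' := by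
    rintro _ _ ⟨g, hg, rfl⟩ rfl
    exact ⟨_, Subgroup.mem_map_of_mem _ hg, rfl⟩
  obtain ⟨c, hc⟩ := hs.ord
  have ho : orderOf (f s) = p ^ c := (orderOf_injective f.toMonoidHom inj s).trans hc
  obtain ⟨_, ⟨g, hg, rfl⟩, e⟩ := p1_core (Γ := Γ) hr hs.prime hs.chr ho (hc ▸ hs.big)
    (up hd (by ext i j; fin_cases i <;> fin_cases j <;> simp [tv, vecMulVec])) (x := f x)
    ((map_ne_zero f).2 hx) (by
      rcases h with ⟨κ, c, k0, c0, c1, h1, h2⟩ | ⟨y, y0, y1, h1⟩
      · refine Or.inl ⟨-f κ, f c, neg_ne_zero.2 ((map_ne_zero f).2 k0), (map_ne_zero f).2 c0,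
          fun h => c1 (inj (h.trans (map_one f).symm)), up h1 ?_, up h2 ?_⟩
        · ext i j
          fin_cases i <;> fin_cases j <;> simp [tv, vecMulVec, p1T] <;> ring
        · ext i j
          fin_cases i <;> fin_cases j <;> simp [tv, vecMulVec, p1T] <;> ring
      · refine Or.inr ⟨f y, (map_ne_zero f).2 y0, fun h => y1 (inj (by rw [map_mul, h, map_one])),
          up h1 ?_⟩
        ext i j
        fin_cases i <;> fin_cases j <;> simp [tv, vecMulVec])
  refine ⟨g, hg, Matrix.map_injective inj (e.trans ?_)⟩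
  ext i j
  fin_cases i <;> fin_cases j <;> simp

end Pool.Agent.Lib.MP_1ae3da_al.WG
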