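import Pool.Agent.Lib.MP_1ae3da_al.V.Wag
import Pool.Agent.Lib.MP_1ae3da_al.V.Ch2
import Pool.Agent.Lib.MP_1ae3da_al.Z.SL3

/-! Subgroups of index prime to `p` of the projective special linear group. -/

namespace Pool.Agent.Lib.MP_1ae3da_al.WG

open Matrix CT

variable {p : ℕ} {C : ∀ (G : Type) [Group G], Prop}

theorem sub_sc [hp : Fact p.Prime] {K : Type} [Field K] {m : ℕ} (hm : 3 ≤ m) (hK : Ok2 p m K)
    {z : K} (hz : orderOf z = p ^ padicValNat p (Nat.card K - 1)) : Sc p (z ^ m) := by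
  obtain ⟨h1, h2, h3⟩ := hK
  obtain ⟨e, he, k⟩ := (Nat.dvd_prime_pow hp.out).1 (hz ▸ orderOf_pow_dvd (x := z) m)
  refine ⟨hp.out, ⟨e, k⟩, ?_, h1⟩
  rw [k]
  refine h3.trans (Nat.pow_le_pow_right hp.out.pos ?_)
  have h4 : p ^ padicValNat p (Nat.card K - 1) ∣ m * p ^ e := by
    rw [← hz, ← k, orderOf_dvd_iff_pow_eq_one, pow_mul, pow_orderOf_eq_one]
  obtain ⟨d, hd⟩ := Nat.exists_eq_add_of_le he
  rw [hd, add_comm e, pow_add] at h4
  have h5 := Nat.le_log_of_pow_le hp.out.one_lt (Nat.le_of_dvd (by omega)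
    (Nat.dvd_of_mul_dvd_mul_right (pow_pos hp.out.pos e) h4))
  omega

theorem sub_ok [hp : Fact p.Prime] {K : Type} [Field K] [Finite K] {m n : ℕ} (hK : Ok2 p m K)
    {z : K} (hz : orderOf z = p ^ padicValNat p (Nat.card K - 1)) (E : Subfield K) (hE : z ∈ E)
    (hn : n ≤ m) : Ok2 p n E := by
  obtain ⟨h1, h2, h3⟩ := hK
  have h0 : z ≠ 0 := by
    rintro rfl
    rw [orderOf_zero] at hz
    exact pow_ne_zero _ hp.out.ne_zero hz.symm
  have := Fintype.ofFinite E
  have h4 : z ^ (Nat.card E - 1) = 1 := by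
    have := FiniteField.pow_card_sub_one_eq_one (⟨z, hE⟩ : E) fun k => h0 (congrArg Subtype.val k)
    rw [Nat.card_eq_fintype_card]
    exact congrArg Subtype.val this
  have h5 : Nat.card E - 1 ≠ 0 := by
    have := Finite.one_lt_card (α := E)
    omega
  have h6 := (padicValNat_dvd_iff_le h5).1 (hz ▸ orderOf_dvd_of_pow_eq_one h4)
  have h7 : padicValNat p n.factorial ≤ padicValNat p m.factorial :=
    (padicValNat_dvd_iff_le m.factorial_ne_zero).1
      (pow_padicValNat_dvd.trans (Nat.factorial_dvd_factorial hn))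
  have h8 : Nat.log p n ≤ Nat.log p m := Nat.log_mono_right hn
  refine ⟨?_, by omega, h3.trans (Nat.pow_le_pow_right hp.out.pos (by omega))⟩
  rwa [Algebra.ringChar_eq E K]

/-- the products of scalars and elements of `H` -/
def subSc {K : Type} [Field K] {m : ℕ} (H : Subgroup (SpecialLinearGroup (Fin m) K)) :
    Subgroup (GL (Fin m) K) where
  carrier := {g | ∃ l : Kˣ, ∃ h ∈ H, (g : Matrix (Fin m) (Fin m) K) = (l : K) • h.1}
  one_mem' := ⟨1, 1, one_mem _, by simp⟩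
  mul_mem' := by
    rintro a b ⟨l, h, k1, k2⟩ ⟨l', h', k3, k4⟩
    exact ⟨l * l', h * h', mul_mem k1 k3, by
      rw [Units.val_mul, k2, k4, smul_mul_smul_comm]; rfl⟩
  inv_mem' := by
    rintro a ⟨l, h, k1, k2⟩
    refine ⟨l⁻¹, h⁻¹, inv_mem k1, Units.inv_eq_of_mul_eq_one_right ?_⟩
    have : h.1 * (h⁻¹).1 = 1 := congrArg Subtype.val (mul_inv_cancel h)
    rw [k2, smul_mul_smul_comm, this, Units.mul_inv, one_smul]

theorem subSc_in {K : Type} [Field K] {m : ℕ} {H : Subgroup (SpecialLinearGroup (Fin m) K)}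
    {h : SpecialLinearGroup (Fin m) K} (hh : h ∈ H) : SpecialLinearGroup.toGL h ∈ subSc H :=
  ⟨1, h, hh, by simp⟩

theorem sub_nrm (hC : Cl p C) {K : Type} [Field K] {m : ℕ}
    {H : Subgroup (SpecialLinearGroup (Fin m) K)} (h : C (subSc H)) : C H := by
  refine hC.nrm _ _ h ((SpecialLinearGroup.toGL.comp H.subtype).codRestrict _ fun x => subSc_in x.2)
    (fun a b k => Subtype.ext (SpecialLinearGroup.toGL_injective (congrArg Subtype.val k)))
    ⟨?_⟩
  rintro _ ⟨a, rfl⟩ ⟨g, l, b, hb, k⟩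
  refine ⟨⟨b, hb⟩ * a * ⟨b, hb⟩⁻¹, Subtype.ext ?_⟩
  change SpecialLinearGroup.toGL (b * a.1 * b⁻¹) = g * SpecialLinearGroup.toGL a.1 * g⁻¹
  rw [eq_mul_inv_iff_mul_eq]
  apply Units.ext
  have : (b * a.1 * b⁻¹).1 * b.1 = b.1 * a.1.1 :=
    congrArg Subtype.val (inv_mul_cancel_right (b * a.1) b)
  change (b * a.1 * b⁻¹).1 * g.1 = g.1 * a.1.1
  rw [show g.1 = (l : K) • b.1 from k, mul_smul_comm, smul_mul_assoc, this]

theorem sub_hm {K : Type} [Field K] {m : ℕ} {H : Subgroup (SpecialLinearGroup (Fin m) K)}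
    {A : Subgroup Kˣ} (hA : SLI.DS m A ≤ H) {z : Kˣ} (hz : z ∈ A) (j : Fin m) :
    In (subSc H) (hm ((z : K) ^ m) j) := by
  let d : Fin m → Kˣ := fun i => z⁻¹ * Pi.mulSingle (M := fun _ => Kˣ) j (z ^ m) i
  have h1 : (diagonal fun i => (d i : K)).det = 1 := by
    rw [det_diagonal, ← Units.coe_prod]
    simp [d, Finset.prod_mul_distrib, Finset.prod_pi_mulSingle']
  have h2 : (⟨_, h1⟩ : SpecialLinearGroup (Fin m) K) ∈ SLI.DS m A :=
    SLI.mem_DS.2 ⟨d, fun i => mul_mem (inv_mem hz) (by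
      rw [Pi.mulSingle_apply]
      split_ifs
      exacts [pow_mem hz _, one_mem _]), rfl⟩
  have h3 : (Units.map (scalar (Fin m)).toMonoidHom z * SpecialLinearGroup.toGL ⟨_, h1⟩).1 =
      (z : K) • diagonal fun i => (d i : K) := (smul_eq_diagonal_mul _ _).symm
  refine ⟨_, ⟨z, _, hA h2, h3⟩, h3.trans ?_⟩
  ext a b
  by_cases k1 : a = b <;> by_cases k2 : a = j <;>
    simp_all [d, hm, rt, tv, vecMulVec_apply, Pi.single_apply, one_apply]

theorem sub_rt {K : Type} [Field K] {m : ℕ} (hm : 3 ≤ m)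
    {H : Subgroup (SpecialLinearGroup (Fin m) K)} {A : Subgroup Kˣ} (hA : SLI.DS m A ≤ H) {z : Kˣ}
    (hz : z ∈ A) (i j : Fin m) (hij : i ≠ j) (c : K) (h : In (subSc H) (rt i j c)) :
    In (subSc H) (rt i j (z * c)) := by
  obtain ⟨g, hg, k⟩ := h
  obtain ⟨l, h1, h2⟩ : ∃ l : Fin m, l ≠ i ∧ l ≠ j :=
    ENat.exists_ne_ne_of_three_le (by simpa using hm) i j
  have h3 := subSc_in (hA (SLI.el_mem h1.symm hz))
  refine ⟨_, mul_mem (mul_mem h3 hg) (inv_mem h3), ?_⟩
  rw [Units.val_mul, Units.mul_inv_eq_iff_eq_mul, Units.val_mul, k]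
  change (SLI.el h1.symm z).1 * _ = _ * (SLI.el h1.symm z).1
  rw [SLI.el_val]
  ext a b
  rw [diagonal_mul, mul_diagonal]
  by_cases k1 : a = b
  · subst k1
    by_cases k2 : a = i <;> simp_all [rt, tv, vecMulVec_apply, Pi.single_apply]
  · by_cases k2 : a = i <;> by_cases k3 : b = j <;>
      simp_all [rt, tv, vecMulVec_apply, one_apply, eq_comm]

/-- hint: page Sub. `SLI.DS m A ⊔ P.map (SLI.pm m K)` is a `p`-group (`card_sup`), `gra_fix`;
add the scalars; `wag`; `Cl.nrm`; `Good.iso` for the conjugation. -/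
theorem good_sl [Fact p.Prime] (hC : Cl p C) (K : Type) [Field K] [Finite K] {m : ℕ} (hm : 3 ≤ m)
    (hK : Ok2 p m K) (hsl : ∀ (E : Type) [Field E] [Finite E] (n : ℕ), 3 ≤ n → Ok2 p n E →
      C (SpecialLinearGroup (Fin n) E)) : Good p C (SpecialLinearGroup (Fin m) K) := by
  intro H hH
  have hp : p.Prime := Fact.out
  have hp2 : p ≠ 2 := by
    rintro rfl
    exact hK.1 0 (by simp)
  let A : Sylow p Kˣ := default
  let P : Sylow p (alternatingGroup (Fin m)) := default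
  have hA : Nat.card A = p ^ padicValNat p (Nat.card K - 1) := by
    rw [A.card_eq_multiplicity, Nat.card_units, Nat.factorization_def _ hp]
  obtain ⟨z, hz⟩ := IsCyclic.exists_ofOrder_eq_natCard (α := (A : Subgroup Kˣ))
  have hz : orderOf ((z : Kˣ) : K) = p ^ padicValNat p (Nat.card K - 1) := by
    rw [orderOf_units, Subgroup.orderOf_coe, hz, hA]
  have hE : IsPGroup p (SLI.DS m A ⊔ (P : Subgroup _).map (SLI.pm m K) : Subgroup (SLI.SLm m K)) :=
    IsPGroup.of_card (by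
      rw [SLI.card_sup, SLI.card_DS (by omega), hA, P.card_eq_multiplicity, ← pow_mul, ← pow_add])
  obtain ⟨x, hx⟩ := gra_fix hE hH
  let e := MulAut.conj x⁻¹
  have hx' : SLI.DS m A ⊔ (P : Subgroup _).map (SLI.pm m K) ≤ H.comap e.toMonoidHom :=
    fun y hy => by simpa [e] using hx y hy
  refine hC.cls.iso (H.comap e.toMonoidHom) _ ((e.subgroupMap _).trans
    (MulEquiv.subgroupCongr (Subgroup.map_comap_eq_self_of_surjective e.surjective H))) ?_
  have h1 := le_sup_left.trans hx'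
  refine sub_nrm hC (wag hC (sub_sc hm hK hz) _ (sub_hm h1 z.2) (sub_rt hm h1 z.2)
    (fun E n k1 k2 k3 => hsl E n k2 (sub_ok hK hz E k1 (by simpa using k3)))
    ((P : Subgroup _).map (alternatingGroup (Fin m)).subtype) ?_ ?_)
  · have : Nontrivial (Fin m) := Fin.nontrivial_iff_two_le.2 (by omega)
    rw [Subgroup.index_map_subtype, alternatingGroup.index_eq_two, hp.dvd_mul]
    rintro (k | k)
    · exact P.not_dvd_index k
    · exact hp2 ((Nat.prime_dvd_prime_iff_eq hp Nat.prime_two).1 k)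
  · rintro _ ⟨σ, hσ, rfl⟩
    refine ⟨_, subSc_in (hx' (Subgroup.mem_sup_right ⟨σ, hσ, rfl⟩)), fun i j k => ?_⟩
    exact SLI.pm_mon σ i j fun k' => k (by rw [k']; simp)

theorem good_psl [Fact p.Prime] (hC : Cl p C) (K : Type) [Field K] [Finite K] {m : ℕ}
    (hm : 3 ≤ m) (hK : Ok2 p m K) (hsl : ∀ (E : Type) [Field E] [Finite E] (n : ℕ), 3 ≤ n →
      Ok2 p n E → C (SpecialLinearGroup (Fin n) E)) :
    Good p C (Matrix.ProjectiveSpecialLinearGroup (Fin m) K) := by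
  intro H hH
  have hs := QuotientGroup.mk'_surjective (Subgroup.center (SpecialLinearGroup (Fin m) K))
  refine hC.quot _ _ (good_sl hC K hm hK hsl (H.comap (QuotientGroup.mk' _))
    (by rwa [Subgroup.index_comap_of_surjective _ hs])) ((QuotientGroup.mk' _).subgroupComap H) ?_
  exact MonoidHom.subgroupComap_surjective_of_surjective _ H hs

end Pool.Agent.Lib.MP_1ae3da_al.WG
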