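import Pool.Agent.Lib.MP_1ae3da_al.V.Kil

/-! The root elements generate a normal subgroup. -/

namespace Pool.Agent.Lib.MP_1ae3da_al.WG

open Matrix

variable {ι K : Type} [Fintype ι] [DecidableEq ι] [Field K] [Finite K] {H : Subgroup (GL ι K)}
  {p : ℕ} {s : K}

theorem Sc.ne (hs : Sc p s) {n : ℕ} (h0 : 0 < n) (h : n < 7) : s ≠ 0 ∧ s ^ n ≠ 1 := by
  have hb := hs.big
  refine ⟨fun e => ?_, fun e => ?_⟩
  · have h1 := pow_orderOf_eq_one s
    exact zero_ne_one (((pow_eq_zero_iff (by omega)).2 e).symm.trans h1)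
  · have := orderOf_le_of_pow_eq_one h0 e
    omega

omit [Finite K] in
theorem tv_neg {v φ : ι → K} (h0 : φ ⬝ᵥ v = 0) :
    tv v φ * tv (-v) φ = 1 ∧ tv (-v) φ * tv v φ = 1 := by
  rw [tv_add (by rw [dotProduct_neg, h0, neg_zero]), tv_add h0, add_neg_cancel, neg_add_cancel]
  simp [tv]

omit [Finite K] in
theorem tv_dot {a b : Matrix ι ι K} (h : b * a = 1) (v φ : ι → K) :
    (φ ᵥ* b) ⬝ᵥ (a *ᵥ v) = φ ⬝ᵥ v := by
  rw [← dotProduct_mulVec, mulVec_mulVec, h, one_mulVec]

theorem tv_mem (hs : Sc p s) (hH : ∀ j, In H (hm s j)) {c : K} (c0 : c ≠ 0) (c1 : c ≠ 1)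
    {v φ : ι → K} (h0 : φ ⬝ᵥ v = 0) (h1 : In H (tv v φ)) (h2 : In H (tv (c • v) φ)) :
    In (Mr H) (tv v φ) := by
  classical
  obtain ⟨s0, s1⟩ := hs.ne one_pos (by norm_num)
  rw [pow_one] at s1
  induction hn : (Finset.univ.filter fun j => v j ≠ 0).card using Nat.strong_induction_on
    generalizing v φ with
  | _ n ih =>
    by_cases hv : ∃ i, v i ≠ 0
    swap
    · obtain rfl : v = 0 := funext fun i => not_not.1 fun h => hv ⟨i, h⟩
      simpa [tv] using In.one
    obtain ⟨i, hi⟩ := hv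
    have lt : (Finset.univ.filter fun j => (v - Pi.single i (v i) : ι → K) j ≠ 0).card < n := by
      rw [← hn]
      refine Finset.card_lt_card ⟨fun j hj => ?_, fun h => ?_⟩
      · simp only [Finset.mem_filter, Finset.mem_univ, true_and] at hj ⊢
        intro e
        by_cases hji : j = i
        · exact hi (hji ▸ e)
        · exact hj (by simp [Pi.single_eq_of_ne hji, e])
      · have := h (Finset.mem_filter.2 ⟨Finset.mem_univ i, hi⟩)
        simp at this
    by_cases hφ : φ i = 0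
    · have d : ∀ x : K, φ ⬝ᵥ Pi.single i x = 0 := fun x => by rw [dotProduct_single, hφ, zero_mul]
      have cut : ∀ u : ι → K, φ ⬝ᵥ u = 0 → In H (tv u φ) → In H (tv (u - Pi.single i (u i)) φ) := by
        intro u hu h
        have := h.mul ((In.split s0 s1 (hH i) hu hφ h).inv (tv_neg (d _)).1)
        rwa [tv_add (by rw [dotProduct_neg, d, neg_zero]), ← sub_eq_add_neg] at this
      have a2 := cut _ (by rw [dotProduct_smul, h0, smul_zero]) h2
      rw [Pi.smul_apply, Pi.single_smul, ← smul_sub] at a2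
      have a3 := ih _ lt (by rw [dotProduct_sub, h0, d, sub_self]) (cut v h0 h1) a2 rfl
      have a4 := a3.mul (In.col s0 s1 hH hφ (In.split s0 s1 (hH i) h0 hφ h1))
      rwa [tv_add (d _), sub_add_cancel] at a4
    · have u1 := kil_t hs (hH i) h0 (mul_ne_zero hi hφ) c0 c1 h1 h2
      obtain ⟨ψ, hψ⟩ : ∃ ψ : ι → K, ψ = φ - Pi.single i (φ i) := ⟨_, rfl⟩
      rw [← hψ] at u1
      have ψ0 : ψ i = 0 := by simp [hψ]
      obtain ⟨i1, i2⟩ := tv_neg (v := Pi.single i (φ i)⁻¹) (φ := ψ)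
        (by rw [dotProduct_single, ψ0, zero_mul])
      have u2 := In.col s0 s1 hH ψ0 u1
      have e : tv (Pi.single i (φ i)⁻¹) ψ *ᵥ v = v - Pi.single i (v i) := by
        rw [tv_mulVec, hψ, sub_dotProduct, h0, single_dotProduct, ← Pi.single_smul, smul_eq_mul,
          show (0 - φ i * v i) * (φ i)⁻¹ = -v i by field_simp; ring, Pi.single_neg, sub_eq_add_neg]
      have a1 := (u1.mul h1).mul (u1.inv i1)
      have a2 := (u1.mul h2).mul (u1.inv i1)
      have a0 := tv_conj (v := v) (φ := φ) i1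
      rw [tv_conj i1, mulVec_smul, e] at a2
      rw [a0, e] at a1
      have a3 := ih _ lt (by rw [← e, tv_dot i2, h0]) a1 a2 rfl
      have a4 := ((u2.inv i1).mul a3).mul u2
      rwa [← e, ← a0, ← mul_assoc, ← mul_assoc, i2, one_mul, mul_assoc, i2, mul_one] at a4

theorem mr_conj (hs : Sc p s) (hH : ∀ j, In H (hm s j)) {g m : GL ι K} (hg : g ∈ H)
    (hm : m ∈ Mr H) : g * m * g⁻¹ ∈ Mr H := by
  obtain ⟨s0, s1⟩ := hs.ne one_pos (by norm_num)
  rw [pow_one] at s1
  have g1 : In H (g : Matrix ι ι K) := In.coe.2 hg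
  have i1 : (g : Matrix ι ι K) * (g⁻¹ : GL ι K) = 1 := g.mul_inv
  have i2 : ((g⁻¹ : GL ι K) : Matrix ι ι K) * g = 1 := g.inv_mul
  induction hm using Subgroup.closure_induction with
  | mem m h =>
    obtain ⟨i, j, hij, c, hc, e⟩ := h
    have z : (Pi.single j 1 : ι → K) i = 0 := Pi.single_eq_of_ne hij _
    have a1 := (g1.mul hc).mul (g1.inv i1)
    have a2 := (g1.mul (In.scale s0 (hH i) z hc (Subfield.subset_closure rfl))).mul (g1.inv i1)
    rw [tv_conj i1, ← smul_eq_mul, Pi.single_smul, mulVec_smul] at a2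
    rw [rt, tv_conj i1] at a1
    refine In.coe.1 ?_
    rw [Units.val_mul, Units.val_mul, e, rt, tv_conj i1]
    exact tv_mem hs hH s0 s1 (by rw [tv_dot i2, dotProduct_single, z, zero_mul]) a1 a2
  | one => simp
  | mul x y _ _ hx hy =>
    rw [show g * (x * y) * g⁻¹ = g * x * g⁻¹ * (g * y * g⁻¹) by group]
    exact mul_mem hx hy
  | inv x _ hx =>
    rw [show g * x⁻¹ * g⁻¹ = (g * x * g⁻¹)⁻¹ by group]
    exact inv_mem hx

end Pool.Agent.Lib.MP_1ae3da_al.WG
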