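import Pool.Agent.Lib.MP_1ae3da_al.V.Blk
import Pool.Agent.Lib.MP_1ae3da_al.V.Hm

/-! Subgroups of the general linear group that contain the homologies. -/

namespace Pool.Agent.Lib.MP_1ae3da_al.WG

open Matrix CT

variable {p : ℕ} {C : ∀ (G : Type) [Group G], Prop}
  {ι K : Type} [Fintype ι] [DecidableEq ι] [Field K] [Finite K]

omit [Finite K] in
theorem wag_add {i j : ι} (h : i ≠ j) (a b : K) : rt i j a * rt i j b = rt i j (a + b) := by
  unfold rt
  rw [tv_add (by simp [h]), Pi.single_add]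

omit [Finite K] in
theorem wag_zero (i j : ι) : rt i j (0 : K) = 1 := by simp [rt, tv]

omit [Finite K] in
theorem wag_comm {i j k : ι} (h1 : i ≠ j) (h2 : j ≠ k) (h3 : i ≠ k) (a b : K) :
    rt i j a * rt j k b * rt i j (-a) * rt j k (-b) = rt i k (a * b) := by
  have e : rt i j a * rt i j (-a) = 1 := by rw [wag_add h1, add_neg_cancel, wag_zero]
  have e1 : rt i j a *ᵥ Pi.single j b = Pi.single j b + Pi.single i (a * b) := by
    unfold rt
    rw [tv_mulVec, ← Pi.single_smul']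
    simp [mul_comm]
  have e2 : Pi.single k (1 : K) ᵥ* rt i j (-a) = Pi.single k 1 := by
    unfold rt
    rw [vecMul_tv]
    simp [h3]
  rw [rt.eq_1 j k b, tv_conj e, e1, e2, rt.eq_1 j k, tv_add (by simp [h2]), Pi.single_neg,
    add_right_comm, add_neg_cancel, zero_add]
  rfl

/-- the parameters of the root elements in `H` -/
def wagA (H : Subgroup (GL ι K)) (i j : ι) : AddSubgroup K where
  carrier := {c | i ≠ j → In H (rt i j c)}
  zero_mem' := fun _ => by rw [wag_zero]; exact In.one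
  add_mem' := fun ha hb h => by rw [← wag_add h]; exact (ha h).mul (hb h)
  neg_mem' := fun {a} ha h => (ha h).inv (by rw [wag_add h, add_neg_cancel, wag_zero])

omit [Finite K] in
theorem wag_rg (H : Subgroup (GL ι K)) : Rg (fun i j => (wagA H i j : Set K)) = Mr H := by
  unfold Mr Rg
  congr 1
  ext g
  exact ⟨fun ⟨i, j, h, c, hc, e⟩ => ⟨i, j, h, c, hc h, e⟩,
    fun ⟨i, j, h, c, hc, e⟩ => ⟨i, j, h, c, fun _ => hc, e⟩⟩

/-- monomial elements with their permutations -/
def wagM (H : Subgroup (GL ι K)) : Submonoid (GL ι K × Equiv.Perm ι) where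
  carrier := {x | x.1 ∈ H ∧ ∀ i j, i ≠ x.2 j → (x.1 : Matrix ι ι K) i j = 0}
  one_mem' := ⟨H.one_mem, fun i j h => one_apply_ne h⟩
  mul_mem' := fun {x y} hx hy => ⟨H.mul_mem hx.1 hy.1, fun i j h => by
    rw [Prod.fst_mul, Units.val_mul, mul_apply]
    refine Finset.sum_eq_zero fun k _ => ?_
    by_cases e : k = y.2 j
    · rw [hx.2 i k (by rw [e]; exact h), zero_mul]
    · rw [hy.2 k j e, mul_zero]⟩

/-- the same as a group -/
def wagN (H : Subgroup (GL ι K)) : Subgroup (GL ι K × Equiv.Perm ι) where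
  toSubmonoid := wagM H
  inv_mem' := fun {x} hx => (Submonoid.powers_le.2 hx)
    (mem_powers_iff_mem_zpowers.2 (Subgroup.inv_mem _ (Subgroup.mem_zpowers x)))

theorem wag_mono [Fact p.Prime] (hC : Cl p C) (H : Subgroup (GL ι K)) (P : Subgroup (Equiv.Perm ι))
    (hP : ¬ p ∣ P.index)
    (hPH : ∀ σ ∈ P, ∃ g ∈ H, ∀ i j, i ≠ σ j → (g : Matrix ι ι K) i j = 0) : C (wagN H) := by
  have hp : p.Prime := Fact.out
  let f : wagN H →* Equiv.Perm ι := (MonoidHom.snd _ _).comp (wagN H).subtype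
  refine hC.cls.hom f ?_ (cls_index hp hC.cls _ fun h => hP (h.trans ?_))
  · have : Group.IsSolvable f.ker := Group.isSolvable_of_comm fun x y => by
      have hx : x.1.1.2 = 1 := x.2
      have hy : y.1.1.2 = 1 := y.2
      have dx : ∀ i j, i ≠ j → (x.1.1.1 : Matrix ι ι K) i j = 0 := fun i j h =>
        x.1.2.2 i j (by rw [hx]; exact h)
      have dy : ∀ i j, i ≠ j → (y.1.1.1 : Matrix ι ι K) i j = 0 := fun i j h =>
        y.1.2.2 i j (by rw [hy]; exact h)
      refine Subtype.ext (Subtype.ext (Prod.ext (Units.ext ?_) ?_))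
      · show (x.1.1.1 : Matrix ι ι K) * y.1.1.1 = (y.1.1.1 : Matrix ι ι K) * x.1.1.1
        ext i j
        rw [mul_apply, mul_apply, Finset.sum_eq_single i (fun k _ h => by rw [dx i k h.symm, zero_mul])
          (by simp), Finset.sum_eq_single j (fun k _ h => by rw [dx k j h, mul_zero]) (by simp)]
        by_cases e : i = j
        · rw [e, mul_comm]
        · rw [dy i j e, mul_zero, zero_mul]
      · show x.1.1.2 * y.1.1.2 = y.1.1.2 * x.1.1.2
        rw [hx, hy]
    exact Cls.solv hp hC.cls _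
  · refine Subgroup.index_dvd_of_le fun σ hσ => ?_
    obtain ⟨g, hg, h⟩ := hPH σ hσ
    exact ⟨⟨(g, σ), hg, h⟩, rfl⟩

/-- hint: `Mr H` is normal (`mr_conj`) and lies in `C` (`blk`; commutators of root elements);
`H / Mr H` is a quotient of the group `N` of monomial elements of `H` (`fact`); `N` maps to
`Perm ι` with abelian kernel (`Cls.solv`) and a range that contains `P` (`cls_index`). -/
theorem wag [Fact p.Prime] (hC : Cl p C) {s t : K} (hs : Sc p s) (H : Subgroup (GL ι K))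
    (hH : ∀ j, In H (hm s j)) (ht : ∀ i j, i ≠ j → ∀ c, In H (rt i j c) → In H (rt i j (t * c)))
    (hsl : ∀ (E : Subfield K) (m : ℕ), t ∈ E → 3 ≤ m → m ≤ Fintype.card ι →
      C (SpecialLinearGroup (Fin m) E))
    (P : Subgroup (Equiv.Perm ι)) (hP : ¬ p ∣ P.index)
    (hPH : ∀ σ ∈ P, ∃ g ∈ H, ∀ i j, i ≠ σ j → (g : Matrix ι ι K) i j = 0) : C H := by
  have hp : p.Prime := Fact.out
  have hp2 : p ≠ 2 := fun e => hs.chr 0 (by simp [e])
  have hK : ¬ CharP K p := fun _ => by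
    obtain ⟨c, hc⟩ := hs.ord
    have h1 : (s - 1) ^ p ^ c = 0 := by
      rw [sub_pow_char_pow, one_pow, ← hc, pow_orderOf_eq_one, sub_self]
    have h2 := hs.big
    rw [sub_eq_zero.1 (pow_eq_zero_iff (pow_ne_zero _ hp.ne_zero) |>.1 h1), orderOf_one] at h2
    omega
  have hM : C (Mr H) := by
    rw [← wag_rg]
    refine blk hC hp2 hK (wagA H) (fun i j k h1 h2 h3 a ha b hb _ => ?_)
      (fun i j h c hc _ => ht i j h c (hc h)) hsl
    rw [← wag_comm h1 h2 h3]
    exact (((ha h1).mul (hb h2)).mul ((wagA H i j).neg_mem ha h1)).mul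
      ((wagA H j k).neg_mem hb h2)
  have : ((Mr H).subgroupOf H).Normal :=
    ⟨fun m hm g => Subgroup.mem_subgroupOf.2 (mr_conj hs hH g.2 (Subgroup.mem_subgroupOf.1 hm))⟩
  refine hC.cls.ext H ((Mr H).subgroupOf H)
    (hC.cls.iso _ _ (Subgroup.subgroupOfEquivOfLe mr_le).symm hM) ?_
  let f : wagN H →* H := ((MonoidHom.fst _ _).comp (wagN H).subtype).codRestrict H fun x => x.2.1
  refine hC.quot _ _ (wag_mono hC H P hP hPH) ((QuotientGroup.mk' _).comp f) fun q => ?_
  obtain ⟨g, rfl⟩ := QuotientGroup.mk_surjective q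
  obtain ⟨m, hm, σ, h⟩ := fact hs hH g.2
  refine ⟨⟨(m * g, σ), H.mul_mem (mr_le hm) g.2, h⟩, ?_⟩
  have e : ((⟨m, mr_le hm⟩ : H) : H ⧸ (Mr H).subgroupOf H) = 1 :=
    (QuotientGroup.eq_one_iff _).2 (Subgroup.mem_subgroupOf.2 hm)
  show (((⟨m, mr_le hm⟩ : H) * g : H) : H ⧸ (Mr H).subgroupOf H) = _
  rw [QuotientGroup.mk_mul, e, one_mul]

end Pool.Agent.Lib.MP_1ae3da_al.WG
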